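import Pool.Agent.Work.MP_058ed1_gt.G.L2Def

/-!
# The abstract definition of `0` in the spectrum, and the completion of `Ω_c^p(X)`
-/

open scoped Manifold ContDiff Topology Bundle ENNReal NNReal
open Set MeasureTheory Bundle

set_option linter.unusedSectionVars false

noncomputable section

namespace Pool.Agent.ZSp

universe u v

variable {E : Type u} [NormedAddCommGroup E] [InnerProductSpace ℝ E] [FiniteDimensional ℝ E]
  {X : Type v} [EMetricSpace X] [ChartedSpace E X]
  [IsManifold 𝓘(ℝ, E) ∞ X] [RiemannianBundle (fun x : X => TangentSpace 𝓘(ℝ, E) x)]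
  [IsContMDiffRiemannianBundle 𝓘(ℝ, E) ∞ E (fun x : X => TangentSpace 𝓘(ℝ, E) x)]
  [IsRiemannianManifold 𝓘(ℝ, E) X] [MeasurableSpace X] [BorelSpace X] {p : ℕ}

theorem lapEq_iff {w η : PForm E X p} : LapEq p w η ↔ Test w ∧ Test η ∧ IsLap p w η := by
  cases p with
  | zero => exact Iff.rfl
  | succ p =>
    constructor
    · rintro ⟨h1, h2, c, d, hc, hd, h3, h4, h5⟩
      exact ⟨h1, h2, c, hc, d, hd, h3, h4, funext h5⟩
    · rintro ⟨h1, h2, c, hc, d, hd, h3, h4, h5⟩
      exact ⟨h1, h2, c, d, hc, hd, h3, h4, fun x => congrFun h5 x⟩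

/-- a smooth form with compact support as an element of `OmC`. -/
def mkOm (a : PForm E X p) (h : Test a) : OmC E X p := ⟨a, h⟩

open Classical in
/-- the map from forms to the completion. -/
def toL2 (a : PForm E X p) : L2F E X p :=
  if h : Test a then (mkOm a h : L2F E X p) else 0

theorem toL2_of_test {a : PForm E X p} (h : Test a) :
    toL2 a = (mkOm a h : L2F E X p) := dif_pos h

theorem isL2_toL2 : IsL2 (toL2 : PForm E X p → L2F E X p) := by
  refine ⟨fun a b ha hb => ?_, ?_⟩
  · rw [toL2_of_test ha, toL2_of_test hb, UniformSpace.Completion.inner_coe]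
    rfl
  · have h := UniformSpace.Completion.denseRange_coe (α := OmC E X p)
    refine h.mono ?_
    rintro _ ⟨a, rfl⟩
    exact ⟨a.1, a.2, toL2_of_test a.2⟩

theorem lapMin_toL2 : lapMin (toL2 : PForm E X p → L2F E X p) = lapMinGraph E X p := by
  unfold lapMin lapMinGraph
  congr 1
  ext z
  constructor
  · rintro ⟨w, η, h, rfl⟩
    rw [lapEq_iff] at h
    refine ⟨mkOm w h.1, mkOm η h.2.1, h.2.2, ?_⟩
    rw [toL2_of_test h.1, toL2_of_test h.2.1]
  · rintro ⟨w, η, h, rfl⟩
    refine ⟨w.1, η.1, lapEq_iff.2 ⟨w.2, η.2, h⟩, ?_⟩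
    rw [toL2_of_test w.2, toL2_of_test η.2]
    rfl

end Pool.Agent.ZSp
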