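import Pool.Agent.Work.MP_058ed1_gt.G.Defs

/-!
# Module A3: the Riemannian measure in charts
-/

open scoped Manifold ContDiff Topology Bundle ENNReal NNReal
open Set MeasureTheory Bundle Manifold

set_option linter.unusedSectionVars false

noncomputable section

namespace Pool.Agent.ZSp

namespace MeasAux

attribute [local instance] normedAddCommGroupTangentSpaceVectorSpace
attribute [local instance] normedSpaceTangentSpaceVectorSpace

variable {E : Type*} [NormedAddCommGroup E] [InnerProductSpace ℝ E] [FiniteDimensional ℝ E]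
  {X : Type*} [EMetricSpace X] [ChartedSpace E X]
  [IsManifold 𝓘(ℝ, E) ∞ X] [RiemannianBundle (fun x : X => TangentSpace 𝓘(ℝ, E) x)]

theorem isCont [h : IsContMDiffRiemannianBundle 𝓘(ℝ, E) ∞ E
    (fun x : X => TangentSpace 𝓘(ℝ, E) x)] :
    IsContinuousRiemannianBundle E (fun x : X => TangentSpace 𝓘(ℝ, E) x) := by
  obtain ⟨g, hg, h⟩ := h.exists_contMDiff
  exact ⟨⟨g, hg.continuous, h⟩⟩

variable [IsContMDiffRiemannianBundle 𝓘(ℝ, E) ∞ E (fun x : X => TangentSpace 𝓘(ℝ, E) x)]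

instance isOne : IsManifold 𝓘(ℝ, E) 1 X := IsManifold.of_le (n := ∞) (by norm_cast)

set_option backward.isDefEq.respectTransparency false in
/-- a radius on which everything is controlled. -/
theorem exists_radius (x₀ : X) : ∃ ρ : ℝ, 0 < ρ ∧ ∃ C : ℝ≥0, 0 < C ∧
    Metric.closedBall (ch E x₀ x₀) ρ ⊆ (ch E x₀).target ∧
    (∀ z ∈ Metric.closedBall (ch E x₀ x₀) ρ,
      ‖mfderiv 𝓘(ℝ, E) 𝓘(ℝ, E) (ch E x₀) ((ch E x₀).symm z)‖ₑ < C) ∧
    (∀ z ∈ Metric.closedBall (ch E x₀ x₀) ρ,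
      ‖mfderivWithin 𝓘(ℝ, E) 𝓘(ℝ, E) (ch E x₀).symm (range 𝓘(ℝ, E)) z‖ₑ < C) := by
  have := isCont (E := E) (X := X)
  obtain ⟨C₁, hC₁, h₁⟩ := eventually_enorm_mfderiv_extChartAt_lt 𝓘(ℝ, E) x₀
  obtain ⟨C₂, hC₂, h₂⟩ := eventually_enorm_mfderivWithin_symm_extChartAt_lt 𝓘(ℝ, E) x₀
  have hr : range 𝓘(ℝ, E) = univ := by simp
  rw [hr, nhdsWithin_univ] at h₂
  have h₃ : ∀ᶠ z in 𝓝 (ch E x₀ x₀), ‖mfderiv 𝓘(ℝ, E) 𝓘(ℝ, E) (ch E x₀) ((ch E x₀).symm z)‖ₑ < C₁ := by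
    have hc : ContinuousAt (ch E x₀).symm (ch E x₀ x₀) := continuousAt_extChartAt_symm _
    have : 𝓝 x₀ = 𝓝 ((ch E x₀).symm (ch E x₀ x₀)) := by simp
    rw [this] at h₁
    exact hc.eventually h₁
  have h₄ : ∀ᶠ z in 𝓝 (ch E x₀ x₀), z ∈ (ch E x₀).target := extChartAt_target_mem_nhds x₀
  obtain ⟨ρ, hρ, h⟩ := Metric.nhds_basis_closedBall.eventually_iff.1 (h₂.and (h₃.and h₄))
  refine ⟨ρ, hρ, max C₁ C₂, lt_max_of_lt_left hC₁, fun z hz => (h hz).2.2, fun z hz => ?_,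
    fun z hz => ?_⟩
  · exact (h hz).2.1.trans_le (by exact_mod_cast le_max_left _ _)
  · rw [hr]
    exact (h hz).1.trans_le (by exact_mod_cast le_max_right _ _)

set_option backward.isDefEq.respectTransparency false in
/-- the inverse of the chart is Lipschitz on the ball. -/
theorem symm_lip [IsRiemannianManifold 𝓘(ℝ, E) X] (x₀ : X) {ρ : ℝ} {C : ℝ≥0}
    (ht : Metric.closedBall (ch E x₀ x₀) ρ ⊆ (ch E x₀).target)
    (hC : ∀ z ∈ Metric.closedBall (ch E x₀ x₀) ρ,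
      ‖mfderivWithin 𝓘(ℝ, E) 𝓘(ℝ, E) (ch E x₀).symm (range 𝓘(ℝ, E)) z‖ₑ < C) :
    LipschitzOnWith C (ch E x₀).symm (Metric.closedBall (ch E x₀ x₀) ρ) := by
  intro z hz z' hz'
  rw [IsRiemannianManifold.out (I := 𝓘(ℝ, E))]
  let η := ContinuousAffineMap.lineMap (R := ℝ) z z'
  set γ := (ch E x₀).symm ∘ η
  have hη : Icc 0 1 ⊆ ⇑η ⁻¹' ((ch E x₀).target ∩
        {y | ‖mfderivWithin 𝓘(ℝ, E) 𝓘(ℝ, E) (ch E x₀).symm (range 𝓘(ℝ, E)) y‖ₑ < C}) := by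
    simp only [← image_subset_iff, ContinuousAffineMap.coe_lineMap_eq,
     ← segment_eq_image_lineMap, η]
    refine ((convex_closedBall _ _).segment_subset hz hz').trans ?_
    intro y hy
    exact ⟨ht hy, hC y hy⟩
  simp only [preimage_inter, subset_inter_iff] at hη
  have η_smooth : ContMDiffOn 𝓘(ℝ, ℝ) 𝓘(ℝ, E) 1 η (Icc 0 1) := by
    apply ContMDiff.contMDiffOn
    rw [contMDiff_iff_contDiff]
    exact ContinuousAffineMap.contDiff _
  have h1 : riemannianEDist 𝓘(ℝ, E) ((ch E x₀).symm z) ((ch E x₀).symm z') ≤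
      pathELength 𝓘(ℝ, E) γ 0 1 := by
    apply riemannianEDist_le_pathELength _ _ _ zero_le_one
    · exact (contMDiffOn_extChartAt_symm x₀).comp η_smooth hη.1
    · simp [γ, η, ContinuousAffineMap.coe_lineMap_eq]
    · simp [γ, η, ContinuousAffineMap.coe_lineMap_eq]
  apply h1.trans
  rw [← lintegral_fderiv_lineMap_eq_edist, pathELength_eq_lintegral_mfderivWithin_Icc,
    ← lintegral_const_mul' _ _ ENNReal.coe_ne_top]
  apply setLIntegral_mono' measurableSet_Icc (fun t ht ↦ ?_)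
  have h2 : mfderivWithin 𝓘(ℝ, ℝ) 𝓘(ℝ, E) γ (Icc 0 1) t =
      (mfderivWithin 𝓘(ℝ, E) 𝓘(ℝ, E) (ch E x₀).symm (range 𝓘(ℝ, E)) (η t)) ∘L
        (mfderivWithin 𝓘(ℝ, ℝ) 𝓘(ℝ, E) η (Icc 0 1) t) := by
    apply mfderivWithin_comp
    · exact mdifferentiableWithinAt_extChartAt_symm (hη.1 ht)
    · exact η_smooth.mdifferentiableOn one_ne_zero t ht
    · exact hη.1.trans (preimage_mono (extChartAt_target_subset_range x₀))
    · rw [uniqueMDiffWithinAt_iff_uniqueDiffWithinAt]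
      exact uniqueDiffOn_Icc zero_lt_one t ht
  have h3 : mfderivWithin 𝓘(ℝ, ℝ) 𝓘(ℝ, E) γ (Icc 0 1) t 1 =
      (mfderivWithin 𝓘(ℝ, E) 𝓘(ℝ, E) (ch E x₀).symm (range 𝓘(ℝ, E)) (η t))
        (mfderivWithin 𝓘(ℝ, ℝ) 𝓘(ℝ, E) η (Icc 0 1) t 1) := congr($h2 1)
  rw [h3]
  apply (ContinuousLinearMap.le_opENorm _ _).trans
  gcongr
  · exact (hη.2 ht).le
  · simp only [mfderivWithin_eq_fderivWithin]
    exact le_of_eq rfl

set_option backward.isDefEq.respectTransparency false in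
/-- the length of a path that stays in the chart ball controls the displacement in the chart. -/
theorem len_chart (x₀ : X) {ρ : ℝ} {C : ℝ≥0}
    (ht : Metric.closedBall (ch E x₀ x₀) ρ ⊆ (ch E x₀).target)
    (hC : ∀ z ∈ Metric.closedBall (ch E x₀ x₀) ρ,
      ‖mfderiv 𝓘(ℝ, E) 𝓘(ℝ, E) (ch E x₀) ((ch E x₀).symm z)‖ₑ < C)
    (γ : ℝ → X) (γ_smooth : ContMDiff 𝓘(ℝ, ℝ) 𝓘(ℝ, E) 1 γ) {t₁ : ℝ} (ht₁0 : 0 ≤ t₁)
    (hmem : Icc 0 t₁ ⊆ γ ⁻¹' ((ch E x₀).symm '' Metric.closedBall (ch E x₀ x₀) ρ)) :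
    ‖ch E x₀ (γ t₁) - ch E x₀ (γ 0)‖ₑ ≤ C * pathELength 𝓘(ℝ, E) γ 0 t₁ := by
  have uc : ((ch E x₀).symm '' Metric.closedBall (ch E x₀ x₀) ρ) ⊆ (ch E x₀).source := by
    rintro _ ⟨z, hz, rfl⟩
    exact (ch E x₀).map_target (ht hz)
  have uc' : ((ch E x₀).symm '' Metric.closedBall (ch E x₀ x₀) ρ) ⊆ (chartAt E x₀).source := by
    simpa [extChartAt_source 𝓘(ℝ, E) x₀] using uc
  have hu : ∀ y ∈ ((ch E x₀).symm '' Metric.closedBall (ch E x₀ x₀) ρ),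
      ‖mfderiv 𝓘(ℝ, E) 𝓘(ℝ, E) (ch E x₀) y‖ₑ < C := by
    rintro _ ⟨z, hz, rfl⟩
    exact hC z hz
  let γ' := ch E x₀ ∘ γ
  have hγ' : ContMDiffOn 𝓘(ℝ, ℝ) 𝓘(ℝ, E) 1 γ' (Icc 0 t₁) :=
    contMDiffOn_extChartAt.comp (I' := 𝓘(ℝ, E)) (t := (chartAt E x₀).source)
      γ_smooth.contMDiffOn (fun t' ht' ↦ uc' <| hmem ht')
  rcases ht₁0.eq_or_lt with rfl | h't'
  · simp
  calc
    ‖γ' t₁ - γ' 0‖ₑ
    _ ≤ ∫⁻ t' in Icc 0 t₁, ‖derivWithin γ' (Icc 0 t₁) t'‖ₑ := by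
      apply enorm_sub_le_lintegral_derivWithin_Icc_of_contDiffOn_Icc _ ht₁0
      rwa [← contMDiffOn_iff_contDiffOn]
    _ = ∫⁻ t' in Icc 0 t₁, ‖mfderivWithin 𝓘(ℝ, ℝ) 𝓘(ℝ, E) γ' (Icc 0 t₁) t' 1‖ₑ := by
      simp_rw [← fderivWithin_derivWithin, mfderivWithin_eq_fderivWithin]
      rfl
    _ ≤ ∫⁻ t' in Icc 0 t₁, C * ‖mfderivWithin 𝓘(ℝ, ℝ) 𝓘(ℝ, E) γ (Icc 0 t₁) t' 1‖ₑ := by
      apply setLIntegral_mono' measurableSet_Icc (fun t' ht' ↦ ?_)
      have h2 : mfderivWithin 𝓘(ℝ, ℝ) 𝓘(ℝ, E) γ' (Icc 0 t₁) t' =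
          (mfderiv 𝓘(ℝ, E) 𝓘(ℝ, E) (ch E x₀) (γ t')) ∘L
            (mfderivWithin 𝓘(ℝ, ℝ) 𝓘(ℝ, E) γ (Icc 0 t₁) t') := by
        apply mfderiv_comp_mfderivWithin
        · refine mdifferentiableAt_extChartAt (uc' ?_)
          apply hmem ht'
        · exact (γ_smooth.mdifferentiable one_ne_zero).mdifferentiableOn _ ht'
        · rw [uniqueMDiffWithinAt_iff_uniqueDiffWithinAt]
          exact uniqueDiffOn_Icc h't' _ ht'
      have h3 : mfderivWithin 𝓘(ℝ, ℝ) 𝓘(ℝ, E) γ' (Icc 0 t₁) t' 1 =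
          (mfderiv 𝓘(ℝ, E) 𝓘(ℝ, E) (ch E x₀) (γ t'))
            (mfderivWithin 𝓘(ℝ, ℝ) 𝓘(ℝ, E) γ (Icc 0 t₁) t' 1) :=
        congr($h2 1)
      rw [h3]
      apply (ContinuousLinearMap.le_opENorm _ _).trans
      gcongr
      refine (hu _ ?_).le
      apply hmem ht'
    _ = C * pathELength 𝓘(ℝ, E) γ 0 t₁ := by
      rw [lintegral_const_mul' _ _ ENNReal.coe_ne_top,
          pathELength_eq_lintegral_mfderivWithin_Icc]

theorem symm_image_eq (x₀ : X) {r : ℝ} (ht : Metric.ball (ch E x₀ x₀) r ⊆ (ch E x₀).target) :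
    (ch E x₀).symm '' Metric.ball (ch E x₀ x₀) r =
      (ch E x₀).source ∩ ch E x₀ ⁻¹' Metric.ball (ch E x₀ x₀) r := by
  ext y
  constructor
  · rintro ⟨z, hz, rfl⟩
    refine ⟨(ch E x₀).map_target (ht hz), ?_⟩
    rw [mem_preimage, (ch E x₀).right_inv (ht hz)]
    exact hz
  · rintro ⟨h1, h2⟩
    exact ⟨ch E x₀ y, h2, (ch E x₀).left_inv h1⟩

theorem symm_image_open (x₀ : X) {r : ℝ} (ht : Metric.ball (ch E x₀ x₀) r ⊆ (ch E x₀).target) :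
    IsOpen ((ch E x₀).symm '' Metric.ball (ch E x₀ x₀) r) := by
  rw [symm_image_eq x₀ ht]
  have := isOpen_extChartAt_preimage (I := 𝓘(ℝ, E)) x₀ (Metric.isOpen_ball (x := ch E x₀ x₀) (ε := r))
  rwa [← extChartAt_source 𝓘(ℝ, E) x₀] at this

set_option backward.isDefEq.respectTransparency false in
/-- the chart is Lipschitz on a smaller ball. -/
theorem ch_lip [IsRiemannianManifold 𝓘(ℝ, E) X] (x₀ : X) {ρ : ℝ} (hρ : 0 < ρ) {C : ℝ≥0}
    (hC0 : 0 < C)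
    (ht : Metric.closedBall (ch E x₀ x₀) ρ ⊆ (ch E x₀).target)
    (hC : ∀ z ∈ Metric.closedBall (ch E x₀ x₀) ρ,
      ‖mfderiv 𝓘(ℝ, E) 𝓘(ℝ, E) (ch E x₀) ((ch E x₀).symm z)‖ₑ < C) :
    LipschitzOnWith C (ch E x₀) ((ch E x₀).symm '' Metric.closedBall (ch E x₀ x₀) (ρ / 3)) := by
  rintro _ ⟨z, hz, rfl⟩ _ ⟨z', hz', rfl⟩
  have hsub : Metric.closedBall (ch E x₀ x₀) (ρ / 3) ⊆ Metric.closedBall (ch E x₀ x₀) ρ :=
    Metric.closedBall_subset_closedBall (by linarith)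
  rw [(ch E x₀).right_inv (ht (hsub hz)), (ch E x₀).right_inv (ht (hsub hz'))]
  by_contra hcon
  rw [not_le] at hcon
  set D : ℝ≥0∞ := edist z z' with hD
  have hDr : D ≤ ENNReal.ofReal (2 * ρ / 3) := by
    rw [hD, edist_dist]
    apply ENNReal.ofReal_le_ofReal
    have h1 : dist z (ch E x₀ x₀) ≤ ρ / 3 := hz
    have h2 : dist z' (ch E x₀ x₀) ≤ ρ / 3 := hz'
    have h3 := dist_triangle_right z z' (ch E x₀ x₀)
    linarith
  have hlt : riemannianEDist 𝓘(ℝ, E) ((ch E x₀).symm z) ((ch E x₀).symm z') < D / C := by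
    rw [← IsRiemannianManifold.out (I := 𝓘(ℝ, E))]
    rw [ENNReal.lt_div_iff_mul_lt (Or.inl (by exact_mod_cast hC0.ne')) (Or.inl (by simp)), mul_comm]
    exact hcon
  obtain ⟨γ, hγx, hγy, γ_smooth, hγ, -⟩ :=
    exists_lt_locally_constant_of_riemannianEDist_lt hlt zero_lt_one
  have hlen : (C : ℝ≥0∞) * pathELength 𝓘(ℝ, E) γ 0 1 < D := by
    rw [ENNReal.lt_div_iff_mul_lt (Or.inl (by exact_mod_cast hC0.ne')) (Or.inl (by simp)),
      mul_comm] at hγ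
    exact hγ
  have htb : Metric.ball (ch E x₀ x₀) ρ ⊆ (ch E x₀).target :=
    Metric.ball_subset_closedBall.trans ht
  set u : Set X := (ch E x₀).symm '' Metric.closedBall (ch E x₀ x₀) ρ with hu
  set v : Set X := (ch E x₀).symm '' Metric.ball (ch E x₀ x₀) ρ with hv
  have hvu : v ⊆ u := image_mono Metric.ball_subset_closedBall
  have v_open : IsOpen v := symm_image_open x₀ htb
  have u_closed : IsClosed u := by
    apply IsCompact.isClosed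
    exact (isCompact_closedBall _ _).image_of_continuousOn
      ((continuousOn_extChartAt_symm x₀).mono ht)
  have uc : u ⊆ (ch E x₀).source := by
    rintro _ ⟨z, hz, rfl⟩
    exact (ch E x₀).map_target (ht hz)
  let A := γ ⁻¹' u
  have zero_mem : 0 ∈ A := by
    change γ 0 ∈ u
    rw [hγx]
    exact ⟨z, hsub hz, rfl⟩
  have A_closed : IsClosed (A ∩ Icc 0 1) :=
    (u_closed.preimage γ_smooth.continuous).inter isClosed_Icc
  have hall : Icc 0 1 ⊆ A := by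
    apply A_closed.Icc_subset_of_forall_mem_nhdsGT_of_Icc_subset zero_mem
    rintro t₁ ⟨ht₁0, ht₁1⟩ t₁_mem
    suffices γ t₁ ∈ v from
      γ_smooth.continuous.continuousWithinAt <| Filter.mem_of_superset (v_open.mem_nhds this) hvu
    have h1 := len_chart x₀ ht hC γ γ_smooth ht₁0 t₁_mem
    have h2 : ‖ch E x₀ (γ t₁) - ch E x₀ (γ 0)‖ₑ < ENNReal.ofReal (2 * ρ / 3) := by
      refine lt_of_le_of_lt h1 (lt_of_le_of_lt ?_ (hlen.trans_le hDr))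
      gcongr
    have h3 : dist (ch E x₀ (γ t₁)) (ch E x₀ (γ 0)) < 2 * ρ / 3 := by
      rw [dist_eq_norm]
      rw [← ofReal_norm, ENNReal.ofReal_lt_ofReal_iff (by positivity)] at h2
      exact h2
    have h4 : dist (ch E x₀ (γ 0)) (ch E x₀ x₀) ≤ ρ / 3 := by
      rw [hγx, (ch E x₀).right_inv (ht (hsub hz))]
      exact hz
    refine ⟨ch E x₀ (γ t₁), ?_, (ch E x₀).left_inv (uc (t₁_mem (right_mem_Icc.mpr ht₁0)))⟩
    rw [Metric.mem_ball]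
    have h5 := dist_triangle (ch E x₀ (γ t₁)) (ch E x₀ (γ 0)) (ch E x₀ x₀)
    linarith
  have h1 := len_chart x₀ ht hC γ γ_smooth zero_le_one hall
  rw [hγx, hγy, (ch E x₀).right_inv (ht (hsub hz)), (ch E x₀).right_inv (ht (hsub hz')),
    ← edist_eq_enorm_sub, edist_comm] at h1
  exact absurd (h1.trans_lt hlen) (lt_irrefl _)

set_option backward.isDefEq.respectTransparency false in
theorem norm_ch_le (x₀ : X) {C : ℝ≥0} {z : E}
    (h : ‖mfderiv 𝓘(ℝ, E) 𝓘(ℝ, E) (ch E x₀) ((ch E x₀).symm z)‖ₑ < C)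
    (v : TangentSpace 𝓘(ℝ, E) ((ch E x₀).symm z)) (w : E)
    (hw : w = mfderiv 𝓘(ℝ, E) 𝓘(ℝ, E) (ch E x₀) ((ch E x₀).symm z) v) :
    ‖w‖ ≤ C * ‖v‖ := by
  have h1 : ‖mfderiv 𝓘(ℝ, E) 𝓘(ℝ, E) (ch E x₀) ((ch E x₀).symm z)‖ ≤ C := by
    have h2 : (‖mfderiv 𝓘(ℝ, E) 𝓘(ℝ, E) (ch E x₀) ((ch E x₀).symm z)‖₊ : ℝ≥0∞) < C := h
    have h3 : ‖mfderiv 𝓘(ℝ, E) 𝓘(ℝ, E) (ch E x₀) ((ch E x₀).symm z)‖₊ < C := by
      exact_mod_cast h2
    exact_mod_cast h3.le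
  have h2 := (mfderiv 𝓘(ℝ, E) 𝓘(ℝ, E) (ch E x₀) ((ch E x₀).symm z)).le_opNorm v
  refine le_trans ?_ (h2.trans (mul_le_mul_of_nonneg_right h1 (norm_nonneg v)))
  exact le_of_eq (congrArg _ hw)

set_option backward.isDefEq.respectTransparency false in
theorem norm_symm_le (x₀ : X) {C : ℝ≥0} {z : E}
    (h : ‖mfderivWithin 𝓘(ℝ, E) 𝓘(ℝ, E) (ch E x₀).symm (range 𝓘(ℝ, E)) z‖ₑ < C) (v : E) :
    ‖(mfderiv 𝓘(ℝ, E) 𝓘(ℝ, E) (ch E x₀).symm z v :
        TangentSpace 𝓘(ℝ, E) ((ch E x₀).symm z))‖ ≤ C * ‖v‖ := by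
  have hr : range 𝓘(ℝ, E) = univ := by simp
  rw [hr, mfderivWithin_univ] at h
  have h1 : ‖mfderiv 𝓘(ℝ, E) 𝓘(ℝ, E) (ch E x₀).symm z‖ ≤ C := by
    have h2 : (‖mfderiv 𝓘(ℝ, E) 𝓘(ℝ, E) (ch E x₀).symm z‖₊ : ℝ≥0∞) < C := h
    have h3 : ‖mfderiv 𝓘(ℝ, E) 𝓘(ℝ, E) (ch E x₀).symm z‖₊ < C := by
      exact_mod_cast h2
    exact_mod_cast h3.le
  have h2 := (mfderiv 𝓘(ℝ, E) 𝓘(ℝ, E) (ch E x₀).symm z).le_opNorm v
  refine h2.trans ?_
  refine le_trans (mul_le_mul_of_nonneg_right h1 (norm_nonneg _)) ?_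
  exact le_of_eq rfl

end MeasAux

open MeasAux

/-- the Hausdorff measure of `ℝⁿ` is a multiple of the Lebesgue measure. -/
theorem hausdorff_eq_smul (E : Type*) [NormedAddCommGroup E] [InnerProductSpace ℝ E]
    [FiniteDimensional ℝ E] [MeasurableSpace E] [BorelSpace E] : ∃ κ : ℝ≥0, 0 < κ ∧
    (Measure.hausdorffMeasure (Module.finrank ℝ E : ℝ) : Measure E) =
      κ • (volume : Measure E) := by
  refine ⟨_, ?_, Measure.isAddLeftInvariant_eq_smul _ _⟩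
  exact Measure.addHaarScalarFactor_pos_of_isAddHaarMeasure _ _

section A3

variable {E : Type*} [NormedAddCommGroup E] [InnerProductSpace ℝ E] [FiniteDimensional ℝ E]
  {X : Type*} [EMetricSpace X] [ChartedSpace E X]
  [IsManifold 𝓘(ℝ, E) ∞ X] [RiemannianBundle (fun x : X => TangentSpace 𝓘(ℝ, E) x)]
  [IsContMDiffRiemannianBundle 𝓘(ℝ, E) ∞ E (fun x : X => TangentSpace 𝓘(ℝ, E) x)]
  [IsRiemannianManifold 𝓘(ℝ, E) X] [MeasurableSpace X] [BorelSpace X]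

/-- charts are bi-Lipschitz near the base point, so `vol` is comparable with the Lebesgue measure
in the chart; the derivatives of the chart and of its inverse are bounded. -/
theorem chart_compare [MeasurableSpace E] [BorelSpace E] (x₀ : X) : ∃ r : ℝ, 0 < r ∧ ∃ K : ℝ≥0, 0 < K ∧
    Metric.closedBall (ch E x₀ x₀) r ⊆ (ch E x₀).target ∧
    (∀ s : Set X, s ⊆ (ch E x₀).symm '' Metric.ball (ch E x₀ x₀) r →
      vol E X s ≤ K * volume (ch E x₀ '' s) ∧ volume (ch E x₀ '' s) ≤ K * vol E X s) ∧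
    (∀ y ∈ (ch E x₀).symm '' Metric.ball (ch E x₀ x₀) r, ∀ v : TangentSpace 𝓘(ℝ, E) y,
      ‖(mfderiv 𝓘(ℝ, E) 𝓘(ℝ, E) (ch E x₀) y v : E)‖ ≤ K * ‖v‖) ∧
    (∀ z ∈ Metric.ball (ch E x₀ x₀) r, ∀ v : E,
      ‖(mfderiv 𝓘(ℝ, E) 𝓘(ℝ, E) (ch E x₀).symm z v :
        TangentSpace 𝓘(ℝ, E) ((ch E x₀).symm z))‖ ≤ K * ‖v‖) := by
  obtain ⟨ρ, hρ, C, hC0, ht, h1, h2⟩ := exists_radius (E := E) x₀
  obtain ⟨κ, hκ0, hκ⟩ := hausdorff_eq_smul E
  have L1 := ch_lip x₀ hρ hC0 ht h1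
  have L2 := symm_lip x₀ ht h2
  have hsub : Metric.ball (ch E x₀ x₀) (ρ / 3) ⊆ Metric.closedBall (ch E x₀ x₀) (ρ / 3) :=
    Metric.ball_subset_closedBall
  have hsub' : Metric.closedBall (ch E x₀ x₀) (ρ / 3) ⊆ Metric.closedBall (ch E x₀ x₀) ρ :=
    Metric.closedBall_subset_closedBall (by linarith)
  set n := Module.finrank ℝ E with hn
  set K : ℝ≥0 := C + (C ^ n * κ + C ^ n * κ⁻¹) with hK
  have hCK : C ≤ K := le_self_add
  have hK1 : C ^ n * κ ≤ K := le_trans le_self_add le_add_self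
  have hK2 : C ^ n * κ⁻¹ ≤ K := le_trans le_add_self le_add_self
  refine ⟨ρ / 3, by positivity, K, by positivity, hsub'.trans ht, ?_, ?_, ?_⟩
  · intro s hs
    have hms : MapsTo (ch E x₀) s (Metric.closedBall (ch E x₀ x₀) (ρ / 3)) := by
      intro y hy
      obtain ⟨z, hz, rfl⟩ := hs hy
      rw [(ch E x₀).right_inv (ht (hsub' (hsub hz)))]
      exact hsub hz
    have hss : (ch E x₀).symm '' (ch E x₀ '' s) = s := by
      rw [← image_comp]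
      have : ∀ y ∈ s, ((ch E x₀).symm ∘ ch E x₀) y = y := by
        intro y hy
        obtain ⟨z, hz, rfl⟩ := hs hy
        exact (ch E x₀).left_inv ((ch E x₀).map_target (ht (hsub' (hsub hz))))
      rw [image_congr this]
      simp
    constructor
    · have h3 : LipschitzOnWith C (ch E x₀).symm (ch E x₀ '' s) :=
        L2.mono (by
          rintro _ ⟨y, hy, rfl⟩
          exact hsub' (hms hy))
      have h4 := h3.hausdorffMeasure_image_le (d := (n : ℝ)) (by positivity)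
      rw [hss] at h4
      rw [hκ] at h4
      calc vol E X s ≤ (C : ℝ≥0∞) ^ (n : ℝ) * (κ • (volume : Measure E)) (ch E x₀ '' s) := h4
        _ = ((C ^ n * κ : ℝ≥0) : ℝ≥0∞) * volume (ch E x₀ '' s) := by
          rw [Measure.smul_apply, ENNReal.smul_def, smul_eq_mul, ← mul_assoc, ENNReal.rpow_natCast]
          push_cast
          rfl
        _ ≤ K * volume (ch E x₀ '' s) := by
          gcongr
    · have h3 : LipschitzOnWith C (ch E x₀) s :=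
        L1.mono (hs.trans (image_mono hsub))
      have h4 := h3.hausdorffMeasure_image_le (d := (n : ℝ)) (by positivity)
      rw [hκ, Measure.smul_apply, ENNReal.smul_def, smul_eq_mul, ENNReal.rpow_natCast] at h4
      have hκ1 : ((κ⁻¹ : ℝ≥0) : ℝ≥0∞) * (κ : ℝ≥0∞) = 1 := by
        rw [← ENNReal.coe_mul, inv_mul_cancel₀ hκ0.ne', ENNReal.coe_one]
      calc volume (ch E x₀ '' s)
          = ((κ⁻¹ : ℝ≥0) : ℝ≥0∞) * ((κ : ℝ≥0∞) * volume (ch E x₀ '' s)) := by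
            rw [← mul_assoc, hκ1, one_mul]
        _ ≤ ((κ⁻¹ : ℝ≥0) : ℝ≥0∞) * ((C : ℝ≥0∞) ^ n * vol E X s) := by
            exact mul_le_mul_right h4 _
        _ = ((C ^ n * κ⁻¹ : ℝ≥0) : ℝ≥0∞) * vol E X s := by
            push_cast
            ring
        _ ≤ K * vol E X s := by
            gcongr
  · rintro _ ⟨z, hz, rfl⟩ v
    rw [norm_tangentSpace_vectorSpace]
    refine (norm_ch_le x₀ (h1 z (hsub' (hsub hz))) v _ rfl).trans ?_
    apply mul_le_mul_of_nonneg_right _ (norm_nonneg v)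
    exact_mod_cast hCK
  · intro z hz v
    refine (norm_symm_le x₀ (h2 z (hsub' (hsub hz))) v).trans ?_
    apply mul_le_mul_of_nonneg_right _ (norm_nonneg v)
    exact_mod_cast hCK

omit [IsRiemannianManifold 𝓘(ℝ, E) X] [MeasurableSpace X] [BorelSpace X] in
theorem symm_image_nhds (x₀ : X) {r : ℝ} (hr : 0 < r)
    (ht : Metric.ball (ch E x₀ x₀) r ⊆ (ch E x₀).target) :
    (ch E x₀).symm '' Metric.ball (ch E x₀ x₀) r ∈ 𝓝 x₀ :=
  (symm_image_open x₀ ht).mem_nhds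
    ⟨ch E x₀ x₀, Metric.mem_ball_self hr, extChartAt_to_inv (I := 𝓘(ℝ, E)) x₀⟩

instance isFiniteMeasureOnCompacts_vol : IsFiniteMeasureOnCompacts (vol E X) := by
  borelize E
  have : IsLocallyFiniteMeasure (vol E X) := by
    refine ⟨fun x₀ => ?_⟩
    obtain ⟨r, hr, K, hK, ht, hm, -, -⟩ := chart_compare (E := E) x₀
    refine ⟨_, symm_image_nhds x₀ hr (Metric.ball_subset_closedBall.trans ht), ?_⟩
    refine (hm _ subset_rfl).1.trans_lt (ENNReal.mul_lt_top ENNReal.coe_lt_top ?_)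
    refine (measure_mono ?_).trans_lt (measure_ball_lt_top (x := ch E x₀ x₀) (r := r))
    rintro _ ⟨_, ⟨z, hz, rfl⟩, rfl⟩
    rw [(ch E x₀).right_inv (ht (Metric.ball_subset_closedBall hz))]
    exact hz
  infer_instance

theorem isOpenPosMeasure_vol : (vol E X).IsOpenPosMeasure := by
  borelize E
  refine ⟨fun U hU ⟨x₀, hx₀⟩ h0 => ?_⟩
  obtain ⟨r, hr, K, hK, ht, hm, -, -⟩ := chart_compare (E := E) x₀
  have htb : Metric.ball (ch E x₀ x₀) r ⊆ (ch E x₀).target :=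
    Metric.ball_subset_closedBall.trans ht
  set s : Set X := U ∩ (ch E x₀).symm '' Metric.ball (ch E x₀ x₀) r with hs
  have h1 := (hm s inter_subset_right).2
  have h2 : vol E X s = 0 := measure_mono_null inter_subset_left h0
  rw [h2, mul_zero] at h1
  have h3 : ch E x₀ '' s = Metric.ball (ch E x₀ x₀) r ∩ (ch E x₀).symm ⁻¹' U := by
    ext z
    constructor
    · rintro ⟨_, ⟨hy, ⟨w, hw, rfl⟩⟩, rfl⟩
      rw [(ch E x₀).right_inv (htb hw)]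
      exact ⟨hw, hy⟩
    · rintro ⟨hz, hy⟩
      exact ⟨(ch E x₀).symm z, ⟨hy, z, hz, rfl⟩, (ch E x₀).right_inv (htb hz)⟩
  have h4 : IsOpen (ch E x₀ '' s) := by
    rw [h3]
    exact ((continuousOn_extChartAt_symm x₀).mono htb).isOpen_inter_preimage Metric.isOpen_ball hU
  have h5 : (ch E x₀ '' s).Nonempty := by
    refine ⟨ch E x₀ x₀, ?_⟩
    rw [h3]
    refine ⟨Metric.mem_ball_self hr, ?_⟩
    rw [mem_preimage, extChartAt_to_inv]
    exact hx₀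
  exact absurd (le_antisymm h1 bot_le) (h4.measure_pos volume h5).ne'

omit [IsContMDiffRiemannianBundle 𝓘(ℝ, E) ∞ E (fun x : X => TangentSpace 𝓘(ℝ, E) x)]
  [MeasurableSpace X] [BorelSpace X] in
/-- a `C¹` map whose derivatives preserve the norm does not increase distances. -/
theorem edist_map_le (g : X → X) (hg : ContMDiff 𝓘(ℝ, E) 𝓘(ℝ, E) ∞ g)
    (hi : ∀ (x : X) (v : TangentSpace 𝓘(ℝ, E) x), ‖mfderiv 𝓘(ℝ, E) 𝓘(ℝ, E) g x v‖ = ‖v‖) (x y : X) :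
    edist (g x) (g y) ≤ edist x y := by
  rw [IsRiemannianManifold.out (I := 𝓘(ℝ, E)), IsRiemannianManifold.out (I := 𝓘(ℝ, E)) x y]
  refine le_of_forall_gt fun r hr => ?_
  obtain ⟨γ, hγ0, hγ1, hγs, hγl, -⟩ :=
    exists_lt_locally_constant_of_riemannianEDist_lt hr zero_lt_one
  have hg1 : ContMDiff 𝓘(ℝ, E) 𝓘(ℝ, E) 1 g := hg.of_le (by norm_cast)
  have h1 : riemannianEDist 𝓘(ℝ, E) (g x) (g y) ≤ pathELength 𝓘(ℝ, E) (g ∘ γ) 0 1 := by
    apply riemannianEDist_le_pathELength _ _ _ zero_le_one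
    · exact (hg1.comp hγs).contMDiffOn
    · simp [hγ0]
    · simp [hγ1]
  refine h1.trans_lt (lt_of_eq_of_lt ?_ hγl)
  rw [pathELength_eq_lintegral_mfderiv_Icc, pathELength_eq_lintegral_mfderiv_Icc]
  refine lintegral_congr fun t => ?_
  rw [mfderiv_comp (I' := 𝓘(ℝ, E)) t (hg1.mdifferentiable one_ne_zero _)
    (hγs.mdifferentiable one_ne_zero _)]
  have h2 := hi (γ t) (mfderiv 𝓘(ℝ, ℝ) 𝓘(ℝ, E) γ t 1)
  rw [← ofReal_norm, ← ofReal_norm]
  exact congrArg ENNReal.ofReal h2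

omit [IsManifold 𝓘(ℝ, E) ∞ X] [IsContMDiffRiemannianBundle 𝓘(ℝ, E) ∞ E
    (fun x : X => TangentSpace 𝓘(ℝ, E) x)]
  [IsRiemannianManifold 𝓘(ℝ, E) X] [MeasurableSpace X] [BorelSpace X] in
theorem norm_transport {a b : X} (hab : a = b) (v : TangentSpace 𝓘(ℝ, E) a)
    (w : TangentSpace 𝓘(ℝ, E) b) (h : @Eq E v w) : ‖v‖ = ‖w‖ := by
  subst hab
  exact congrArg (fun u : TangentSpace 𝓘(ℝ, E) a => ‖u‖) h

/-- a smooth map with a smooth inverse whose derivatives preserve the norm preserves `vol`. -/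
theorem measurePreserving_vol (g : X ≃ X) (hg : ContMDiff 𝓘(ℝ, E) 𝓘(ℝ, E) ∞ g)
    (hg' : ContMDiff 𝓘(ℝ, E) 𝓘(ℝ, E) ∞ g.symm)
    (hi : ∀ (x : X) (v : TangentSpace 𝓘(ℝ, E) x), ‖mfderiv 𝓘(ℝ, E) 𝓘(ℝ, E) g x v‖ = ‖v‖) :
    MeasurePreserving g (vol E X) (vol E X) := by
  have hi' : ∀ (x : X) (v : TangentSpace 𝓘(ℝ, E) x),
      ‖mfderiv 𝓘(ℝ, E) 𝓘(ℝ, E) g.symm x v‖ = ‖v‖ := by
    intro x v
    have hg1 : MDifferentiable 𝓘(ℝ, E) 𝓘(ℝ, E) g := hg.mdifferentiable (by simp)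
    have hg2 : MDifferentiable 𝓘(ℝ, E) 𝓘(ℝ, E) g.symm := hg'.mdifferentiable (by simp)
    have h1 := mfderiv_comp (I' := 𝓘(ℝ, E)) x (hg1 (g.symm x)) (hg2 x)
    have h2 : (g : X → X) ∘ g.symm = id := by
      funext y
      simp
    rw [h2, mfderiv_id] at h1
    have h3 := hi (g.symm x) (mfderiv 𝓘(ℝ, E) 𝓘(ℝ, E) g.symm x v)
    rw [← h3]
    have h4 : @Eq E v (mfderiv 𝓘(ℝ, E) 𝓘(ℝ, E) g (g.symm x)
        (mfderiv 𝓘(ℝ, E) 𝓘(ℝ, E) g.symm x v)) := congr($h1 v)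
    exact norm_transport (g.apply_symm_apply x) _ _ h4.symm
  let e : X ≃ᵢ X := IsometryEquiv.mk g (by
    intro x y
    refine le_antisymm (edist_map_le g hg hi x y) ?_
    have := edist_map_le g.symm hg' hi' (g x) (g y)
    simpa using this)
  exact e.measurePreserving_hausdorffMeasure (Module.finrank ℝ E : ℝ)

end A3

end Pool.Agent.ZSp
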