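import Pool.Agent.Work.MP_058ed1_gt.G.Defs

/-!
# Cell ZI, module A2: the pointwise inner product of forms
-/

open scoped Manifold ContDiff Topology Bundle ENNReal NNReal
open Set MeasureTheory Bundle

set_option linter.unusedSectionVars false

noncomputable section

namespace Pool.Agent.ZSp

section A2

variable {V W : Type*} [NormedAddCommGroup V] [InnerProductSpace ℝ V] [FiniteDimensional ℝ V]
  [NormedAddCommGroup W] [InnerProductSpace ℝ W] [FiniteDimensional ℝ W] {p : ℕ}

omit [FiniteDimensional ℝ V] in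
/-- expansion of an alternating map in a family. -/
theorem alt_expand {ι κ : Type*} [Fintype κ] (α : V [⋀^Fin p]→L[ℝ] ℝ) (e : κ → V)
    (b : ι → V) (P : κ → ι → ℝ) (hb : ∀ i, b i = ∑ k, P k i • e k) (i : Fin p → ι) :
    α (fun k => b (i k)) = ∑ r : Fin p → κ, (∏ k, P (r k) (i k)) * α (fun k => e (r k)) := by
  classical
  have h1 : (fun k => b (i k)) = fun k => ∑ j, P j (i k) • e j := by
    funext k; exact hb (i k)
  rw [h1]
  have h2 := (α.toAlternatingMap.toMultilinearMap).map_sum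
    (g := fun (k : Fin p) (j : κ) => P j (i k) • e j)
  have h3 : α (fun k => ∑ j, P j (i k) • e j)
      = ∑ r : Fin p → κ, α (fun k => P (r k) (i k) • e (r k)) := h2
  rw [h3]
  refine Finset.sum_congr rfl fun r _ => ?_
  have h4 := (α.toAlternatingMap.toMultilinearMap).map_smul_univ
    (fun k => P (r k) (i k)) (fun k => e (r k))
  exact h4

omit [FiniteDimensional ℝ V] in
/-- change of the family in the sum defining the inner product. -/
theorem sum_change {ι κ : Type*} [Fintype ι] [Fintype κ] (α β : V [⋀^Fin p]→L[ℝ] ℝ) (e : κ → V)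
    (b : ι → V) (P : κ → ι → ℝ) (hb : ∀ i, b i = ∑ k, P k i • e k) :
    ∑ i : Fin p → ι, α (fun k => b (i k)) * β (fun k => b (i k)) =
      ∑ r : Fin p → κ, ∑ s : Fin p → κ,
        (∏ k, ∑ i, P (r k) i * P (s k) i) *
          (α (fun k => e (r k)) * β (fun k => e (s k))) := by
  classical
  have h1 : ∀ r s : Fin p → κ, (∏ k, ∑ i, P (r k) i * P (s k) i)
      = ∑ i : Fin p → ι, (∏ k, P (r k) (i k)) * (∏ k, P (s k) (i k)) := by
    intro r s
    rw [Finset.prod_univ_sum, Fintype.piFinset_univ]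
    refine Finset.sum_congr rfl fun i _ => ?_
    rw [Finset.prod_mul_distrib]
  have h2 : ∀ i : Fin p → ι, α (fun k => b (i k)) * β (fun k => b (i k))
      = ∑ r : Fin p → κ, ∑ s : Fin p → κ, ((∏ k, P (r k) (i k)) * (∏ k, P (s k) (i k))) *
        (α (fun k => e (r k)) * β (fun k => e (s k))) := by
    intro i
    rw [alt_expand α e b P hb i, alt_expand β e b P hb i, Finset.sum_mul_sum]
    refine Finset.sum_congr rfl fun r _ => Finset.sum_congr rfl fun s _ => ?_
    ring
  calc ∑ i : Fin p → ι, α (fun k => b (i k)) * β (fun k => b (i k))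
      = ∑ i : Fin p → ι, ∑ r : Fin p → κ, ∑ s : Fin p → κ,
          ((∏ k, P (r k) (i k)) * (∏ k, P (s k) (i k))) *
          (α (fun k => e (r k)) * β (fun k => e (s k))) :=
        Finset.sum_congr rfl fun i _ => h2 i
    _ = ∑ r : Fin p → κ, ∑ i : Fin p → ι, ∑ s : Fin p → κ,
          ((∏ k, P (r k) (i k)) * (∏ k, P (s k) (i k))) *
          (α (fun k => e (r k)) * β (fun k => e (s k))) := Finset.sum_comm
    _ = _ := by
        refine Finset.sum_congr rfl fun r _ => ?_
        rw [Finset.sum_comm]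
        refine Finset.sum_congr rfl fun s _ => ?_
        rw [h1 r s, Finset.sum_mul]

theorem ainner_comm (α β : V [⋀^Fin p]→L[ℝ] ℝ) : ainner α β = ainner β α := by
  unfold ainner
  congr 1
  refine Finset.sum_congr rfl fun i _ => ?_
  exact mul_comm _ _

theorem ainner_add_left (α β γ : V [⋀^Fin p]→L[ℝ] ℝ) :
    ainner (α + β) γ = ainner α γ + ainner β γ := by
  unfold ainner
  rw [← mul_add, ← Finset.sum_add_distrib]
  congr 1
  refine Finset.sum_congr rfl fun i _ => ?_
  rw [ContinuousAlternatingMap.add_apply, add_mul]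

theorem ainner_smul_left (r : ℝ) (α β : V [⋀^Fin p]→L[ℝ] ℝ) :
    ainner (r • α) β = r * ainner α β := by
  have h : ∑ i : Fin p → Fin (Module.finrank ℝ V),
      (r • α) (fun k => stdOrthonormalBasis ℝ V (i k)) *
        β (fun k => stdOrthonormalBasis ℝ V (i k)) =
      r * ∑ i : Fin p → Fin (Module.finrank ℝ V),
        α (fun k => stdOrthonormalBasis ℝ V (i k)) *
          β (fun k => stdOrthonormalBasis ℝ V (i k)) := by
    rw [Finset.mul_sum]
    refine Finset.sum_congr rfl fun i _ => ?_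
    rw [ContinuousAlternatingMap.smul_apply, smul_eq_mul, mul_assoc]
  unfold ainner
  rw [h, mul_left_comm]

theorem ainner_self_nonneg (α : V [⋀^Fin p]→L[ℝ] ℝ) : 0 ≤ ainner α α := by
  unfold ainner
  apply mul_nonneg
  · positivity
  · refine Finset.sum_nonneg fun i _ => ?_
    exact mul_self_nonneg (α (fun k => stdOrthonormalBasis ℝ V (i k)))

/-- independence of the orthonormal basis. -/
theorem ainner_eq {ι : Type*} [Fintype ι] (b : OrthonormalBasis ι ℝ V)
    (α β : V [⋀^Fin p]→L[ℝ] ℝ) :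
    ainner α β = ((p.factorial : ℝ))⁻¹ * ∑ i : Fin p → ι,
      α (fun k => b (i k)) * β (fun k => b (i k)) := by
  classical
  unfold ainner
  congr 1
  set e := stdOrthonormalBasis ℝ V with he
  have hb : ∀ i, b i = ∑ k, inner ℝ (e k) (b i) • e k := fun i => (e.sum_repr' (b i)).symm
  rw [sum_change α β e b (fun k i => inner ℝ (e k) (b i)) hb]
  have h1 : ∀ k l, ∑ i, inner ℝ (e k) (b i) * inner ℝ (e l) (b i) = if k = l then (1 : ℝ) else 0 := by
    intro k l
    have := b.sum_inner_mul_inner (e k) (e l)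
    have h2 : ∑ i, inner ℝ (e k) (b i) * inner ℝ (e l) (b i) = inner ℝ (e k) (e l) := by
      rw [← this]
      refine Finset.sum_congr rfl fun i _ => ?_
      rw [real_inner_comm (b i) (e l)]
    rw [h2]
    exact orthonormal_iff_ite.1 e.orthonormal k l
  simp only [h1]
  have h3 : ∀ r s : Fin p → Fin (Module.finrank ℝ V),
      (∏ k, if r k = s k then (1 : ℝ) else 0) = if r = s then 1 else 0 := by
    intro r s
    rw [Finset.prod_ite_zero]
    simp [funext_iff]
  simp only [h3]
  refine Finset.sum_congr rfl fun r _ => ?_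
  rw [Finset.sum_eq_single r]
  · simp
  · intro s _ hs
    rw [if_neg (Ne.symm hs), zero_mul]
  · simp

/-- invariance under a norm preserving linear map between spaces of the same dimension. -/
theorem ainner_comp (L : V →L[ℝ] W) (hL : ∀ v, ‖L v‖ = ‖v‖)
    (hd : Module.finrank ℝ V = Module.finrank ℝ W) (α β : W [⋀^Fin p]→L[ℝ] ℝ) :
    ainner (α.compContinuousLinearMap L) (β.compContinuousLinearMap L) = ainner α β := by
  let Li : V →ₗᵢ[ℝ] W := ⟨L.toLinearMap, hL⟩
  let Le : V ≃ₗᵢ[ℝ] W := Li.toLinearIsometryEquiv hd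
  have hLe : ∀ v, Le v = L v := fun v => rfl
  rw [ainner_eq ((stdOrthonormalBasis ℝ V).map Le) α β, ainner_eq (stdOrthonormalBasis ℝ V)]
  congr 1

/-- for `0`-forms. -/
theorem ainner_zero_form (a b : ℝ) :
    ainner (ContinuousAlternatingMap.constOfIsEmpty ℝ V (Fin 0) a)
      (ContinuousAlternatingMap.constOfIsEmpty ℝ V (Fin 0) b) = a * b := by
  unfold ainner
  simp

/-- for `1`-forms: the norm dominates the values. -/
theorem sq_apply_le_ainner (α : V [⋀^Fin 1]→L[ℝ] ℝ) (v : Fin 1 → V) :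
    (α v) ^ 2 ≤ ainner α α * ‖v 0‖ ^ 2 := by
  classical
  set e := stdOrthonormalBasis ℝ V with he
  have hb : ∀ i : Unit, v 0 = ∑ k, inner ℝ (e k) (v 0) • e k := fun i => (e.sum_repr' (v 0)).symm
  have h1 := alt_expand α e (fun _ : Unit => v 0) (fun k _ => inner ℝ (e k) (v 0)) hb (fun _ => ())
  have h2 : (fun _ : Fin 1 => v 0) = v := by
    funext k
    rw [Subsingleton.elim k 0]
  rw [h2] at h1
  have h3 : ‖v 0‖ ^ 2 = ∑ r : Fin 1 → Fin (Module.finrank ℝ V), (∏ k, inner ℝ (e (r k)) (v 0)) ^ 2 := by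
    have h4 := e.sum_sq_norm_inner_right (v 0)
    rw [← h4]
    rw [← (Equiv.funUnique (Fin 1) (Fin (Module.finrank ℝ V))).sum_comp]
    refine Finset.sum_congr rfl fun r _ => ?_
    simp
  have h5 : ainner α α = ∑ r : Fin 1 → Fin (Module.finrank ℝ V), (α (fun k => e (r k))) ^ 2 := by
    unfold ainner
    simp [sq]
    rfl
  rw [h1, h3, h5, mul_comm]
  exact Finset.sum_mul_sq_le_sq_mul_sq _ _ _

/-- the pointwise product in a frame with Gram matrix `G`. -/
theorem ainner_frame {E : Type*} [NormedAddCommGroup E] [InnerProductSpace ℝ E] {n : ℕ}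
    (bE : OrthonormalBasis (Fin n) ℝ E) (D : E →L[ℝ] V) (hD : Function.Surjective D)
    (hn : Module.finrank ℝ V = n) (α β : V [⋀^Fin p]→L[ℝ] ℝ) (G : Matrix (Fin n) (Fin n) ℝ)
    (hG : ∀ k l, G k l = inner ℝ (D (bE k)) (D (bE l))) :
    G.det ≠ 0 ∧ ainner α β = ((p.factorial : ℝ))⁻¹ * ∑ r : Fin p → Fin n, ∑ s : Fin p → Fin n,
      (∏ k, G⁻¹ (r k) (s k)) *
        (α.compContinuousLinearMap D (fun k => bE (r k)) *
          β.compContinuousLinearMap D (fun k => bE (s k))) := by
  classical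
  set b : OrthonormalBasis (Fin n) ℝ V :=
    (stdOrthonormalBasis ℝ V).reindex (finCongr hn) with hb
  choose A hA using fun i => hD (b i)
  set P : Matrix (Fin n) (Fin n) ℝ := fun k i => bE.repr (A i) k with hP
  have hbe : ∀ i, b i = ∑ k, P k i • D (bE k) := by
    intro i
    have h1 : A i = ∑ k, bE.repr (A i) k • bE k := (bE.sum_repr (A i)).symm
    conv_lhs => rw [← hA i, h1]
    rw [map_sum]
    refine Finset.sum_congr rfl fun k _ => ?_
    rw [map_smul]
  have hPG : P.transpose * G * P = 1 := by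
    ext i j
    have h2 : inner ℝ (b i) (b j) = (1 : Matrix (Fin n) (Fin n) ℝ) i j := by
      rw [Matrix.one_apply]
      exact orthonormal_iff_ite.1 b.orthonormal i j
    rw [← h2, Matrix.mul_apply]
    simp only [Matrix.mul_apply, Matrix.transpose_apply]
    rw [hbe i, hbe j, inner_sum]
    refine Finset.sum_congr rfl fun l _ => ?_
    rw [sum_inner, Finset.sum_mul]
    refine Finset.sum_congr rfl fun k _ => ?_
    rw [real_inner_smul_left, real_inner_smul_right, hG]
    ring
  have h3 : P * P.transpose * G = 1 := by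
    rw [Matrix.mul_assoc]
    exact mul_eq_one_comm.1 hPG
  have h4 : G⁻¹ = P * P.transpose := Matrix.inv_eq_left_inv h3
  have h5 : G.det ≠ 0 := by
    intro h0
    have := congrArg Matrix.det h3
    rw [Matrix.det_mul, h0, mul_zero, Matrix.det_one] at this
    exact zero_ne_one this
  refine ⟨h5, ?_⟩
  rw [ainner_eq b, sum_change α β _ b P hbe]
  congr 1
  refine Finset.sum_congr rfl fun r _ => Finset.sum_congr rfl fun s _ => ?_
  congr 1
  rw [h4]
  rfl

end A2

section A2cont

variable {E : Type*} [NormedAddCommGroup E] [InnerProductSpace ℝ E] [FiniteDimensional ℝ E]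
  {X : Type*} [EMetricSpace X] [ChartedSpace E X]
  [IsManifold 𝓘(ℝ, E) ∞ X] {p : ℕ}

theorem mfderiv_ch_symm_surjective (x₀ : X) {y : E} (hy : y ∈ (ch E x₀).target) :
    Function.Surjective (mfderiv 𝓘(ℝ, E) 𝓘(ℝ, E) (ch E x₀).symm y) := by
  have h := isInvertible_mfderivWithin_extChartAt_symm (I := 𝓘(ℝ, E)) (x := x₀) hy
  have hr : range 𝓘(ℝ, E) = univ := by simp
  rw [hr, mfderivWithin_univ] at h
  exact h.bijective.surjective

theorem continuousOn_frame (x₀ : X) (v : E) :
    ContinuousOn (fun y : E => (⟨(ch E x₀).symm y,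
      mfderiv 𝓘(ℝ, E) 𝓘(ℝ, E) (ch E x₀).symm y v⟩ : TangentBundle 𝓘(ℝ, E) X)) (ch E x₀).target := by
  have hop : IsOpen (ch E x₀).target := isOpen_extChartAt_target (I := 𝓘(ℝ, E)) x₀
  have h1 := (contMDiffOn_extChartAt_symm (I := 𝓘(ℝ, E)) (n := 1) x₀).continuousOn_tangentMapWithin
    le_rfl hop.uniqueMDiffOn
  have h2 : Continuous (fun y : E => (⟨y, v⟩ : TangentBundle 𝓘(ℝ, E) E)) := by
    have : ContMDiff 𝓘(ℝ, E) 𝓘(ℝ, E).tangent 0
        (fun y : E => (⟨y, v⟩ : TangentBundle 𝓘(ℝ, E) E)) := by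
      intro y
      exact (contMDiffAt_vectorSpace_iff_contDiffAt (V := fun _ => v)).2 contDiffAt_const
    exact this.continuous
  have h3 := h1.comp h2.continuousOn (s := (ch E x₀).target) (fun y hy => hy)
  refine h3.congr fun y hy => ?_
  simp only [Function.comp, tangentMapWithin]
  rw [mfderivWithin_of_isOpen hop hy]

variable [RiemannianBundle (fun x : X => TangentSpace 𝓘(ℝ, E) x)]
  [IsContMDiffRiemannianBundle 𝓘(ℝ, E) ∞ E (fun x : X => TangentSpace 𝓘(ℝ, E) x)]

theorem continuousOn_gram (x₀ : X) (v w : E) :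
    ContinuousOn (fun y : E => inner ℝ
      (mfderiv 𝓘(ℝ, E) 𝓘(ℝ, E) (ch E x₀).symm y v : TangentSpace 𝓘(ℝ, E) ((ch E x₀).symm y))
      (mfderiv 𝓘(ℝ, E) 𝓘(ℝ, E) (ch E x₀).symm y w : TangentSpace 𝓘(ℝ, E) ((ch E x₀).symm y)))
      (ch E x₀).target := by
  have h : IsContMDiffRiemannianBundle 𝓘(ℝ, E) 0 E (fun x : X => TangentSpace 𝓘(ℝ, E) x) :=
    inferInstance
  have hv : ContMDiffOn 𝓘(ℝ, E) (𝓘(ℝ, E).prod 𝓘(ℝ, E)) 0 (fun y : E =>
      (⟨(ch E x₀).symm y, mfderiv 𝓘(ℝ, E) 𝓘(ℝ, E) (ch E x₀).symm y v⟩ : TangentBundle 𝓘(ℝ, E) X))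
      (ch E x₀).target := contMDiffOn_zero_iff.2 (continuousOn_frame x₀ v)
  have hw : ContMDiffOn 𝓘(ℝ, E) (𝓘(ℝ, E).prod 𝓘(ℝ, E)) 0 (fun y : E =>
      (⟨(ch E x₀).symm y, mfderiv 𝓘(ℝ, E) 𝓘(ℝ, E) (ch E x₀).symm y w⟩ : TangentBundle 𝓘(ℝ, E) X))
      (ch E x₀).target := contMDiffOn_zero_iff.2 (continuousOn_frame x₀ w)
  have key := ContMDiffOn.inner_bundle (E := fun x : X => TangentSpace 𝓘(ℝ, E) x) (F := E)
    (IB := 𝓘(ℝ, E)) (IM := 𝓘(ℝ, E)) (n := 0) (b := fun y : E => (ch E x₀).symm y)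
    (v := fun y => mfderiv 𝓘(ℝ, E) 𝓘(ℝ, E) (ch E x₀).symm y v)
    (w := fun y => mfderiv 𝓘(ℝ, E) 𝓘(ℝ, E) (ch E x₀).symm y w) hv hw
  exact key.continuousOn

theorem continuousOn_pin_chart {α β : PForm E X p} (hα : SmoothForm α) (hβ : SmoothForm β)
    (x₀ : X) : ContinuousOn (fun y => pin α β ((ch E x₀).symm y)) (ch E x₀).target := by
  classical
  set n := Module.finrank ℝ E with hn0
  set bE : OrthonormalBasis (Fin n) ℝ E := stdOrthonormalBasis ℝ E
  set G : E → Matrix (Fin n) (Fin n) ℝ := fun y => Matrix.of fun k l => inner ℝ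
    (mfderiv 𝓘(ℝ, E) 𝓘(ℝ, E) (ch E x₀).symm y (bE k) :
      TangentSpace 𝓘(ℝ, E) ((ch E x₀).symm y))
    (mfderiv 𝓘(ℝ, E) 𝓘(ℝ, E) (ch E x₀).symm y (bE l) :
      TangentSpace 𝓘(ℝ, E) ((ch E x₀).symm y)) with hGdef
  have hfr : ∀ y ∈ (ch E x₀).target, (G y).det ≠ 0 ∧ pin α β ((ch E x₀).symm y) =
      ((p.factorial : ℝ))⁻¹ * ∑ r : Fin p → Fin n, ∑ s : Fin p → Fin n,
      (∏ k, (G y)⁻¹ (r k) (s k)) *
        (inChart α x₀ y (fun k => bE (r k)) *
          inChart β x₀ y (fun k => bE (s k))) := by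
    intro y hy
    have hn : Module.finrank ℝ (TangentSpace 𝓘(ℝ, E) ((ch E x₀).symm y)) = n := rfl
    exact ainner_frame (V := TangentSpace 𝓘(ℝ, E) ((ch E x₀).symm y)) bE
      (mfderiv 𝓘(ℝ, E) 𝓘(ℝ, E) (ch E x₀).symm y) (mfderiv_ch_symm_surjective x₀ hy) hn
      (α ((ch E x₀).symm y)) (β ((ch E x₀).symm y)) (G y) (fun k l => rfl)
  have hG : ContinuousOn G (ch E x₀).target := by
    rw [continuousOn_iff_continuous_domRestrict]
    exact continuous_matrix fun k l =>
      continuousOn_iff_continuous_domRestrict.1 (continuousOn_gram x₀ _ _)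
  have hGi : ContinuousOn (fun y => (G y)⁻¹) (ch E x₀).target := by
    have h1 : ContinuousOn (fun y => ((G y).det)⁻¹ • (G y).adjugate) (ch E x₀).target := by
      rw [continuousOn_iff_continuous_domRestrict] at hG ⊢
      have hd : Continuous (fun y : (ch E x₀).target => (G y).det) := hG.matrix_det
      have ha : Continuous (fun y : (ch E x₀).target => (G y).adjugate) := hG.matrix_adjugate
      exact (hd.inv₀ fun y => (hfr y y.2).1).smul ha
    refine h1.congr fun y hy => ?_
    simp only [Matrix.inv_def, Ring.inverse_eq_inv']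
  have hα' : ∀ r : Fin p → Fin n, ContinuousOn
      (fun y => inChart α x₀ y (fun k => bE (r k))) (ch E x₀).target := by
    intro r
    have h1 := (hα x₀).continuousOn
    exact (ContinuousAlternatingMap.apply ℝ E ℝ
      (fun k => bE (r k))).continuous.comp_continuousOn h1
  have hβ' : ∀ r : Fin p → Fin n, ContinuousOn
      (fun y => inChart β x₀ y (fun k => bE (r k))) (ch E x₀).target := by
    intro r
    have h1 := (hβ x₀).continuousOn
    exact (ContinuousAlternatingMap.apply ℝ E ℝ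
      (fun k => bE (r k))).continuous.comp_continuousOn h1
  refine ContinuousOn.congr ?_ fun y hy => (hfr y hy).2
  refine continuousOn_const.mul ?_
  refine continuousOn_finsetSum _ fun r _ => continuousOn_finsetSum _ fun s _ => ?_
  refine ContinuousOn.mul ?_ ((hα' r).mul (hβ' s))
  refine continuousOn_finsetProd _ fun k _ => ?_
  exact (continuousOn_pi.1 ((continuousOn_pi.1 hGi) (r k))) (s k)

/-- the pointwise product of two smooth forms is continuous. -/
theorem continuous_pin {α β : PForm E X p} (hα : SmoothForm α) (hβ : SmoothForm β) :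
    Continuous (pin α β) := by
  rw [continuous_iff_continuousAt]
  intro x₀
  have h1 := continuousOn_pin_chart hα hβ x₀
  have hop : IsOpen (ch E x₀).target := isOpen_extChartAt_target (I := 𝓘(ℝ, E)) x₀
  have h2 : ContinuousAt (fun y => pin α β ((ch E x₀).symm y)) (ch E x₀ x₀) :=
    h1.continuousAt (hop.mem_nhds (mem_extChartAt_target x₀))
  have h3 : ContinuousAt ((fun y => pin α β ((ch E x₀).symm y)) ∘ (ch E x₀)) x₀ :=
    h2.comp (continuousAt_extChartAt x₀)
  refine h3.congr ?_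
  filter_upwards [extChartAt_source_mem_nhds (I := 𝓘(ℝ, E)) x₀] with x hx
  simp only [Function.comp]
  rw [(ch E x₀).left_inv hx]

end A2cont

end Pool.Agent.ZSp
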