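import Pool.Agent.Work.MP_058ed1_gt.G.FormsA
import Pool.Agent.Work.MP_058ed1_gt.G.Pw
import Pool.Agent.Work.MP_058ed1_gt.G.Meas

/-!
# Cell ZI, module P: Poincaré inequality along chains
-/

open scoped Manifold ContDiff Topology Bundle ENNReal NNReal
open Set MeasureTheory Bundle

set_option linter.unusedSectionVars false

noncomputable section

namespace Pool.Agent.ZSp

section P0

variable {E : Type*} [NormedAddCommGroup E] [InnerProductSpace ℝ E] [FiniteDimensional ℝ E]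
  [MeasurableSpace E] [BorelSpace E]

namespace PoinAux

/-- scaling bound: `∫ F(a + t y) dy ≤ 2ⁿ ∫ F` for `t ≥ 1/2`. -/
theorem scale_le (F : E → ℝ≥0∞) (hF : Measurable F)
    (a : E) (t : ℝ) (ht : 1 / 2 ≤ t) :
    ∫⁻ y, F (a + t • y) ≤ ENNReal.ofReal (2 ^ Module.finrank ℝ E) * ∫⁻ y, F y := by
  have ht0 : t ≠ 0 := by linarith
  have h1 : ∫⁻ y, F (a + t • y) = ∫⁻ y, F (a + y) ∂(Measure.map (t • ·)
      (volume : Measure E)) := by
    rw [lintegral_map (f := fun y => F (a + y)) (hF.comp (measurable_const_add a))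
      (measurable_const_smul t)]
  rw [h1, Measure.map_addHaar_smul _ ht0, lintegral_smul_measure,
    lintegral_add_left_eq_self (fun y => F y) a, smul_eq_mul]
  gcongr
  rw [abs_of_nonneg (by positivity), ← inv_pow]
  apply pow_le_pow_left₀ (by positivity)
  rw [inv_le_comm₀ (by linarith) (by norm_num)]
  linarith

/-- the integrated bound for a fixed `t ∈ [0,1]`. -/
theorem scale_le2 (F : E → ℝ≥0∞) (hF : Measurable F)
    (B : Set E) (t : ℝ) :
    ∫⁻ x in B, ∫⁻ y in B, F (x + t • (y - x)) ≤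
      ENNReal.ofReal (2 ^ Module.finrank ℝ E) * volume B * ∫⁻ y, F y := by
  rcases le_total (1 / 2) t with ht | ht
  · calc ∫⁻ x in B, ∫⁻ y in B, F (x + t • (y - x))
        ≤ ∫⁻ x in B, ENNReal.ofReal (2 ^ Module.finrank ℝ E) * ∫⁻ y, F y := by
          apply lintegral_mono
          intro x
          calc ∫⁻ y in B, F (x + t • (y - x))
              ≤ ∫⁻ y, F (x + t • (y - x)) := setLIntegral_le_lintegral _ _
            _ = ∫⁻ y, F ((x - t • x) + t • y) := by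
                congr 1; funext y; congr 1; rw [smul_sub]; abel
            _ ≤ _ := scale_le F hF _ t ht
      _ = ENNReal.ofReal (2 ^ Module.finrank ℝ E) * volume B * ∫⁻ y, F y := by
          rw [lintegral_const, Measure.restrict_apply_univ]; ring
  · rw [lintegral_lintegral_swap]
    · calc ∫⁻ y in B, ∫⁻ x in B, F (x + t • (y - x))
          ≤ ∫⁻ x in B, ENNReal.ofReal (2 ^ Module.finrank ℝ E) * ∫⁻ y, F y := by
            apply lintegral_mono
            intro y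
            calc ∫⁻ x in B, F (x + t • (y - x))
                ≤ ∫⁻ x, F (x + t • (y - x)) := setLIntegral_le_lintegral _ _
              _ = ∫⁻ x, F (t • y + (1 - t) • x) := by
                  congr 1; funext x; congr 1; rw [smul_sub, sub_smul, one_smul]; abel
              _ ≤ _ := scale_le F hF _ (1 - t) (by linarith)
        _ = ENNReal.ofReal (2 ^ Module.finrank ℝ E) * volume B * ∫⁻ y, F y := by
            rw [lintegral_const, Measure.restrict_apply_univ]; ring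
    · apply Measurable.aemeasurable
      apply hF.comp
      fun_prop

/-- the fundamental theorem of calculus along a segment. -/
theorem segment_le (z : E) (r : ℝ)
    (f : E → ℝ) (hf : ContDiffOn ℝ 1 f (Metric.ball z r))
    (f' : E → ℝ)
    (hf' : ∀ y ∈ Metric.ball z r, ‖fderiv ℝ f y‖ ≤ f' y)
    {x y : E} (hx : x ∈ Metric.ball z r) (hy : y ∈ Metric.ball z r) :
    ‖f x - f y‖ₑ ≤ ∫⁻ t in Icc (0 : ℝ) 1, ENNReal.ofReal (2 * r) *
      (Metric.ball z r).indicator (fun w => ENNReal.ofReal (f' w)) (x + t • (y - x)) := by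
  have hseg : ∀ t ∈ Icc (0 : ℝ) 1, x + t • (y - x) ∈ Metric.ball z r := by
    intro t ht
    have := (convex_ball z r).add_smul_sub_mem hx hy ht
    exact this
  have hderiv : ∀ t ∈ Icc (0 : ℝ) 1, HasDerivAt (fun t : ℝ => f (x + t • (y - x)))
      (fderiv ℝ f (x + t • (y - x)) (y - x)) t := by
    intro t ht
    have h1 : DifferentiableAt ℝ f (x + t • (y - x)) :=
      (hf.differentiableOn (by norm_num)).differentiableAt (Metric.isOpen_ball.mem_nhds (hseg t ht))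
    have h2 : HasDerivAt (fun t : ℝ => x + t • (y - x)) (y - x) t := by
      have := ((hasDerivAt_id t).smul_const (y - x)).const_add x
      simpa using this
    exact h1.hasFDerivAt.comp_hasDerivAt t h2
  have hcont : ContinuousOn (fun t : ℝ => fderiv ℝ f (x + t • (y - x)) (y - x))
      (Icc (0 : ℝ) 1) := by
    have h1 : ContinuousOn (fderiv ℝ f) (Metric.ball z r) :=
      hf.continuousOn_fderiv_of_isOpen Metric.isOpen_ball (le_refl _)
    have h2 : ContinuousOn (fun t : ℝ => x + t • (y - x)) (Icc (0 : ℝ) 1) := by fun_prop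
    exact (h1.comp h2 hseg).clm_apply continuousOn_const
  have hint : IntervalIntegrable (fun t : ℝ => fderiv ℝ f (x + t • (y - x)) (y - x))
      volume 0 1 := by
    apply ContinuousOn.intervalIntegrable
    rwa [uIcc_of_le zero_le_one]
  have hftc : ∫ t in (0 : ℝ)..1, fderiv ℝ f (x + t • (y - x)) (y - x) = f y - f x := by
    rw [intervalIntegral.integral_eq_sub_of_hasDerivAt (f := fun t : ℝ => f (x + t • (y - x)))]
    · simp
    · rw [uIcc_of_le zero_le_one]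
      exact hderiv
    · exact hint
  have h3 : ‖f x - f y‖ₑ = ‖∫ t in Icc (0 : ℝ) 1, fderiv ℝ f (x + t • (y - x)) (y - x)‖ₑ := by
    rw [integral_Icc_eq_integral_Ioc, ← intervalIntegral.integral_of_le zero_le_one, hftc,
      ← enorm_neg, neg_sub]
  rw [h3]
  refine (enorm_integral_le_lintegral_enorm _).trans ?_
  apply setLIntegral_mono' measurableSet_Icc
  intro t ht
  rw [indicator_of_mem (hseg t ht), ← ofReal_norm]
  have hxy : ‖y - x‖ ≤ 2 * r := by
    have h1 : dist y z < r := hy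
    have h2 : dist x z < r := hx
    rw [← dist_eq_norm]
    have := dist_triangle_right y x z
    linarith
  have hr : 0 ≤ 2 * r := (norm_nonneg _).trans hxy
  rw [← ENNReal.ofReal_mul hr]
  apply ENNReal.ofReal_le_ofReal
  calc ‖fderiv ℝ f (x + t • (y - x)) (y - x)‖
      ≤ ‖fderiv ℝ f (x + t • (y - x))‖ * ‖y - x‖ := ContinuousLinearMap.le_opNorm _ _
    _ ≤ f' (x + t • (y - x)) * (2 * r) := by
        have h0 := hf' _ (hseg t ht)
        exact mul_le_mul h0 hxy (norm_nonneg _) ((norm_nonneg _).trans h0)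
    _ = _ := by ring

end PoinAux

open PoinAux in
/-- euclidean core: on a ball of `ℝⁿ`, for `C¹` functions. -/
theorem euclid_core (z : E) (r : ℝ) (hr : 0 < r) (f : E → ℝ)
    (hf : ContDiffOn ℝ 1 f (Metric.ball z r)) (f' : E → ℝ)
    (hf' : ∀ y ∈ Metric.ball z r, ‖fderiv ℝ f y‖ ≤ f' y) (hm : Measurable f') :
    ∫⁻ x in Metric.ball z r, ∫⁻ y in Metric.ball z r, ‖f x - f y‖ₑ ≤
      ENNReal.ofReal (2 * r * 2 ^ (Module.finrank ℝ E + 1)) * volume (Metric.ball z r) *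
        ∫⁻ y in Metric.ball z r, ENNReal.ofReal (f' y) := by
  set F : E → ℝ≥0∞ :=
    (Metric.ball z r).indicator (fun w => ENNReal.ofReal (f' w)) with hFdef
  have hFm : Measurable F := (hm.ennreal_ofReal).indicator Metric.isOpen_ball.measurableSet
  have hFint : ∫⁻ y, F y = ∫⁻ y in Metric.ball z r, ENNReal.ofReal (f' y) :=
    lintegral_indicator Metric.isOpen_ball.measurableSet _
  have hmeas3 : Measurable (fun q : (E × E) × ℝ =>
      F (q.1.1 + q.2 • (q.1.2 - q.1.1))) := hFm.comp (by fun_prop)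
  calc ∫⁻ x in Metric.ball z r, ∫⁻ y in Metric.ball z r, ‖f x - f y‖ₑ
      ≤ ∫⁻ x in Metric.ball z r, ∫⁻ y in Metric.ball z r, ∫⁻ t in Icc (0 : ℝ) 1,
          ENNReal.ofReal (2 * r) * F (x + t • (y - x)) := by
        apply setLIntegral_mono' Metric.isOpen_ball.measurableSet
        intro x hx
        apply setLIntegral_mono' Metric.isOpen_ball.measurableSet
        intro y hy
        exact segment_le z r f hf f' hf' hx hy
    _ = ∫⁻ x in Metric.ball z r, ∫⁻ t in Icc (0 : ℝ) 1, ∫⁻ y in Metric.ball z r,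
          ENNReal.ofReal (2 * r) * F (x + t • (y - x)) := by
        apply lintegral_congr
        intro x
        rw [lintegral_lintegral_swap]
        apply Measurable.aemeasurable
        apply Measurable.const_mul
        exact hFm.comp (by fun_prop)
    _ = ∫⁻ t in Icc (0 : ℝ) 1, ∫⁻ x in Metric.ball z r, ∫⁻ y in Metric.ball z r,
          ENNReal.ofReal (2 * r) * F (x + t • (y - x)) := by
        rw [lintegral_lintegral_swap]
        apply Measurable.aemeasurable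
        have h1 : Measurable (fun q : (E × ℝ) × E =>
            ENNReal.ofReal (2 * r) * F (q.1.1 + q.1.2 • (q.2 - q.1.1))) :=
          Measurable.const_mul (hFm.comp (by fun_prop)) _
        exact h1.lintegral_prod_right'
    _ ≤ ∫⁻ t in Icc (0 : ℝ) 1, ENNReal.ofReal (2 * r) *
          (ENNReal.ofReal (2 ^ Module.finrank ℝ E) * volume (Metric.ball z r) * ∫⁻ y, F y) := by
        apply lintegral_mono
        intro t
        calc ∫⁻ x in Metric.ball z r, ∫⁻ y in Metric.ball z r,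
              ENNReal.ofReal (2 * r) * F (x + t • (y - x))
            = ENNReal.ofReal (2 * r) *
              ∫⁻ x in Metric.ball z r, ∫⁻ y in Metric.ball z r, F (x + t • (y - x)) := by
              rw [← lintegral_const_mul']
              · apply lintegral_congr
                intro x
                rw [lintegral_const_mul']
                exact ENNReal.ofReal_ne_top
              · exact ENNReal.ofReal_ne_top
          _ ≤ _ := by
              exact mul_le_mul_right (scale_le2 F hFm _ t) _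
    _ = ENNReal.ofReal (2 * r) *
          (ENNReal.ofReal (2 ^ Module.finrank ℝ E) * volume (Metric.ball z r) * ∫⁻ y, F y) := by
        rw [lintegral_const, Measure.restrict_apply_univ]
        simp
    _ ≤ _ := by
        rw [hFint, ← mul_assoc, ← mul_assoc, ← ENNReal.ofReal_mul (by positivity)]
        gcongr
        · norm_num
        · omega

end P0

namespace PoinAux

section M1
variable {E : Type*} [NormedAddCommGroup E] [InnerProductSpace ℝ E] [FiniteDimensional ℝ E]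
  {X : Type*} [EMetricSpace X] [ChartedSpace E X]
  [IsManifold 𝓘(ℝ, E) ∞ X] [RiemannianBundle (fun x : X => TangentSpace 𝓘(ℝ, E) x)]
  [IsContMDiffRiemannianBundle 𝓘(ℝ, E) ∞ E (fun x : X => TangentSpace 𝓘(ℝ, E) x)]

/-- the square of the norm of the differential. -/
def gsq (E : Type*) [NormedAddCommGroup E] [InnerProductSpace ℝ E] [FiniteDimensional ℝ E]
    {X : Type*} [EMetricSpace X] [ChartedSpace E X]
    [RiemannianBundle (fun x : X => TangentSpace 𝓘(ℝ, E) x)] (f : X → ℝ) (x : X) : ℝ :=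
  pin (extD (ofFun E f)) (extD (ofFun E f)) x

theorem continuous_gsq {f : X → ℝ} (hf : ContMDiff 𝓘(ℝ, E) 𝓘(ℝ, ℝ) ∞ f) :
    Continuous (gsq E f) :=
  continuous_pin (smoothForm_ofFun hf).extD (smoothForm_ofFun hf).extD

omit [IsManifold 𝓘(ℝ, E) ∞ X]
  [IsContMDiffRiemannianBundle 𝓘(ℝ, E) ∞ E (fun x : X => TangentSpace 𝓘(ℝ, E) x)] in
theorem gsq_nonneg (f : X → ℝ) (x : X) : 0 ≤ gsq E f x := ainner_self_nonneg _

omit [RiemannianBundle (fun x : X => TangentSpace 𝓘(ℝ, E) x)]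
  [IsContMDiffRiemannianBundle 𝓘(ℝ, E) ∞ E (fun x : X => TangentSpace 𝓘(ℝ, E) x)] in
/-- the coordinate expression of a smooth function is smooth. -/
theorem contDiffOn_coord {f : X → ℝ} (hf : ContMDiff 𝓘(ℝ, E) 𝓘(ℝ, ℝ) ∞ f) (x₀ : X) :
    ContDiffOn ℝ ∞ (f ∘ (ch E x₀).symm) (ch E x₀).target := by
  rw [← contMDiffOn_iff_contDiffOn]
  exact hf.comp_contMDiffOn (contMDiffOn_extChartAt_symm x₀)

omit [IsContMDiffRiemannianBundle 𝓘(ℝ, E) ∞ E (fun x : X => TangentSpace 𝓘(ℝ, E) x)] in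
/-- the derivative of the coordinate expression. -/
theorem fderiv_coord_le {f : X → ℝ} (hf : ContMDiff 𝓘(ℝ, E) 𝓘(ℝ, ℝ) ∞ f) (x₀ : X)
    {y : E} (hy : y ∈ (ch E x₀).target) (K : ℝ) (hK : 0 ≤ K)
    (hv : ∀ v : E, ‖(mfderiv 𝓘(ℝ, E) 𝓘(ℝ, E) (ch E x₀).symm y v :
        TangentSpace 𝓘(ℝ, E) ((ch E x₀).symm y))‖ ≤ K * ‖v‖) :
    ‖fderiv ℝ (f ∘ (ch E x₀).symm) y‖ ≤ K * Real.sqrt (gsq E f ((ch E x₀).symm y)) := by
  apply ContinuousLinearMap.opNorm_le_bound _ (by positivity)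
  intro v
  have hopen : IsOpen (ch E x₀).target := isOpen_extChartAt_target x₀
  have h1 : MDifferentiableAt 𝓘(ℝ, E) 𝓘(ℝ, E) (ch E x₀).symm y :=
    ((contMDiffOn_extChartAt_symm (n := ∞) x₀).contMDiffAt
      (hopen.mem_nhds hy)).mdifferentiableAt (by norm_num)
  have h2 : MDifferentiableAt 𝓘(ℝ, E) 𝓘(ℝ, ℝ) f ((ch E x₀).symm y) :=
    (hf.mdifferentiable (by norm_num)) _
  have h3 : fderiv ℝ (f ∘ (ch E x₀).symm) y v =
      mfderiv 𝓘(ℝ, E) 𝓘(ℝ, ℝ) f ((ch E x₀).symm y)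
        (mfderiv 𝓘(ℝ, E) 𝓘(ℝ, E) (ch E x₀).symm y v) := by
    rw [← mfderiv_eq_fderiv, mfderiv_comp y h2 h1]
    rfl
  have h4 : (fderiv ℝ (f ∘ (ch E x₀).symm) y v) ^ 2 ≤
      gsq E f ((ch E x₀).symm y) * (K * ‖v‖) ^ 2 := by
    rw [h3, ← extD_ofFun_apply hf ((ch E x₀).symm y)
      (fun _ => (mfderiv 𝓘(ℝ, E) 𝓘(ℝ, E) (ch E x₀).symm y v :
        TangentSpace 𝓘(ℝ, E) ((ch E x₀).symm y)))]
    refine (sq_apply_le_ainner _ _).trans ?_
    apply mul_le_mul_of_nonneg_left _ (gsq_nonneg f _)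
    exact pow_le_pow_left₀ (norm_nonneg _) (hv v) 2
  rw [Real.norm_eq_abs, ← Real.sqrt_sq_eq_abs]
  refine (Real.sqrt_le_sqrt h4).trans ?_
  rw [Real.sqrt_mul (gsq_nonneg f _), Real.sqrt_sq (by positivity)]
  apply le_of_eq
  ring

end M1

section meas

variable {X E : Type*} [MeasurableSpace X] [MeasurableSpace E]

/-- comparison of a measure on `U` with the image of a measure under a parametrization. -/
theorem restrict_le_map {μ : Measure X} {ν : Measure E} {φ : X → E} {ψ : E → X} {U : Set X}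
    {B : Set E} (hψ : AEMeasurable ψ (ν.restrict B))
    (hBm : MeasurableSet B)
    (hφ : ∀ x ∈ U, φ x ∈ B) (hψφ : ∀ x ∈ U, ψ (φ x) = x) (K : ℝ≥0∞)
    (h : ∀ s : Set X, s ⊆ U → μ s ≤ K * ν (φ '' s)) :
    μ.restrict U ≤ K • Measure.map ψ (ν.restrict B) := by
  rw [Measure.le_iff]
  intro s hs
  rw [Measure.restrict_apply hs, Measure.smul_apply, smul_eq_mul,
    Measure.map_apply_of_aemeasurable hψ hs, Measure.restrict_apply₀' hBm.nullMeasurableSet]
  refine (h _ inter_subset_right).trans ?_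
  gcongr
  rintro _ ⟨x, hx, rfl⟩
  refine ⟨?_, hφ x hx.2⟩
  show ψ (φ x) ∈ s
  rw [hψφ x hx.2]
  exact hx.1

theorem map_le_restrict {μ : Measure X} {ν : Measure E} {φ : X → E} {ψ : E → X} {U : Set X}
    {B : Set E} (hψ : AEMeasurable ψ (ν.restrict B))
    (hBm : MeasurableSet B)
    (hψU : ∀ z ∈ B, ψ z ∈ U) (hφψ : ∀ z ∈ B, φ (ψ z) = z) (K : ℝ≥0∞)
    (h : ∀ s : Set X, s ⊆ U → ν (φ '' s) ≤ K * μ s) :
    Measure.map ψ (ν.restrict B) ≤ K • μ.restrict U := by
  rw [Measure.le_iff]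
  intro s hs
  rw [Measure.smul_apply, Measure.restrict_apply hs, smul_eq_mul,
    Measure.map_apply_of_aemeasurable hψ hs, Measure.restrict_apply₀' hBm.nullMeasurableSet]
  refine le_trans ?_ (h _ inter_subset_right)
  apply measure_mono
  rintro z ⟨hz, hzB⟩
  exact ⟨ψ z, ⟨hz, hψU z hzB⟩, hφψ z hzB⟩

end meas

section M2

variable {E : Type*} [NormedAddCommGroup E] [InnerProductSpace ℝ E] [FiniteDimensional ℝ E]
  {X : Type*} [EMetricSpace X] [ChartedSpace E X]
  [IsManifold 𝓘(ℝ, E) ∞ X] [RiemannianBundle (fun x : X => TangentSpace 𝓘(ℝ, E) x)]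
  [IsContMDiffRiemannianBundle 𝓘(ℝ, E) ∞ E (fun x : X => TangentSpace 𝓘(ℝ, E) x)]
  [IsRiemannianManifold 𝓘(ℝ, E) X] [MeasurableSpace X] [BorelSpace X]

/-- Cauchy-Schwarz in the form which is used below. -/
theorem lintegral_sqrt_le {α : Type*} [MeasurableSpace α] (ν : Measure α) (q : α → ℝ)
    (hq : ∀ x, 0 ≤ q x) (hm : AEMeasurable q ν) :
    ∫⁻ x, ENNReal.ofReal (Real.sqrt (q x)) ∂ν ≤
      (ν univ) ^ (1 / 2 : ℝ) * (∫⁻ x, ENNReal.ofReal (q x) ∂ν) ^ (1 / 2 : ℝ) := by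
  have h := ENNReal.lintegral_mul_le_Lp_mul_Lq ν (Real.HolderConjugate.two_two)
    (f := fun _ => 1) (g := fun x => ENNReal.ofReal (Real.sqrt (q x))) aemeasurable_const
    (hm.sqrt.ennreal_ofReal)
  simp only [Pi.mul_apply, one_mul, ENNReal.one_rpow, lintegral_const] at h
  refine h.trans (le_of_eq ?_)
  congr 3
  funext x
  rw [ENNReal.rpow_two, ← ENNReal.ofReal_pow (Real.sqrt_nonneg _), Real.sq_sqrt (hq x)]

/-- the local inequality, in the image of a small coordinate ball. -/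
theorem local_poincare (x₀ : X) : ∃ U : Set X, IsOpen U ∧ x₀ ∈ U ∧
    IsCompact (closure U) ∧ ∃ C : ℝ≥0, ∀ f : X → ℝ, ContMDiff 𝓘(ℝ, E) 𝓘(ℝ, ℝ) ∞ f →
      ∫⁻ x in U, ∫⁻ y in U, ‖f x - f y‖ₑ ∂(vol E X) ∂(vol E X) ≤
        C * (∫⁻ x in U, ENNReal.ofReal (gsq E f x) ∂(vol E X)) ^ (1 / 2 : ℝ) := by
  borelize E
  obtain ⟨r, hr, K, hK, hball, hmeas, -, hder⟩ := chart_compare (E := E) x₀
  set z := ch E x₀ x₀ with hz
  set B := Metric.ball z r with hB
  set U := (ch E x₀).symm '' B with hU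
  have hBt : B ⊆ (ch E x₀).target := Metric.ball_subset_closedBall.trans hball
  have hBm : MeasurableSet B := Metric.isOpen_ball.measurableSet
  have hUeq : U = (ch E x₀).source ∩ (ch E x₀) ⁻¹' B := by
    rw [hU, (ch E x₀).symm_image_eq_source_inter_preimage hBt]
  have hUo : IsOpen U := by
    rw [hUeq]
    exact (continuousOn_extChartAt x₀).isOpen_inter_preimage (isOpen_extChartAt_source x₀)
      Metric.isOpen_ball
  have hxU : x₀ ∈ U := by
    rw [hUeq]
    exact ⟨mem_extChartAt_source x₀, Metric.mem_ball_self hr⟩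
  have hKc : IsCompact ((ch E x₀).symm '' Metric.closedBall z r) :=
    (isCompact_closedBall z r).image_of_continuousOn
      ((continuousOn_extChartAt_symm x₀).mono hball)
  have hUc : IsCompact (closure U) :=
    hKc.closure_of_subset (image_mono Metric.ball_subset_closedBall)
  have hψ : AEMeasurable (ch E x₀).symm ((volume : Measure E).restrict B) :=
    ((continuousOn_extChartAt_symm x₀).mono hBt).aemeasurable hBm
  have hφB : ∀ x ∈ U, ch E x₀ x ∈ B := by
    rintro _ ⟨w, hw, rfl⟩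
    rw [(ch E x₀).right_inv (hBt hw)]
    exact hw
  have hψφ : ∀ x ∈ U, (ch E x₀).symm (ch E x₀ x) = x := by
    intro x hx
    rw [hUeq] at hx
    exact (ch E x₀).left_inv hx.1
  have hφψ : ∀ w ∈ B, ch E x₀ ((ch E x₀).symm w) = w := fun w hw =>
    (ch E x₀).right_inv (hBt hw)
  set ν := Measure.map (ch E x₀).symm ((volume : Measure E).restrict B) with hν
  have hle1 : (vol E X).restrict U ≤ K • ν :=
    restrict_le_map hψ hBm hφB hψφ K (fun s hs => (hmeas s hs).1)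
  have hle2 : ν ≤ K • (vol E X).restrict U :=
    map_le_restrict hψ hBm (fun w hw => mem_image_of_mem _ hw) hφψ K
      (fun s hs => (hmeas s hs).2)
  have hνfin : IsFiniteMeasure ν := by
    have : IsFiniteMeasure ((volume : Measure E).restrict B) :=
      ⟨by rw [Measure.restrict_apply_univ]; exact measure_ball_lt_top⟩
    exact Measure.isFiniteMeasure_map _ _
  refine ⟨U, hUo, hxU, hUc, ?_⟩
  set V := volume B with hV
  have hVtop : V ≠ ⊤ := measure_ball_lt_top.ne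
  refine ⟨K * K * (2 * r * 2 ^ (Module.finrank ℝ E + 1)).toNNReal * V.toNNReal * K * (V ^ (1 / 2 : ℝ)).toNNReal *
    ((K : ℝ≥0∞) ^ (1 / 2 : ℝ)).toNNReal, ?_⟩
  intro f hf
  have hfc : Continuous f := hf.continuous
  have hgc : Continuous (gsq E f) := continuous_gsq hf
  set g := f ∘ (ch E x₀).symm with hg
  classical
  set f' : E → ℝ := B.piecewise (fun w => K * Real.sqrt (gsq E f ((ch E x₀).symm w)))
    (fun _ => 0) with hf'
  have hf'm : Measurable f' := by
    apply ContinuousOn.measurable_piecewise _ continuousOn_const hBm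
    apply ContinuousOn.mul continuousOn_const
    exact (Real.continuous_sqrt.comp hgc).comp_continuousOn
      ((continuousOn_extChartAt_symm x₀).mono hBt)
  have hcore := euclid_core z r hr g (((contDiffOn_coord hf x₀).mono hBt).of_le (by norm_num))
    f' (by
      intro y hy
      rw [hf', piecewise_eq_of_mem _ _ _ hy]
      exact fderiv_coord_le hf x₀ (hBt hy) K K.2 (hder y hy)) hf'm
  have hm2 : Measurable (fun p : X × X => ‖f p.1 - f p.2‖ₑ) :=
    ((hfc.measurable.comp measurable_fst).sub (hfc.measurable.comp measurable_snd)).enorm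
  have hmin : Measurable (fun x : X => ∫⁻ y, ‖f x - f y‖ₑ ∂ν) :=
    hm2.lintegral_prod_right'
  have hint : ∫⁻ w in B, ENNReal.ofReal (f' w) ≤
      K * (V ^ (1 / 2 : ℝ) * ((K : ℝ≥0∞) ^ (1 / 2 : ℝ) *
        (∫⁻ x in U, ENNReal.ofReal (gsq E f x) ∂(vol E X)) ^ (1 / 2 : ℝ))) := by
    have e1 : ∫⁻ w in B, ENNReal.ofReal (f' w) =
        K * ∫⁻ w in B, ENNReal.ofReal (Real.sqrt (gsq E f ((ch E x₀).symm w))) := by
      rw [← lintegral_const_mul' _ _ ENNReal.coe_ne_top]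
      apply setLIntegral_congr_fun hBm
      intro w hw
      show ENNReal.ofReal (f' w) = _
      rw [hf', piecewise_eq_of_mem _ _ _ hw, ENNReal.ofReal_mul (NNReal.coe_nonneg K), ENNReal.ofReal_coe_nnreal]
    have e2 : ∫⁻ w in B, ENNReal.ofReal (Real.sqrt (gsq E f ((ch E x₀).symm w))) =
        ∫⁻ x, ENNReal.ofReal (Real.sqrt (gsq E f x)) ∂ν := by
      rw [hν, lintegral_map' _ hψ]
      exact (hgc.measurable.sqrt.ennreal_ofReal).aemeasurable
    have e3 : ν univ = V := by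
      rw [hν, Measure.map_apply_of_aemeasurable hψ MeasurableSet.univ, preimage_univ,
        Measure.restrict_apply_univ]
    rw [e1, e2]
    have h4 := lintegral_sqrt_le ν (gsq E f) (gsq_nonneg f) hgc.measurable.aemeasurable
    rw [e3] at h4
    have h5 : ∫⁻ x, ENNReal.ofReal (gsq E f x) ∂ν ≤
        K * ∫⁻ x in U, ENNReal.ofReal (gsq E f x) ∂(vol E X) := by
      refine (lintegral_mono' hle2 le_rfl).trans (le_of_eq ?_)
      rw [lintegral_smul_measure]
      rfl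
    gcongr
    refine h4.trans ?_
    gcongr
    rw [← ENNReal.mul_rpow_of_nonneg _ _ (by norm_num)]
    gcongr
  calc ∫⁻ x in U, ∫⁻ y in U, ‖f x - f y‖ₑ ∂(vol E X) ∂(vol E X)
      ≤ ∫⁻ x in U, K * ∫⁻ y, ‖f x - f y‖ₑ ∂ν ∂(vol E X) := by
        apply lintegral_mono
        intro x
        refine (lintegral_mono' hle1 le_rfl).trans (le_of_eq ?_)
        rw [lintegral_smul_measure]
        rfl
    _ ≤ K * ∫⁻ x, K * ∫⁻ y, ‖f x - f y‖ₑ ∂ν ∂ν := by
        refine (lintegral_mono' hle1 le_rfl).trans (le_of_eq ?_)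
        rw [lintegral_smul_measure]
        rfl
    _ = K * K * ∫⁻ x, ∫⁻ y, ‖f x - f y‖ₑ ∂ν ∂ν := by
        rw [lintegral_const_mul' _ _ ENNReal.coe_ne_top, mul_assoc]
    _ = K * K * ∫⁻ a in B, ∫⁻ b in B, ‖g a - g b‖ₑ := by
        congr 1
        rw [hν, lintegral_map' _ hψ]
        · apply lintegral_congr
          intro a
          rw [lintegral_map' _ hψ]
          · rfl
          · exact (hm2.comp (measurable_const.prodMk measurable_id)).aemeasurable
        · exact hmin.aemeasurable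
    _ ≤ K * K * (ENNReal.ofReal (2 * r * 2 ^ (Module.finrank ℝ E + 1)) * V *
          (K * (V ^ (1 / 2 : ℝ) * ((K : ℝ≥0∞) ^ (1 / 2 : ℝ) *
            (∫⁻ x in U, ENNReal.ofReal (gsq E f x) ∂(vol E X)) ^ (1 / 2 : ℝ))))) := by
        gcongr
        refine hcore.trans ?_
        gcongr
    _ = _ := by
        have h1 : ((V.toNNReal : ℝ≥0) : ℝ≥0∞) = V := ENNReal.coe_toNNReal hVtop
        have h2 : (((V ^ (1 / 2 : ℝ)).toNNReal : ℝ≥0) : ℝ≥0∞) = V ^ (1 / 2 : ℝ) :=
          ENNReal.coe_toNNReal (ENNReal.rpow_ne_top_of_nonneg (by norm_num) hVtop)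
        have h3 : ((((K : ℝ≥0∞) ^ (1 / 2 : ℝ)).toNNReal : ℝ≥0) : ℝ≥0∞) =
            (K : ℝ≥0∞) ^ (1 / 2 : ℝ) :=
          ENNReal.coe_toNNReal (ENNReal.rpow_ne_top_of_nonneg (by norm_num) ENNReal.coe_ne_top)
        have h4 : (((2 * r * 2 ^ (Module.finrank ℝ E + 1)).toNNReal : ℝ≥0) : ℝ≥0∞) =
          ENNReal.ofReal (2 * r * 2 ^ (Module.finrank ℝ E + 1)) := rfl
        rw [ENNReal.coe_mul, ENNReal.coe_mul, ENNReal.coe_mul, ENNReal.coe_mul, ENNReal.coe_mul,
          ENNReal.coe_mul, h1, h2, h3, h4]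
        ring

end M2

section M3

variable {X : Type*} [MeasurableSpace X]

/-- from a part `A` of `U` to `U`. -/
theorem mul_lintegral_le {μ : Measure X} {U A : Set X} (hAU : A ⊆ U) {f : X → ℝ}
    (hf : Measurable f) (c : ℝ) :
    μ A * ∫⁻ x in U, ‖f x - c‖ₑ ∂μ ≤
      ∫⁻ x in U, ∫⁻ y in U, ‖f x - f y‖ₑ ∂μ ∂μ + μ U * ∫⁻ y in A, ‖f y - c‖ₑ ∂μ := by
  have hm : Measurable (fun y => ‖f y - c‖ₑ) := (hf.sub_const c).enorm
  have h1 : μ A * ∫⁻ x in U, ‖f x - c‖ₑ ∂μ = ∫⁻ x in U, ∫⁻ _ in A, ‖f x - c‖ₑ ∂μ ∂μ := by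
    rw [← lintegral_const_mul _ hm]
    apply lintegral_congr
    intro x
    rw [lintegral_const, Measure.restrict_apply_univ, mul_comm]
  rw [h1]
  calc ∫⁻ x in U, ∫⁻ _ in A, ‖f x - c‖ₑ ∂μ ∂μ
      ≤ ∫⁻ x in U, ((∫⁻ y in U, ‖f x - f y‖ₑ ∂μ) + ∫⁻ y in A, ‖f y - c‖ₑ ∂μ) ∂μ := by
        apply lintegral_mono
        intro x
        have hmx : Measurable (fun y => ‖f x - f y‖ₑ) := (hf.const_sub (f x)).enorm
        calc ∫⁻ _ in A, ‖f x - c‖ₑ ∂μ
            ≤ ∫⁻ y in A, (‖f x - f y‖ₑ + ‖f y - c‖ₑ) ∂μ := by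
              apply lintegral_mono
              intro y
              have : f x - c = (f x - f y) + (f y - c) := by ring
              show ‖f x - c‖ₑ ≤ _
              rw [this]
              exact enorm_add_le _ _
          _ = (∫⁻ y in A, ‖f x - f y‖ₑ ∂μ) + ∫⁻ y in A, ‖f y - c‖ₑ ∂μ :=
              lintegral_add_left hmx _
          _ ≤ _ := add_le_add (lintegral_mono_set hAU) le_rfl
    _ = _ := by
        rw [lintegral_add_right _ measurable_const, lintegral_const, Measure.restrict_apply_univ,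
          mul_comm (μ U)]

/-- the average over a set of positive finite measure. -/
theorem enorm_average_sub_le {μ : Measure X} {A : Set X} (h0 : μ A ≠ 0) (h1 : μ A ≠ ⊤)
    {f : X → ℝ} (hf : IntegrableOn f A μ) (c : ℝ) :
    μ A * ‖(⨍ x in A, f x ∂μ) - c‖ₑ ≤ ∫⁻ x in A, ‖f x - c‖ₑ ∂μ := by
  have hfin : IsFiniteMeasure (μ.restrict A) :=
    ⟨by rw [Measure.restrict_apply_univ]; exact lt_of_le_of_ne le_top h1⟩
  have hpos : 0 < (μ A).toReal := ENNReal.toReal_pos h0 h1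
  have e1 : ∫ x in A, (f x - c) ∂μ = (μ A).toReal * ((⨍ x in A, f x ∂μ) - c) := by
    rw [integral_sub hf (integrable_const c), setAverage_eq, integral_const,
      measureReal_restrict_apply_univ, smul_eq_mul, smul_eq_mul, measureReal_def, mul_sub,
      ← mul_assoc, mul_inv_cancel₀ hpos.ne', one_mul]
  calc μ A * ‖(⨍ x in A, f x ∂μ) - c‖ₑ
      = ‖∫ x in A, (f x - c) ∂μ‖ₑ := by
        rw [e1, enorm_mul]
        congr 1
        rw [Real.enorm_of_nonneg hpos.le, ENNReal.ofReal_toReal h1]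
    _ ≤ _ := enorm_integral_le_lintegral_enorm _

end M3

section M4

variable {E : Type*} [NormedAddCommGroup E] [InnerProductSpace ℝ E] [FiniteDimensional ℝ E]
  {X : Type*} [EMetricSpace X] [ChartedSpace E X]
  [IsManifold 𝓘(ℝ, E) ∞ X] [RiemannianBundle (fun x : X => TangentSpace 𝓘(ℝ, E) x)]
  [IsContMDiffRiemannianBundle 𝓘(ℝ, E) ∞ E (fun x : X => TangentSpace 𝓘(ℝ, E) x)]
  [IsRiemannianManifold 𝓘(ℝ, E) X] [MeasurableSpace X] [BorelSpace X]

/-- on `A` the mean distance of `f` to the average over `U₀` is controlled by the gradient. -/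
def Ctl (E : Type*) [NormedAddCommGroup E] [InnerProductSpace ℝ E] [FiniteDimensional ℝ E]
    {X : Type*} [EMetricSpace X] [ChartedSpace E X]
    [RiemannianBundle (fun x : X => TangentSpace 𝓘(ℝ, E) x)] [MeasurableSpace X] [BorelSpace X]
    (U₀ A : Set X) : Prop :=
  ∃ K : Set X, IsCompact K ∧ ∃ C : ℝ≥0, ∀ f : X → ℝ, ContMDiff 𝓘(ℝ, E) 𝓘(ℝ, ℝ) ∞ f →
    ∫⁻ x in A, ‖f x - ⨍ y in U₀, f y ∂(vol E X)‖ₑ ∂(vol E X) ≤
      C * (∫⁻ x in K, ENNReal.ofReal (gsq E f x) ∂(vol E X)) ^ (1 / 2 : ℝ)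

omit [IsManifold 𝓘(ℝ, E) ∞ X]
  [IsContMDiffRiemannianBundle 𝓘(ℝ, E) ∞ E (fun x : X => TangentSpace 𝓘(ℝ, E) x)]
  [IsRiemannianManifold 𝓘(ℝ, E) X] in
theorem Ctl.mono {U₀ A A' : Set X} (h : Ctl E U₀ A) (hA : A' ⊆ A) : Ctl E U₀ A' := by
  obtain ⟨K, hK, C, hC⟩ := h
  exact ⟨K, hK, C, fun f hf => (lintegral_mono_set hA).trans (hC f hf)⟩

omit [IsManifold 𝓘(ℝ, E) ∞ X]
  [IsContMDiffRiemannianBundle 𝓘(ℝ, E) ∞ E (fun x : X => TangentSpace 𝓘(ℝ, E) x)]
  [IsRiemannianManifold 𝓘(ℝ, E) X] in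
theorem Ctl.union {U₀ A A' : Set X} (h : Ctl E U₀ A) (h' : Ctl E U₀ A') :
    Ctl E U₀ (A ∪ A') := by
  obtain ⟨K, hK, C, hC⟩ := h
  obtain ⟨K', hK', C', hC'⟩ := h'
  refine ⟨K ∪ K', hK.union hK', C + C', fun f hf => ?_⟩
  refine (lintegral_union_le _ _ _).trans ?_
  rw [ENNReal.coe_add, add_mul]
  gcongr
  · refine (hC f hf).trans ?_
    gcongr
    exact subset_union_left
  · refine (hC' f hf).trans ?_
    gcongr
    exact subset_union_right

omit [IsManifold 𝓘(ℝ, E) ∞ X]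
  [IsContMDiffRiemannianBundle 𝓘(ℝ, E) ∞ E (fun x : X => TangentSpace 𝓘(ℝ, E) x)]
  [IsRiemannianManifold 𝓘(ℝ, E) X] in
theorem Ctl.empty (U₀ : Set X) : Ctl E U₀ ∅ :=
  ⟨∅, isCompact_empty, 0, fun f hf => by simp⟩

/-- from a part of positive measure of a local domain to the whole local domain. -/
theorem Ctl.extend {U₀ A U : Set X} (hAU : A ⊆ U) (h0 : vol E X A ≠ 0) (hUc : IsCompact (closure U))
    {C : ℝ≥0} (hC : ∀ f : X → ℝ, ContMDiff 𝓘(ℝ, E) 𝓘(ℝ, ℝ) ∞ f →
      ∫⁻ x in U, ∫⁻ y in U, ‖f x - f y‖ₑ ∂(vol E X) ∂(vol E X) ≤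
        C * (∫⁻ x in U, ENNReal.ofReal (gsq E f x) ∂(vol E X)) ^ (1 / 2 : ℝ))
    (h : Ctl E U₀ A) : Ctl E U₀ U := by
  obtain ⟨K, hK, C', hC'⟩ := h
  have hUfin : vol E X U ≠ ⊤ :=
    ((measure_mono subset_closure).trans_lt (hUc.measure_lt_top)).ne
  have hAfin : vol E X A ≠ ⊤ := ((measure_mono hAU).trans_lt (lt_of_le_of_ne le_top hUfin)).ne
  refine ⟨K ∪ closure U, hK.union hUc, ((vol E X A)⁻¹).toNNReal * (C + (vol E X U).toNNReal * C'),
    fun f hf => ?_⟩
  set J := (∫⁻ x in K ∪ closure U, ENNReal.ofReal (gsq E f x) ∂(vol E X)) ^ (1 / 2 : ℝ) with hJ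
  set c := ⨍ y in U₀, f y ∂(vol E X) with hc
  have h1 : (vol E X A) * ∫⁻ x in U, ‖f x - c‖ₑ ∂(vol E X) ≤ (C + (vol E X U) * C') * J := by
    refine (mul_lintegral_le hAU hf.continuous.measurable c).trans ?_
    have j1 : ∫⁻ x in U, ∫⁻ y in U, ‖f x - f y‖ₑ ∂(vol E X) ∂(vol E X) ≤ C * J := by
      refine (hC f hf).trans ?_
      rw [hJ]
      gcongr
      exact subset_closure.trans subset_union_right
    have j2 : ∫⁻ x in A, ‖f x - c‖ₑ ∂(vol E X) ≤ C' * J := by
      refine (hC' f hf).trans ?_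
      rw [hJ]
      gcongr
      exact subset_union_left
    rw [add_mul, mul_assoc]
    gcongr
  have e1 : ((((vol E X A)⁻¹).toNNReal : ℝ≥0) : ℝ≥0∞) = (vol E X A)⁻¹ :=
    ENNReal.coe_toNNReal (ENNReal.inv_ne_top.2 h0)
  have e2 : (((vol E X U).toNNReal : ℝ≥0) : ℝ≥0∞) = vol E X U := ENNReal.coe_toNNReal hUfin
  rw [ENNReal.coe_mul, ENNReal.coe_add, ENNReal.coe_mul, e1, e2, mul_assoc]
  calc ∫⁻ x in U, ‖f x - c‖ₑ ∂(vol E X)
      = (vol E X A)⁻¹ * ((vol E X A) * ∫⁻ x in U, ‖f x - c‖ₑ ∂(vol E X)) := by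
        rw [← mul_assoc, ENNReal.inv_mul_cancel h0 hAfin, one_mul]
    _ ≤ _ := by
        gcongr

end M4

section M5

variable {E : Type*} [NormedAddCommGroup E] [InnerProductSpace ℝ E] [FiniteDimensional ℝ E]
  {X : Type*} [EMetricSpace X] [ChartedSpace E X]
  [IsManifold 𝓘(ℝ, E) ∞ X] [RiemannianBundle (fun x : X => TangentSpace 𝓘(ℝ, E) x)]
  [IsContMDiffRiemannianBundle 𝓘(ℝ, E) ∞ E (fun x : X => TangentSpace 𝓘(ℝ, E) x)]
  [IsRiemannianManifold 𝓘(ℝ, E) X] [MeasurableSpace X] [BorelSpace X]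

/-- the start of the chain. -/
theorem Ctl.self {U : Set X} (h0 : vol E X U ≠ 0) (hUc : IsCompact (closure U))
    {C : ℝ≥0} (hC : ∀ f : X → ℝ, ContMDiff 𝓘(ℝ, E) 𝓘(ℝ, ℝ) ∞ f →
      ∫⁻ x in U, ∫⁻ y in U, ‖f x - f y‖ₑ ∂(vol E X) ∂(vol E X) ≤
        C * (∫⁻ x in U, ENNReal.ofReal (gsq E f x) ∂(vol E X)) ^ (1 / 2 : ℝ)) :
    Ctl E U U := by
  have hUfin : vol E X U ≠ ⊤ :=
    ((measure_mono subset_closure).trans_lt (hUc.measure_lt_top)).ne
  refine ⟨closure U, hUc, ((vol E X U)⁻¹).toNNReal * C, fun f hf => ?_⟩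
  have hfint : IntegrableOn f U (vol E X) :=
    (hf.continuous.continuousOn.integrableOn_compact hUc).mono_set subset_closure
  have e1 : ((((vol E X U)⁻¹).toNNReal : ℝ≥0) : ℝ≥0∞) = (vol E X U)⁻¹ :=
    ENNReal.coe_toNNReal (ENNReal.inv_ne_top.2 h0)
  set c := ⨍ y in U, f y ∂(vol E X) with hc
  have hm : Measurable (fun y => ‖f y - c‖ₑ) := (hf.continuous.measurable.sub_const c).enorm
  have h1 : (vol E X U) * ∫⁻ x in U, ‖f x - c‖ₑ ∂(vol E X) ≤
      C * (∫⁻ x in closure U, ENNReal.ofReal (gsq E f x) ∂(vol E X)) ^ (1 / 2 : ℝ) := by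
    calc (vol E X U) * ∫⁻ x in U, ‖f x - c‖ₑ ∂(vol E X)
        = ∫⁻ x in U, (vol E X U) * ‖f x - c‖ₑ ∂(vol E X) := (lintegral_const_mul _ hm).symm
      _ ≤ ∫⁻ x in U, ∫⁻ y in U, ‖f x - f y‖ₑ ∂(vol E X) ∂(vol E X) := by
          apply lintegral_mono
          intro x
          have := enorm_average_sub_le h0 hUfin hfint (f x)
          calc (vol E X U) * ‖f x - c‖ₑ = (vol E X U) * ‖c - f x‖ₑ := by
                rw [← enorm_neg, neg_sub]
            _ ≤ ∫⁻ y in U, ‖f y - f x‖ₑ ∂(vol E X) := this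
            _ = ∫⁻ y in U, ‖f x - f y‖ₑ ∂(vol E X) := by
                apply lintegral_congr
                intro y
                rw [← enorm_neg, neg_sub]
      _ ≤ _ := by
          refine (hC f hf).trans ?_
          gcongr
          exact subset_closure
  rw [ENNReal.coe_mul, e1, mul_assoc]
  calc ∫⁻ x in U, ‖f x - c‖ₑ ∂(vol E X)
      = (vol E X U)⁻¹ * ((vol E X U) * ∫⁻ x in U, ‖f x - c‖ₑ ∂(vol E X)) := by
        rw [← mul_assoc, ENNReal.inv_mul_cancel h0 hUfin, one_mul]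
    _ ≤ _ := by
        gcongr

/-- all points have a controlled neighbourhood. -/
theorem exists_ctl [ConnectedSpace X] : ∃ U₀ : Set X, IsCompact (closure U₀) ∧
    vol E X U₀ ≠ 0 ∧ ∀ x : X, ∃ t ∈ 𝓝 x, Ctl E U₀ t := by
  have hpos : (vol E X).IsOpenPosMeasure := isOpenPosMeasure_vol
  have hne : Nonempty X := inferInstance
  obtain ⟨x₀⟩ := hne
  obtain ⟨U₀, hU₀o, hx₀, hU₀c, C₀, hC₀⟩ := local_poincare (E := E) x₀
  have hU₀pos : vol E X U₀ ≠ 0 := (hU₀o.measure_pos _ ⟨x₀, hx₀⟩).ne'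
  refine ⟨U₀, hU₀c, hU₀pos, ?_⟩
  set S : Set X := {x | ∃ t ∈ 𝓝 x, Ctl E U₀ t} with hS
  have hSo : IsOpen S := by
    rw [isOpen_iff_mem_nhds]
    rintro x ⟨t, ht, hct⟩
    have h1 : interior t ∈ 𝓝 x := interior_mem_nhds.2 ht
    refine Filter.mem_of_superset h1 ?_
    intro y hy
    exact ⟨t, mem_interior_iff_mem_nhds.1 hy, hct⟩
  have hSc : IsClosed S := by
    rw [← closure_subset_iff_isClosed]
    intro y hy
    obtain ⟨U, hUo, hyU, hUc, C, hC⟩ := local_poincare (E := E) y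
    obtain ⟨x, hxU, t, ht, hct⟩ := mem_closure_iff.1 hy U hUo hyU
    have hxt : x ∈ interior t := mem_interior_iff_mem_nhds.2 ht
    have hA0 : vol E X (interior t ∩ U) ≠ 0 :=
      ((isOpen_interior.inter hUo).measure_pos _ ⟨x, hxt, hxU⟩).ne'
    have hA : Ctl E U₀ (interior t ∩ U) := hct.mono (inter_subset_left.trans interior_subset)
    exact ⟨U, hUo.mem_nhds hyU, Ctl.extend inter_subset_right hA0 hUc hC hA⟩
  have hSu : S = univ :=
    IsClopen.eq_univ ⟨hSc, hSo⟩ ⟨x₀, U₀, hU₀o.mem_nhds hx₀, Ctl.self hU₀pos hU₀c hC₀⟩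
  intro x
  have : x ∈ S := by rw [hSu]; trivial
  exact this

/-- relatively compact sets are controlled. -/
theorem ctl_of_compact {U₀ : Set X} (h : ∀ x : X, ∃ t ∈ 𝓝 x, Ctl E U₀ t) {B : Set X}
    (hB : IsCompact (closure B)) : Ctl E U₀ B := by
  refine Ctl.mono ?_ subset_closure
  refine hB.induction_on (Ctl.empty U₀) (fun s t hst ht => ht.mono hst)
    (fun s t hs ht => hs.union ht) ?_
  intro x hx
  obtain ⟨t, ht, hct⟩ := h x
  exact ⟨t, mem_nhdsWithin_of_mem_nhds ht, hct⟩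

/-- real form of the estimate. -/
theorem Ctl.real {U₀ B : Set X} (hB : Ctl E U₀ B) (hc : IsCompact (closure B))
    (hp : 0 < vol E X B) : ∃ K : Set X, IsCompact K ∧ ∃ C : ℝ, 0 ≤ C ∧
      ∀ f : X → ℝ, ContMDiff 𝓘(ℝ, E) 𝓘(ℝ, ℝ) ∞ f →
      ((⨍ x in B, f x ∂(vol E X)) - (⨍ x in U₀, f x ∂(vol E X))) ^ 2 ≤
        C * ∫ x in K, gsq E f x ∂(vol E X) := by
  obtain ⟨K, hK, C, hC⟩ := hB
  have hBfin : vol E X B ≠ ⊤ :=
    ((measure_mono subset_closure).trans_lt (hc.measure_lt_top)).ne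
  set m := (vol E X B).toReal with hm
  have hmpos : 0 < m := ENNReal.toReal_pos hp.ne' hBfin
  refine ⟨K, hK, (C / m) ^ 2, by positivity, fun f hf => ?_⟩
  have hfint : IntegrableOn f B (vol E X) :=
    (hf.continuous.continuousOn.integrableOn_compact hc).mono_set subset_closure
  have hgint : IntegrableOn (gsq E f) K (vol E X) :=
    (continuous_gsq hf).continuousOn.integrableOn_compact hK
  have hI : 0 ≤ ∫ x in K, gsq E f x ∂(vol E X) := integral_nonneg (gsq_nonneg f)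
  have h1 := (enorm_average_sub_le hp.ne' hBfin hfint (⨍ y in U₀, f y ∂(vol E X))).trans
    (hC f hf)
  rw [← ofReal_integral_eq_lintegral_ofReal hgint (Filter.Eventually.of_forall (gsq_nonneg f)),
    ENNReal.ofReal_rpow_of_nonneg hI (by norm_num), ← Real.sqrt_eq_rpow,
    ← ENNReal.ofReal_toReal hBfin, ← hm, ← ENNReal.ofReal_coe_nnreal,
    ← ENNReal.ofReal_mul (NNReal.coe_nonneg C), ← ofReal_norm,
    ← ENNReal.ofReal_mul hmpos.le, ENNReal.ofReal_le_ofReal_iff (by positivity)] at h1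
  set d := (⨍ x in B, f x ∂(vol E X)) - (⨍ x in U₀, f x ∂(vol E X)) with hd
  have h2 : ‖d‖ ≤ C / m * Real.sqrt (∫ x in K, gsq E f x ∂(vol E X)) := by
    rw [div_mul_eq_mul_div, le_div_iff₀ hmpos, mul_comm]
    exact h1
  calc d ^ 2 = ‖d‖ ^ 2 := by rw [Real.norm_eq_abs, sq_abs]
    _ ≤ (C / m * Real.sqrt (∫ x in K, gsq E f x ∂(vol E X))) ^ 2 :=
        pow_le_pow_left₀ (norm_nonneg _) h2 2
    _ = _ := by rw [mul_pow, Real.sq_sqrt hI]

end M5

end PoinAux

section P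

variable {E : Type*} [NormedAddCommGroup E] [InnerProductSpace ℝ E] [FiniteDimensional ℝ E]
  {X : Type*} [EMetricSpace X] [ChartedSpace E X]
  [IsManifold 𝓘(ℝ, E) ∞ X] [RiemannianBundle (fun x : X => TangentSpace 𝓘(ℝ, E) x)]
  [IsContMDiffRiemannianBundle 𝓘(ℝ, E) ∞ E (fun x : X => TangentSpace 𝓘(ℝ, E) x)]
  [IsRiemannianManifold 𝓘(ℝ, E) X] [MeasurableSpace X] [BorelSpace X]

open PoinAux in
/-- averages over two relatively compact sets of positive measure differ by a multiple of the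
`L²` norm of the gradient over a compact set. -/
theorem poincare_chain [ConnectedSpace X] (B₁ B₂ : Set X) (hB₁ : MeasurableSet B₁)
    (hB₂ : MeasurableSet B₂) (hc₁ : IsCompact (closure B₁)) (hc₂ : IsCompact (closure B₂))
    (hp₁ : 0 < vol E X B₁) (hp₂ : 0 < vol E X B₂) :
    ∃ K : Set X, IsCompact K ∧ ∃ C : ℝ, 0 ≤ C ∧ ∀ f : X → ℝ, ContMDiff 𝓘(ℝ, E) 𝓘(ℝ, ℝ) ∞ f →
      ((⨍ x in B₁, f x ∂(vol E X)) - (⨍ x in B₂, f x ∂(vol E X))) ^ 2 ≤
        C * ∫ x in K, pin (extD (ofFun E f)) (extD (ofFun E f)) x ∂(vol E X) := by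
  obtain ⟨U₀, hU₀c, hU₀pos, hctl⟩ := exists_ctl (E := E) (X := X)
  obtain ⟨K₁, hK₁, C₁, hC₁, h₁⟩ := (ctl_of_compact hctl hc₁).real hc₁ hp₁
  obtain ⟨K₂, hK₂, C₂, hC₂, h₂⟩ := (ctl_of_compact hctl hc₂).real hc₂ hp₂
  refine ⟨K₁ ∪ K₂, hK₁.union hK₂, 2 * (C₁ + C₂), by positivity, fun f hf => ?_⟩
  have hint : IntegrableOn (gsq E f) (K₁ ∪ K₂) (vol E X) :=
    (continuous_gsq hf).continuousOn.integrableOn_compact (hK₁.union hK₂)
  have i1 : ∫ x in K₁, gsq E f x ∂(vol E X) ≤ ∫ x in K₁ ∪ K₂, gsq E f x ∂(vol E X) :=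
    setIntegral_mono_set hint (Filter.Eventually.of_forall (gsq_nonneg f))
      (subset_union_left.eventuallyLE)
  have i2 : ∫ x in K₂, gsq E f x ∂(vol E X) ≤ ∫ x in K₁ ∪ K₂, gsq E f x ∂(vol E X) :=
    setIntegral_mono_set hint (Filter.Eventually.of_forall (gsq_nonneg f))
      (subset_union_right.eventuallyLE)
  have j1 := (h₁ f hf).trans (mul_le_mul_of_nonneg_left i1 hC₁)
  have j2 := (h₂ f hf).trans (mul_le_mul_of_nonneg_left i2 hC₂)
  change _ ≤ 2 * (C₁ + C₂) * ∫ x in K₁ ∪ K₂, gsq E f x ∂(vol E X)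
  set a := ⨍ x in B₁, f x ∂(vol E X)
  set b := ⨍ x in B₂, f x ∂(vol E X)
  set c := ⨍ x in U₀, f x ∂(vol E X)
  set J := ∫ x in K₁ ∪ K₂, gsq E f x ∂(vol E X)
  nlinarith [sq_nonneg ((a - c) + (b - c))]

end P

end Pool.Agent.ZSp
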