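import Pool.Agent.Work.MP_058ed1_gt.G.Pw
import Pool.Agent.Work.MP_058ed1_gt.G.Meas

/-!
# The Hilbert space of `L²` forms, the Laplacian, zero in the spectrum
-/

open scoped Manifold ContDiff Topology Bundle ENNReal NNReal
open Set MeasureTheory Bundle

set_option linter.unusedSectionVars false

noncomputable section

namespace Pool.Agent.ZSp

variable {E : Type*} [NormedAddCommGroup E] [InnerProductSpace ℝ E] [FiniteDimensional ℝ E]
  {X : Type*} [EMetricSpace X] [ChartedSpace E X]
  [RiemannianBundle (fun x : X => TangentSpace 𝓘(ℝ, E) x)]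
  {p : ℕ}

theorem pin_comm (α β : PForm E X p) : pin α β = pin β α := by
  funext x; exact ainner_comm _ _

theorem pin_add_left (α β γ : PForm E X p) (x : X) :
    pin (α + β) γ x = pin α γ x + pin β γ x := ainner_add_left _ _ _

theorem pin_smul_left (r : ℝ) (α β : PForm E X p) (x : X) :
    pin (r • α) β x = r * pin α β x := ainner_smul_left _ _ _

theorem pin_self_nonneg (α : PForm E X p) (x : X) : 0 ≤ pin α α x := ainner_self_nonneg _

theorem pin_eq_zero {α : PForm E X p} (β : PForm E X p) {x : X} (h : α x = 0) :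
    pin α β x = 0 := by
  show ainner (α x) (β x) = 0
  rw [h]
  have := ainner_smul_left (V := TangentSpace 𝓘(ℝ, E) x) (p := p) 0 0 (β x)
  simpa using this

theorem hasCompactSupport_pin {α : PForm E X p} (hα : α ∈ OmegaC E X p) (β : PForm E X p) :
    HasCompactSupport (pin α β) := by
  refine hα.2.of_isClosed_subset isClosed_closure (closure_mono ?_)
  intro x hx h0
  exact hx (pin_eq_zero β h0)

section meas

variable [MeasurableSpace X] [BorelSpace X]

theorem l2_comm (α β : PForm E X p) : l2 α β = l2 β α := by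
  unfold l2; rw [pin_comm]

theorem l2_smul_left (r : ℝ) (α β : PForm E X p) : l2 (r • α) β = r * l2 α β := by
  unfold l2
  rw [← integral_const_mul]
  exact integral_congr_ae (Filter.Eventually.of_forall fun x => pin_smul_left r α β x)

theorem l2_self_nonneg (α : PForm E X p) : 0 ≤ l2 α α :=
  integral_nonneg (pin_self_nonneg α)

end meas

variable [IsManifold 𝓘(ℝ, E) ∞ X]
  [IsContMDiffRiemannianBundle 𝓘(ℝ, E) ∞ E (fun x : X => TangentSpace 𝓘(ℝ, E) x)]
  [IsRiemannianManifold 𝓘(ℝ, E) X] [MeasurableSpace X] [BorelSpace X]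

theorem integrable_pin {α β : PForm E X p} (hα : α ∈ OmegaC E X p) (hβ : β ∈ OmegaC E X p) :
    Integrable (pin α β) (vol E X) :=
  (continuous_pin hα.1 hβ.1).integrable_of_hasCompactSupport (hasCompactSupport_pin hα β)

theorem l2_add_left {α β γ : PForm E X p} (hα : α ∈ OmegaC E X p) (hβ : β ∈ OmegaC E X p)
    (hγ : γ ∈ OmegaC E X p) : l2 (α + β) γ = l2 α γ + l2 β γ := by
  unfold l2
  rw [← integral_add (integrable_pin hα hγ) (integrable_pin hβ hγ)]
  exact integral_congr_ae (Filter.Eventually.of_forall fun x => pin_add_left α β γ x)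

variable (E X p)

/-- `Ω_c^p(X)` as a type, with no topology but the `L²` one given below. -/
def OmC : Type _ := OmegaC E X p

instance : AddCommGroup (OmC E X p) := inferInstanceAs (AddCommGroup (OmegaC E X p))

instance : Module ℝ (OmC E X p) := inferInstanceAs (Module ℝ (OmegaC E X p))

/-- the `L²` product on `Ω_c^p(X)`. -/
@[reducible] def omCore : PreInnerProductSpace.Core ℝ (OmC E X p) where
  inner a b := l2 a.1 b.1
  conj_inner_symm a b := by simpa using l2_comm b.1 a.1
  re_inner_nonneg a := by simpa using l2_self_nonneg a.1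
  add_left a b c := l2_add_left a.2 b.2 c.2
  smul_left a b r := by
    rw [conj_trivial]
    exact l2_smul_left r a.1 b.1

instance : SeminormedAddCommGroup (OmC E X p) :=
  @InnerProductSpace.Core.toSeminormedAddCommGroup ℝ (OmC E X p) _ _ _ (omCore E X p)

instance : InnerProductSpace ℝ (OmC E X p) := InnerProductSpace.ofCore (omCore E X p)

/-- `L²Ω^p(X)`: the completion of `Ω_c^p(X)` for the `L²` norm. -/
abbrev L2F : Type _ := UniformSpace.Completion (OmC E X p)

variable {E X p}

theorem OmC.inner_def (a b : OmC E X p) : inner ℝ a b = l2 a.1 b.1 := rfl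

/-- `c = δ b`: the formal adjoint of the exterior derivative. -/
def IsCodiff (b : PForm E X (p + 1)) (c : PForm E X p) : Prop :=
  ∀ a ∈ OmegaC E X p, l2 (extD a) b = l2 a c

/-- `η = Δ w`, `Δ = d δ + δ d`, for smooth forms with compact support. -/
def IsLap : (p : ℕ) → PForm E X p → PForm E X p → Prop
  | 0, w, η => IsCodiff (extD w) η
  | (p + 1), w, η => ∃ c ∈ OmegaC E X p, ∃ d ∈ OmegaC E X (p + 1),
      IsCodiff w c ∧ IsCodiff (extD w) d ∧ η = extD c + d

variable (E X)

/-- the graph of `Δ_p` on `Ω_c^p(X)`, in `L²Ω^p(X) × L²Ω^p(X)`. -/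
def lapGraph (p : ℕ) : Set (L2F E X p × L2F E X p) :=
  {z | ∃ w η : OmC E X p, IsLap p w.1 η.1 ∧ z = ((w : L2F E X p), (η : L2F E X p))}

/-- the graph of the minimal closure `(Δ_p)_min`. -/
def lapMinGraph (p : ℕ) : Set (L2F E X p × L2F E X p) := closure (lapGraph E X p)

/-- `0` is in the spectrum of `(Δ_p)_min`: there is no bounded operator `B` on `L²Ω^p(X)` which is
inverse to `(Δ_p)_min`, i.e. whose graph `{(B η, η)}` is the graph of `(Δ_p)_min`. -/
def ZeroInSpec (p : ℕ) : Prop :=
  ¬ ∃ B : L2F E X p →L[ℝ] L2F E X p, lapMinGraph E X p = {z | z.1 = B z.2}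

end Pool.Agent.ZSp
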