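import Pool.Agent.Work.MP_058ed1_gt.G.FormsA
import Pool.Agent.Work.MP_058ed1_gt.G.L2Def

/-!
# What a bounded inverse of the Laplacian gives
-/

open scoped Manifold ContDiff Topology Bundle ENNReal NNReal
open Set MeasureTheory Bundle

set_option linter.unusedSectionVars false

noncomputable section

namespace Pool.Agent.ZSp

variable {E : Type*} [NormedAddCommGroup E] [InnerProductSpace ℝ E] [FiniteDimensional ℝ E]
  {X : Type*} [EMetricSpace X] [ChartedSpace E X]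
  [IsManifold 𝓘(ℝ, E) ∞ X] [RiemannianBundle (fun x : X => TangentSpace 𝓘(ℝ, E) x)]
  [IsContMDiffRiemannianBundle 𝓘(ℝ, E) ∞ E (fun x : X => TangentSpace 𝓘(ℝ, E) x)]
  [IsRiemannianManifold 𝓘(ℝ, E) X] [MeasurableSpace X] [BorelSpace X] {p : ℕ}

theorem extD_mem {w : PForm E X p} (hw : w ∈ OmegaC E X p) : extD w ∈ OmegaC E X (p + 1) := by
  refine ⟨hw.1.extD, hw.2.of_isClosed_subset isClosed_closure
    (closure_minimal ?_ isClosed_closure)⟩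
  intro x hx
  by_contra hcon
  apply hx
  have : ∀ᶠ y in 𝓝 x, w y = (0 : PForm E X p) y := by
    filter_upwards [isClosed_closure.isOpen_compl.mem_nhds hcon] with y hy
    by_contra h0
    exact hy (subset_closure h0)
  rw [extD_congr this, extD_zero]
  rfl

/-- the exterior derivative on `Ω_c`. -/
def dC (a : OmC E X p) : OmC E X (p + 1) := ⟨extD a.1, extD_mem a.2⟩

theorem norm_sq_eq (a : OmC E X p) : ‖a‖ ^ 2 = l2 a.1 a.1 := by
  rw [← real_inner_self_eq_norm_sq]; rfl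

theorem l2_zero_left (b : PForm E X p) : l2 (0 : PForm E X p) b = 0 := by
  have := l2_smul_left (0 : ℝ) (0 : PForm E X p) b
  simpa using this

/-- main estimate. -/
theorem hodge_est {B : ℝ} (hB : 0 ≤ B) {a w η : OmC E X (p + 1)} {ε : ℝ} (hε : 0 < ε)
    (hL : IsLap (p + 1) w.1 η.1) (h1 : ‖η - a‖ ≤ ε) (h2 : ‖w‖ ≤ B * ‖η‖) :
    ∃ c : OmC E X p, ‖c‖ ^ 2 ≤ B * ‖η‖ ^ 2 ∧
      ‖a - dC c‖ ^ 2 ≤ Real.sqrt B * ‖dC a‖ * ‖η‖ + 3 * ε * ‖η‖ + ε ^ 2 := by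
  obtain ⟨c, hc, d, hd, hwc, hwd, he⟩ := hL
  let c' : OmC E X p := ⟨c, hc⟩
  let d' : OmC E X (p + 1) := ⟨d, hd⟩
  have eη : η = dC c' + d' := Subtype.ext he
  -- (1) orthogonality
  have o1 : inner ℝ (dC c') d' = 0 := by
    have := hwd (extD c) (extD_mem hc)
    rw [extD_extD hc.1, l2_zero_left] at this
    exact this.symm
  -- (2)
  have o2 : inner ℝ (dC c') w = inner ℝ c' c' := hwc c hc
  -- (3)
  have o3 : inner ℝ (dC w) (dC w) = inner ℝ w d' := hwd w.1 w.2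
  have o4 : inner ℝ (dC a) (dC w) = inner ℝ a d' := hwd a.1 a.2
  have e1 : ‖c'‖ ^ 2 + ‖dC w‖ ^ 2 = inner ℝ η w := by
    rw [← real_inner_self_eq_norm_sq, ← real_inner_self_eq_norm_sq, ← o2, o3, eη, inner_add_left,
      real_inner_comm w d']
  have e2 : inner ℝ η w ≤ B * ‖η‖ ^ 2 := by
    calc inner ℝ η w ≤ ‖η‖ * ‖w‖ := real_inner_le_norm _ _
      _ ≤ ‖η‖ * (B * ‖η‖) := by gcongr
      _ = B * ‖η‖ ^ 2 := by ring
  have e3 : ‖η‖ ^ 2 = ‖dC c'‖ ^ 2 + ‖d'‖ ^ 2 := by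
    rw [← real_inner_self_eq_norm_sq, ← real_inner_self_eq_norm_sq, ← real_inner_self_eq_norm_sq,
      eη, inner_add_left, inner_add_right, inner_add_right, real_inner_comm (dC c') d', o1]
    ring
  have e4 : ‖d'‖ ≤ ‖η‖ := by
    apply abs_le_of_sq_le_sq' _ (norm_nonneg _) |>.2
    nlinarith [sq_nonneg ‖dC c'‖]
  have e5 : ‖dC w‖ ≤ Real.sqrt B * ‖η‖ := by
    have : ‖dC w‖ ^ 2 ≤ (Real.sqrt B * ‖η‖) ^ 2 := by
      rw [mul_pow, Real.sq_sqrt hB]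
      nlinarith [sq_nonneg ‖c'‖]
    exact abs_le_of_sq_le_sq' this (by positivity) |>.2
  have e6 : ‖d'‖ ^ 2 ≤ Real.sqrt B * ‖dC a‖ * ‖η‖ + ε * ‖η‖ := by
    have q1 : ‖d'‖ ^ 2 = inner ℝ a d' + inner ℝ (η - a) d' := by
      rw [← real_inner_self_eq_norm_sq, inner_sub_left]
      have : inner ℝ η d' = inner ℝ d' d' := by
        rw [eη, inner_add_left, o1, zero_add]
      rw [this]; ring
    rw [q1, ← o4]
    have q2 : inner ℝ (dC a) (dC w) ≤ Real.sqrt B * ‖dC a‖ * ‖η‖ := by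
      calc inner ℝ (dC a) (dC w) ≤ ‖dC a‖ * ‖dC w‖ := real_inner_le_norm _ _
        _ ≤ ‖dC a‖ * (Real.sqrt B * ‖η‖) := by gcongr
        _ = _ := by ring
    have q3 : inner ℝ (η - a) d' ≤ ε * ‖η‖ := by
      calc inner ℝ (η - a) d' ≤ ‖η - a‖ * ‖d'‖ := real_inner_le_norm _ _
        _ ≤ ε * ‖η‖ := by gcongr
    linarith
  refine ⟨c', ?_, ?_⟩
  · nlinarith [sq_nonneg ‖dC w‖]
  · have q : a - dC c' = (a - η) + d' := by rw [eη]; abel
    rw [q]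
    have q1 : ‖(a - η) + d'‖ ≤ ε + ‖d'‖ := by
      refine (norm_add_le _ _).trans ?_
      rw [norm_sub_rev]
      gcongr
    have q2 : ‖(a - η) + d'‖ ^ 2 ≤ (ε + ‖d'‖) ^ 2 := by gcongr
    nlinarith [norm_nonneg d', norm_nonneg η]

theorem hodgeProp_of_not_zeroInSpec (h : ¬ ZeroInSpec E X (p + 1)) : HodgeProp E X p := by
  unfold ZeroInSpec at h
  rw [not_not] at h
  obtain ⟨B, hB⟩ := h
  set b := ‖B‖ with hb
  have hb0 : 0 ≤ b := B.opNorm_nonneg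
  refine ⟨b + Real.sqrt b, by positivity, ?_⟩
  intro α hα δ hδ
  let a : OmC E X (p + 1) := ⟨α, hα⟩
  -- choice of epsilon
  obtain ⟨ε, hε, hε1, hεa, hεb⟩ : ∃ ε : ℝ, 0 < ε ∧ ε ≤ 1 ∧
      ε * (Real.sqrt b * ‖dC a‖ + 3 * ‖a‖ + 4) ≤ δ ∧ ε * (b * (2 * ‖a‖ + 1)) ≤ δ := by
    have p1 : 0 < Real.sqrt b * ‖dC a‖ + 3 * ‖a‖ + 4 := by positivity
    have p2 : 0 < b * (2 * ‖a‖ + 1) + 1 := by positivity
    refine ⟨min 1 (min (δ / (Real.sqrt b * ‖dC a‖ + 3 * ‖a‖ + 4))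
      (δ / (b * (2 * ‖a‖ + 1) + 1))), by positivity, min_le_left _ _, ?_, ?_⟩
    · calc _ ≤ (δ / (Real.sqrt b * ‖dC a‖ + 3 * ‖a‖ + 4)) *
            (Real.sqrt b * ‖dC a‖ + 3 * ‖a‖ + 4) := by
            gcongr
            exact (min_le_right _ _).trans (min_le_left _ _)
        _ = δ := by field_simp
    · calc _ ≤ (δ / (b * (2 * ‖a‖ + 1) + 1)) * (b * (2 * ‖a‖ + 1) + 1) := by
            gcongr
            · exact (min_le_right _ _).trans (min_le_right _ _)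
            · linarith
        _ = δ := by field_simp
  have hmem : ((B (a : L2F E X (p + 1)), (a : L2F E X (p + 1))) : L2F E X (p + 1) × L2F E X (p + 1)) ∈
      closure (lapGraph E X (p + 1)) := by
    have : ((B (a : L2F E X (p + 1)), (a : L2F E X (p + 1))) : L2F E X (p + 1) × L2F E X (p + 1)) ∈
        lapMinGraph E X (p + 1) := by rw [hB]; rfl
    exact this
  obtain ⟨z, ⟨w, η, hL, rfl⟩, hz⟩ := Metric.mem_closure_iff.1 hmem ε hε
  have hη : ‖η - a‖ ≤ ε := by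
    rw [Prod.dist_eq] at hz
    have := (le_max_right _ _).trans hz.le
    rw [← dist_eq_norm, ← UniformSpace.Completion.dist_eq, dist_comm]
    exact this
  have hw : ‖w‖ ≤ b * ‖η‖ := by
    have : ((w : L2F E X (p + 1)), (η : L2F E X (p + 1))) ∈ lapMinGraph E X (p + 1) :=
      subset_closure ⟨w, η, hL, rfl⟩
    rw [hB] at this
    have h3 : (w : L2F E X (p + 1)) = B (η : L2F E X (p + 1)) := this
    have h4 := B.le_opNorm (η : L2F E X (p + 1))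
    rw [← h3, UniformSpace.Completion.norm_coe, UniformSpace.Completion.norm_coe] at h4
    exact h4
  obtain ⟨c, hc1, hc2⟩ := hodge_est hb0 hε hL hη hw
  have hηn : ‖η‖ ≤ ‖a‖ + ε := by
    have : η = (η - a) + a := by abel
    calc ‖η‖ = ‖(η - a) + a‖ := by rw [← this]
      _ ≤ ‖η - a‖ + ‖a‖ := norm_add_le _ _
      _ ≤ ‖a‖ + ε := by linarith
  refine ⟨c.1, c.2, ?_, ?_⟩
  · rw [← norm_sq_eq, ← norm_sq_eq a]
    have h5 : ‖η‖ ^ 2 ≤ ‖a‖ ^ 2 + ε * (2 * ‖a‖ + 1) := by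
      have : ‖η‖ ^ 2 ≤ (‖a‖ + ε) ^ 2 := by gcongr
      nlinarith [norm_nonneg a]
    have h6 : b * ‖η‖ ^ 2 ≤ b * (‖a‖ ^ 2 + ε * (2 * ‖a‖ + 1)) := by gcongr
    have h7 : 0 ≤ Real.sqrt b * ‖a‖ ^ 2 := by positivity
    nlinarith
  · have e1 : l2 (α - extD c.1) (α - extD c.1) = ‖a - dC c‖ ^ 2 := (norm_sq_eq (a - dC c)).symm
    have e2 : Real.sqrt (l2 (extD α) (extD α) * l2 α α) = ‖dC a‖ * ‖a‖ := by
      have e3 : l2 (extD α) (extD α) = ‖dC a‖ ^ 2 := (norm_sq_eq (dC a)).symm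
      have e4 : l2 α α = ‖a‖ ^ 2 := (norm_sq_eq a).symm
      rw [e3, e4, ← mul_pow, Real.sqrt_sq (by positivity)]
    rw [e1, e2]
    refine hc2.trans ?_
    have h5 : Real.sqrt b * ‖dC a‖ * ‖η‖ ≤ Real.sqrt b * ‖dC a‖ * (‖a‖ + ε) := by gcongr
    have h6 : 3 * ε * ‖η‖ ≤ 3 * ε * (‖a‖ + ε) := by gcongr
    have h7 : 0 ≤ b * (‖dC a‖ * ‖a‖) := by positivity
    have h8 : ε ^ 2 ≤ ε := by nlinarith
    nlinarith

end Pool.Agent.ZSp
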