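import Pool.Agent.Work.MP_058ed1_gt.G.Act

/-!
# The almost closed forms `α_F = ∑_{c ∈ F} c^*(φ du)`
-/

open scoped Manifold ContDiff Topology Bundle ENNReal NNReal
open Set MeasureTheory Bundle

set_option linter.unusedSectionVars false

noncomputable section

namespace Pool.Agent.ZSp

variable {E : Type*} [NormedAddCommGroup E] [InnerProductSpace ℝ E] [FiniteDimensional ℝ E]
  {G X : Type*} [Group G] [EMetricSpace X] [ChartedSpace E X]
  [IsManifold 𝓘(ℝ, E) ∞ X] [RiemannianBundle (fun x : X => TangentSpace 𝓘(ℝ, E) x)]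
  [IsContMDiffRiemannianBundle 𝓘(ℝ, E) ∞ E (fun x : X => TangentSpace 𝓘(ℝ, E) x)]
  [IsRiemannianManifold 𝓘(ℝ, E) X] [MeasurableSpace X] [BorelSpace X]
  [MulAction G X]

/-- the finitely many group elements moving `K` to meet `K'`. -/
theorem finite_moving (hA : IsomAction E G X) {K K' : Set X} (hK : IsCompact K)
    (hK' : IsCompact K') : {g : G | ∃ x ∈ K, g • x ∈ K'}.Finite := by
  refine (hA.proper (K ∪ K') (hK.union hK')).subset ?_
  rintro g ⟨x, hx, hgx⟩
  exact ⟨g • x, ⟨x, Or.inl hx, rfl⟩, Or.inr hgx⟩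

theorem eventually_mem_of_smul_mem (hA : IsomAction E G X) {K : Set X} (hK : IsCompact K)
    (x : X) : ∀ᶠ y in 𝓝 x, ∀ c : G, c • y ∈ K → c • x ∈ K := by
  have : LocallyCompactSpace X := Manifold.locallyCompact_of_finiteDimensional 𝓘(ℝ, E)
  obtain ⟨L, hL, hLx⟩ := exists_compact_mem_nhds x
  have hfin := finite_moving hA hL hK
  have h1 : ∀ᶠ y in 𝓝 x, ∀ c ∈ {g : G | ∃ x ∈ L, g • x ∈ K} ∩ {c | c • x ∉ K}, c • y ∉ K := by
    rw [Filter.eventually_all_finite (hfin.subset inter_subset_left)]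
    rintro c ⟨_, hc⟩
    exact (hA.continuous_act c).continuousAt.eventually (hK.isClosed.isOpen_compl.mem_nhds hc)
  filter_upwards [h1, hLx] with y hy hyL c hc
  by_contra hcon
  exact hy c ⟨⟨y, hyL, hc⟩, hcon⟩ hc

theorem theta_mem {u φ : X → ℝ} (hu : ContMDiff 𝓘(ℝ, E) 𝓘(ℝ, ℝ) ∞ u)
    (hφ : ContMDiff 𝓘(ℝ, E) 𝓘(ℝ, ℝ) ∞ φ) (hs : HasCompactSupport φ) :
    theta E u φ ∈ OmegaC E X 1 := by
  refine ⟨((smoothForm_ofFun hu).extD).fmul hφ, ?_⟩
  refine hs.of_isClosed_subset isClosed_closure (closure_mono ?_)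
  intro x hx h0
  apply hx
  show φ x • _ = _
  rw [h0, zero_smul]

theorem gpull_du (hA : IsomAction E G X) {C : Subgroup G} {u φ : X → ℝ}
    (h : EndFun E C u φ) {c : G} (hc : c ∈ C) :
    gpull c (extD (ofFun E u)) = extD (ofFun E u) := by
  rw [gpull, ← extD_pull (smoothForm_ofFun h.u_smooth) (hA.smooth c)]
  congr 1
  funext x
  show (ContinuousAlternatingMap.constOfIsEmpty ℝ _ (Fin 0) (u (c • x))).compContinuousLinearMap _
    = _
  rw [h.u_inv c hc]
  rfl

theorem gpull_theta (hA : IsomAction E G X) {C : Subgroup G} {u φ : X → ℝ}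
    (h : EndFun E C u φ) {c : G} (hc : c ∈ C) (x : X) :
    gpull c (theta E u φ) x = φ (c • x) • extD (ofFun E u) x := by
  conv_rhs => rw [← gpull_du hA h hc]
  rfl

theorem alpha_apply (hA : IsomAction E G X) {C : Subgroup G} {u φ : X → ℝ}
    (h : EndFun E C u φ) (F : Finset G) (hF : ∀ c ∈ F, c ∈ C) (x : X) :
    alpha E u φ F x = (∑ c ∈ F, φ (c • x)) • extD (ofFun E u) x := by
  unfold alpha
  rw [sum_apply_pform, Finset.sum_smul]
  exact Finset.sum_congr rfl fun c hc => gpull_theta hA h (hF c hc) x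

theorem alpha_eq_du (hA : IsomAction E G X) {C : Subgroup G} {u φ : X → ℝ}
    (h : EndFun E C u φ) (F : Finset G) (hF : ∀ c ∈ F, c ∈ C) (x : X)
    (hx : ∀ c ∈ C, c • x ∈ tsupport φ → c ∈ F) :
    alpha E u φ F x = extD (ofFun E u) x := by
  classical
  rw [alpha_apply hA h F hF]
  by_cases h0 : extD (ofFun E u) x = 0
  · rw [h0, smul_zero]
  · have h1 := h.part x h0
    have h2 : ∑ᶠ c : C, φ ((c : G) • x) = ∑ c ∈ F, φ (c • x) := by
      rw [finsum_eq_sum_of_support_subset (s := F.subtype (fun c => c ∈ C))]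
      · rw [Finset.sum_subtype_of_mem (p := fun c => c ∈ C) (fun c => φ (c • x)) hF]
      · intro c hc
        rw [Finset.mem_coe, Finset.mem_subtype]
        exact hx c c.2 (subset_tsupport _ hc)
    rw [← h2, h1, one_smul]

theorem alpha_mem (hA : IsomAction E G X) {C : Subgroup G} {u φ : X → ℝ}
    (h : EndFun E C u φ) (F : Finset G) : alpha E u φ F ∈ OmegaC E X 1 :=
  Submodule.sum_mem _ fun c _ => gpull_mem hA c (theta_mem h.u_smooth h.φ_smooth h.φ_supp)

theorem extD_alpha (hA : IsomAction E G X) {C : Subgroup G} {u φ : X → ℝ}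
    (h : EndFun E C u φ) (F : Finset G) :
    extD (alpha E u φ F) = ∑ c ∈ F, gpull c (extD (theta E u φ)) := by
  have hθ := theta_mem h.u_smooth h.φ_smooth h.φ_supp
  unfold alpha
  rw [extD_sum _ fun c _ => hθ.1.pull (hA.smooth c)]
  exact Finset.sum_congr rfl fun c _ => extD_pull hθ.1 (hA.smooth c)

theorem theta_eq_zero {u φ : X → ℝ} {x : X} (hx : x ∉ tsupport φ) : theta E u φ x = 0 := by
  show φ x • _ = _
  rw [image_eq_zero_of_notMem_tsupport hx, zero_smul]

theorem extD_theta_eq_zero {u φ : X → ℝ} {x : X} (hx : x ∉ tsupport φ) :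
    extD (theta E u φ) x = 0 := by
  have : ∀ᶠ y in 𝓝 x, theta E u φ y = (0 : PForm E X 1) y := by
    filter_upwards [(isClosed_tsupport φ).isOpen_compl.mem_nhds hx] with y hy
    exact theta_eq_zero hy
  rw [extD_congr this, extD_zero]
  rfl

theorem gpull_eq_zero {p : ℕ} {κ : PForm E X p} {c : G} {x : X} (h : κ (c • x) = 0) :
    gpull c κ x = 0 := by
  show (κ (c • x)).compContinuousLinearMap _ = 0
  rw [h]; rfl

theorem alpha_bounds (hA : IsomAction E G X) (C : Subgroup G) {u φ : X → ℝ}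
    (h : EndFun E C u φ) : ∃ N : ℝ, 0 ≤ N ∧ ∃ T : Finset G, ∀ F : Finset G, (∀ c ∈ F, c ∈ C) →
      alpha E u φ F ∈ OmegaC E X 1 ∧ l2 (alpha E u φ F) (alpha E u φ F) ≤ N * F.card ∧
      l2 (extD (alpha E u φ F)) (extD (alpha E u φ F)) ≤ N * (bdry C T F).card := by
  classical
  have hθ := theta_mem h.u_smooth h.φ_smooth h.φ_supp
  set K := tsupport φ with hKdef
  have hK : IsCompact K := h.φ_supp
  obtain ⟨N₁, hN₁, H₁⟩ := l2_sum_gpull_le hA hθ K hK (fun x hx => by
    by_contra hcon; exact hx (theta_eq_zero hcon))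
  obtain ⟨N₂, hN₂, H₂⟩ := l2_sum_gpull_le hA (extD_mem hθ) K hK (fun x hx => by
    by_contra hcon; exact hx (extD_theta_eq_zero hcon))
  refine ⟨max N₁ N₂, le_max_of_le_left hN₁, (hA.proper K hK).toFinset, ?_⟩
  intro F hF
  refine ⟨alpha_mem hA h F, ?_, ?_⟩
  · refine (H₁ F).trans ?_
    gcongr
    exact le_max_left _ _
  · set T := (hA.proper K hK).toFinset with hT
    have hpt : ∀ x, extD (alpha E u φ F) x = 0 ∨ extD (alpha E u φ F) x =
        (∑ c ∈ bdry C T F, gpull c (extD (theta E u φ))) x := by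
      intro x
      by_cases hx : ∀ c ∈ C, c • x ∈ K → c ∈ F
      · left
        have : ∀ᶠ y in 𝓝 x, alpha E u φ F y = extD (ofFun E u) y := by
          filter_upwards [eventually_mem_of_smul_mem hA hK x] with y hy
          exact alpha_eq_du hA h F hF y fun c hc hcy => hx c hc (hy c hcy)
        rw [extD_congr this, extD_extD (smoothForm_ofFun h.u_smooth)]
        rfl
      · right
        push Not at hx
        obtain ⟨c', hc'C, hc'x, hc'F⟩ := hx
        rw [extD_alpha hA h, sum_apply_pform, sum_apply_pform]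
        have hsub : bdry C T F ⊆ F := by
          unfold bdry; exact Finset.filter_subset _ _
        symm
        apply Finset.sum_subset hsub
        intro c hcF hcb
        apply gpull_eq_zero
        apply extD_theta_eq_zero
        intro hcx
        apply hcb
        unfold bdry
        rw [Finset.mem_filter]
        refine ⟨hcF, c' * c⁻¹, ?_, C.mul_mem hc'C (C.inv_mem (hF c hcF)), by simpa using hc'F⟩
        rw [hT]
        simp only [Finite.mem_toFinset, mem_ofPred_eq]
        exact ⟨c' • x, ⟨c • x, hcx, by simp [mul_smul]⟩, hc'x⟩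
    have hmem1 : extD (alpha E u φ F) ∈ OmegaC E X 2 := extD_mem (alpha_mem hA h F)
    have hmem2 : (∑ c ∈ bdry C T F, gpull c (extD (theta E u φ))) ∈ OmegaC E X 2 :=
      Submodule.sum_mem _ fun c _ => gpull_mem hA c (extD_mem hθ)
    calc l2 (extD (alpha E u φ F)) (extD (alpha E u φ F))
        ≤ l2 (∑ c ∈ bdry C T F, gpull c (extD (theta E u φ)))
          (∑ c ∈ bdry C T F, gpull c (extD (theta E u φ))) := by
          apply integral_mono (integrable_pin hmem1 hmem1) (integrable_pin hmem2 hmem2)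
          intro x
          rcases hpt x with h0 | h0
          · rw [pin_eq_zero _ h0]; exact pin_self_nonneg _ _
          · show ainner _ _ ≤ ainner _ _
            rw [h0]
      _ ≤ N₂ * (bdry C T F).card := H₂ _
      _ ≤ max N₁ N₂ * (bdry C T F).card := by
          gcongr
          exact le_max_right _ _

theorem alpha_eq (hA : IsomAction E G X) (C : Subgroup G) {u φ : X → ℝ}
    (h : EndFun E C u φ) (K : Set X) (hK : IsCompact K) : ∃ T : Finset G, ∀ F : Finset G,
      (∀ c ∈ F, c ∈ C) → ∀ c ∈ F, c ∉ bdry C T F → ∀ x ∈ K,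
        alpha E u φ F (c⁻¹ • x) = extD (ofFun E u) (c⁻¹ • x) := by
  classical
  refine ⟨(finite_moving hA hK h.φ_supp).toFinset, ?_⟩
  intro F hF c hc hcb x hx
  apply alpha_eq_du hA h F hF
  intro c' hc' hc'x
  by_contra hcon
  apply hcb
  unfold bdry
  rw [Finset.mem_filter]
  refine ⟨hc, c' * c⁻¹, ?_, C.mul_mem hc' (C.inv_mem (hF c hc)), by simpa using hcon⟩
  simp only [Finite.mem_toFinset, mem_ofPred_eq]
  exact ⟨x, hx, by simpa [mul_smul] using hc'x⟩

end Pool.Agent.ZSp
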