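import Mathlib

/-!
# The cube of mapping cones: pure algebra
-/

open Finset

noncomputable section

namespace Pool.Agent.ZSp

section cube

variable {V : Type*} [AddCommGroup V] [Module ℝ V]

/-- the differential of the iterated mapping cone of `N 0, ..., N (n-1)`. -/
def cubeD (d : V →ₗ[ℝ] V) (N : ℕ → V →ₗ[ℝ] V) (n : ℕ) (x : Finset ℕ → V) (S : Finset ℕ) : V :=
  (-1 : ℝ) ^ S.card • d (x S) +
    ∑ j ∈ range n \ S, (-1 : ℝ) ^ (S.filter (fun i => j < i)).card • N j (x (insert j S))

variable {d : V →ₗ[ℝ] V} {N : ℕ → V →ₗ[ℝ] V} {n : ℕ}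

theorem cubeD_congr {x y : Finset ℕ → V} (h : ∀ S ⊆ range n, x S = y S) {S : Finset ℕ}
    (hS : S ⊆ range n) : cubeD d N n x S = cubeD d N n y S := by
  unfold cubeD
  rw [h S hS]
  congr 1
  refine Finset.sum_congr rfl fun j hj => ?_
  rw [h (insert j S) (insert_subset (mem_sdiff.mp hj).1 hS)]

theorem cubeD_succ (x : Finset ℕ → V) {S : Finset ℕ} (hS : S ⊆ range n) :
    cubeD d N (n + 1) x S = cubeD d N n x S + N n (x (insert n S)) := by
  have hn : n ∉ S := fun h => by simpa using hS h
  have h1 : range (n + 1) \ S = insert n (range n \ S) := by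
    ext j
    simp only [mem_sdiff, mem_range, mem_insert]
    constructor
    · rintro ⟨h, h'⟩
      rcases Nat.lt_succ_iff_lt_or_eq.mp h with h | h
      · exact Or.inr ⟨h, h'⟩
      · exact Or.inl h
    · rintro (h | ⟨h, h'⟩)
      · subst h; exact ⟨Nat.lt_succ_self _, hn⟩
      · exact ⟨Nat.lt_succ_of_lt h, h'⟩
  have h2 : S.filter (fun i => n < i) = ∅ := by
    rw [filter_eq_empty_iff]
    intro i hi
    have := mem_range.mp (hS hi)
    omega
  unfold cubeD
  rw [h1, sum_insert (by simp), h2]
  simp only [card_empty, pow_zero, one_smul]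
  abel

theorem cubeD_succ_insert (x : Finset ℕ → V) {S : Finset ℕ} (hS : S ⊆ range n) :
    cubeD d N (n + 1) x (insert n S) = -cubeD d N n (fun T => x (insert n T)) S := by
  have hn : n ∉ S := fun h => by simpa using hS h
  have h1 : range (n + 1) \ insert n S = range n \ S := by
    ext j
    simp only [mem_sdiff, mem_range, mem_insert, not_or]
    constructor
    · rintro ⟨h, h', h''⟩
      exact ⟨by omega, h''⟩
    · rintro ⟨h, h'⟩
      exact ⟨by omega, by omega, h'⟩
  unfold cubeD
  rw [h1, card_insert_of_notMem hn, neg_add, pow_succ, ← Finset.sum_neg_distrib]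
  congr 1
  · rw [mul_neg_one, neg_smul]
  · refine Finset.sum_congr rfl fun j hj => ?_
    have hj' : j < n := mem_range.mp (mem_sdiff.mp hj).1
    have h3 : (insert n S).filter (fun i => j < i) = insert n (S.filter (fun i => j < i)) := by
      rw [filter_insert, if_pos hj']
    rw [h3, card_insert_of_notMem (by simp [hn]), pow_succ, mul_neg_one, neg_smul,
      Finset.insert_comm]

theorem cubeD_add (x y : Finset ℕ → V) (S : Finset ℕ) :
    cubeD d N n (fun T => x T + y T) S = cubeD d N n x S + cubeD d N n y S := by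
  unfold cubeD
  simp only [map_add, smul_add, Finset.sum_add_distrib]
  abel

theorem cubeD_neg (x : Finset ℕ → V) (S : Finset ℕ) :
    cubeD d N n (fun T => -x T) S = -cubeD d N n x S := by
  unfold cubeD
  simp only [map_neg, smul_neg, Finset.sum_neg_distrib]
  abel

theorem cubeD_map {M : V →ₗ[ℝ] V} (hd : ∀ v, M (d v) = d (M v))
    (hN : ∀ j < n, ∀ v, M (N j v) = N j (M v)) (x : Finset ℕ → V) (S : Finset ℕ) :
    cubeD d N n (fun T => M (x T)) S = M (cubeD d N n x S) := by
  unfold cubeD
  simp only [map_add, map_smul, map_sum, hd]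
  congr 1
  refine Finset.sum_congr rfl fun j hj => ?_
  rw [hN j (mem_range.mp (mem_sdiff.mp hj).1)]

/-- the iterated cone of an exact complex is exact. -/
theorem cube_exact (hd : ∀ v, d v = 0 → ∃ w, d w = v) (n : ℕ)
    (hNd : ∀ j < n, ∀ v, N j (d v) = d (N j v))
    (hNN : ∀ i < n, ∀ j < n, ∀ v, N i (N j v) = N j (N i v)) (x : Finset ℕ → V)
    (hx : ∀ S ⊆ range n, cubeD d N n x S = 0) :
    ∃ y : Finset ℕ → V, ∀ S ⊆ range n, cubeD d N n y S = x S := by
  induction n generalizing x with
  | zero =>
    have h0 := hx ∅ (by simp)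
    simp only [cubeD, card_empty, pow_zero, one_smul, range_zero, empty_sdiff, sum_empty,
      add_zero] at h0
    obtain ⟨w, hw⟩ := hd _ h0
    refine ⟨fun _ => w, fun S hS => ?_⟩
    have : S = ∅ := by simpa using hS
    subst this
    simp [cubeD, hw]
  | succ n ih =>
    have hNd' : ∀ j < n, ∀ v, N j (d v) = d (N j v) := fun j hj => hNd j (by omega)
    have hNN' : ∀ i < n, ∀ j < n, ∀ v, N i (N j v) = N j (N i v) :=
      fun i hi j hj => hNN i (by omega) j (by omega)
    have hsub : ∀ S ⊆ range n, S ⊆ range (n + 1) := fun S hS =>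
      hS.trans (range_mono (Nat.le_succ n))
    have hsub' : ∀ S ⊆ range n, insert n S ⊆ range (n + 1) := fun S hS =>
      insert_subset (by simp) (hsub S hS)
    -- the component containing `n`
    obtain ⟨b', hb'⟩ := ih hNd' hNN' (fun T => x (insert n T)) (by
      intro S hS
      have := hx (insert n S) (hsub' S hS)
      rw [cubeD_succ_insert x hS, neg_eq_zero] at this
      exact this)
    obtain ⟨a', ha'⟩ := ih hNd' hNN' (fun T => x T + N n (b' T)) (by
      intro S hS
      rw [cubeD_add, cubeD_map (hNd n (Nat.lt_succ_self n))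
        (fun j hj v => hNN n (Nat.lt_succ_self n) j (by omega) v), hb' S hS]
      have := hx S (hsub S hS)
      rw [cubeD_succ x hS] at this
      exact this)
    refine ⟨fun T => if n ∈ T then -b' (T.erase n) else a' T, fun S hS => ?_⟩
    by_cases hn : n ∈ S
    · obtain ⟨S₀, hS₀n, rfl⟩ : ∃ S₀, n ∉ S₀ ∧ insert n S₀ = S :=
        ⟨S.erase n, by simp, insert_erase hn⟩
      have hS₀ : S₀ ⊆ range n := by
        intro i hi
        have h1 := mem_range.mp (hS (mem_insert_of_mem hi))
        have h2 : i ≠ n := fun h => hS₀n (h ▸ hi)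
        exact mem_range.mpr (by omega)
      rw [cubeD_succ_insert _ hS₀]
      have h3 : cubeD d N n (fun T => if n ∈ insert n T then -b' ((insert n T).erase n)
          else a' (insert n T)) S₀ = cubeD d N n (fun T => -b' T) S₀ := by
        refine cubeD_congr (fun T hT => ?_) hS₀
        have hnT : n ∉ T := fun h => by simpa using hT h
        rw [if_pos (mem_insert_self n T), erase_insert hnT]
      rw [h3, cubeD_neg, neg_neg, hb' S₀ hS₀]
    · have hS' : S ⊆ range n := by
        intro i hi
        have h1 := mem_range.mp (hS hi)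
        have h2 : i ≠ n := fun h => hn (h ▸ hi)
        exact mem_range.mpr (by omega)
      rw [cubeD_succ _ hS']
      have h3 : cubeD d N n (fun T => if n ∈ T then -b' (T.erase n) else a' T) S =
          cubeD d N n a' S := by
        refine cubeD_congr (fun T hT => ?_) hS'
        have hnT : n ∉ T := fun h => by simpa using hT h
        rw [if_neg hnT]
      rw [h3, ha' S hS', if_pos (mem_insert_self n S), erase_insert hn, map_neg]
      abel

/-- a functional on the cube which satisfies Stokes' formula vanishes on the image of the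
differential. -/
theorem sum_cubeD_eq_zero (Φ : Finset ℕ → V →ₗ[ℝ] ℝ)
    (hΦ : ∀ T ⊆ range n, ∀ v, Φ T (d v) =
      ∑ j ∈ T, (-1 : ℝ) ^ (T.filter (fun i => i < j)).card * Φ (T.erase j) (N j v))
    (y : Finset ℕ → V) : ∑ S ∈ (range n).powerset, Φ S (cubeD d N n y S) = 0 := by
  have h1 : ∀ S ∈ (range n).powerset, Φ S (cubeD d N n y S) =
      (-1 : ℝ) ^ S.card * Φ S (d (y S)) + ∑ j ∈ range n \ S,
        (-1 : ℝ) ^ (S.filter (fun i => j < i)).card * Φ S (N j (y (insert j S))) := by
    intro S _
    unfold cubeD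
    simp only [map_add, map_smul, map_sum, smul_eq_mul]
  rw [Finset.sum_congr rfl h1, Finset.sum_add_distrib]
  have h2 : ∑ S ∈ (range n).powerset, ∑ j ∈ range n \ S,
      (-1 : ℝ) ^ (S.filter (fun i => j < i)).card * Φ S (N j (y (insert j S))) =
      ∑ T ∈ (range n).powerset, ∑ j ∈ T,
        (-1 : ℝ) ^ (T.filter (fun i => j < i)).card * Φ (T.erase j) (N j (y T)) := by
    rw [Finset.sum_sigma', Finset.sum_sigma']
    refine Finset.sum_bij' (fun p _ => ⟨insert p.2 p.1, p.2⟩) (fun p _ => ⟨p.1.erase p.2, p.2⟩)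
      ?_ ?_ ?_ ?_ ?_
    · rintro ⟨S, j⟩ h
      simp only [mem_sigma, mem_powerset, mem_sdiff] at h ⊢
      exact ⟨insert_subset h.2.1 h.1, mem_insert_self _ _⟩
    · rintro ⟨T, j⟩ h
      simp only [mem_sigma, mem_powerset, mem_sdiff] at h ⊢
      exact ⟨(erase_subset _ _).trans h.1, h.1 h.2, by simp⟩
    · rintro ⟨S, j⟩ h
      simp only [mem_sigma, mem_powerset, mem_sdiff] at h
      simp only [erase_insert h.2.2]
    · rintro ⟨T, j⟩ h
      simp only [mem_sigma, mem_powerset] at h
      simp only [insert_erase h.2]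
    · rintro ⟨S, j⟩ h
      simp only [mem_sigma, mem_powerset, mem_sdiff] at h
      simp only [erase_insert h.2.2]
      rw [filter_insert, if_neg (lt_irrefl j)]
  rw [h2, ← Finset.sum_add_distrib]
  refine Finset.sum_eq_zero fun T hT => ?_
  rw [hΦ T (mem_powerset.mp hT), Finset.mul_sum, ← Finset.sum_add_distrib]
  refine Finset.sum_eq_zero fun j hj => ?_
  have h3 : (T.filter (fun i => i < j)).card + (T.filter (fun i => j < i)).card + 1 = T.card := by
    have e1 : T = insert j ((T.filter (fun i => i < j)) ∪ (T.filter (fun i => j < i))) := by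
      ext i
      simp only [mem_insert, mem_union, mem_filter]
      constructor
      · intro hi
        rcases lt_trichotomy i j with h | h | h
        · exact Or.inr (Or.inl ⟨hi, h⟩)
        · exact Or.inl h
        · exact Or.inr (Or.inr ⟨hi, h⟩)
      · rintro (h | h | h)
        · exact h ▸ hj
        · exact h.1
        · exact h.1
    have e2 : Disjoint (T.filter (fun i => i < j)) (T.filter (fun i => j < i)) := by
      rw [Finset.disjoint_left]
      intro i h1 h2
      exact lt_asymm (mem_filter.mp h1).2 (mem_filter.mp h2).2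
    conv_rhs => rw [e1]
    rw [card_insert_of_notMem (by simp), card_union_of_disjoint e2]
  have h4 : (-1 : ℝ) ^ T.card * (-1 : ℝ) ^ (T.filter (fun i => i < j)).card =
      -(-1 : ℝ) ^ (T.filter (fun i => j < i)).card := by
    rw [← h3, pow_succ, pow_add]
    have : ((-1 : ℝ) ^ (T.filter (fun i => i < j)).card) *
        ((-1 : ℝ) ^ (T.filter (fun i => i < j)).card) = 1 := by
      rw [← mul_pow]; simp
    linear_combination (-(-1 : ℝ) ^ (T.filter (fun i => j < i)).card) * this
  rw [← mul_assoc, h4]
  ring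

end cube

end Pool.Agent.ZSp
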