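import Pool.Agent.Work.MP_058ed1_gt.G.Forms

/-!
# Isometric actions, amenability, ends
-/

open scoped Manifold ContDiff Topology Bundle
open Set Bundle

noncomputable section

namespace Pool.Agent.ZSp

/-- `G` acts by isometries, properly discontinuously and cocompactly. -/
structure IsomAction (E : Type*) [NormedAddCommGroup E] [InnerProductSpace ℝ E] (G X : Type*)
    [Group G] [EMetricSpace X] [ChartedSpace E X]
    [RiemannianBundle (fun x : X => TangentSpace 𝓘(ℝ, E) x)]
    [MulAction G X] : Prop where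
  /-- the action is smooth. -/
  smooth : ∀ g : G, ContMDiff 𝓘(ℝ, E) 𝓘(ℝ, E) ∞ (fun x : X => g • x)
  /-- the derivatives preserve the Riemannian norm. -/
  isom : ∀ (g : G) (x : X) (v : TangentSpace 𝓘(ℝ, E) x),
    ‖mfderiv 𝓘(ℝ, E) 𝓘(ℝ, E) (fun x : X => g • x) x v‖ = ‖v‖
  /-- properly discontinuous. -/
  proper : ∀ K : Set X, IsCompact K → {g : G | (((fun x => g • x) '' K) ∩ K).Nonempty}.Finite
  /-- cocompact. -/
  cocompact : ∃ K : Set X, IsCompact K ∧ ∀ x : X, ∃ g : G, g • x ∈ K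

/-- Foelner's condition for the subgroup `C` (for a discrete group: amenability). -/
def Folner {G : Type*} [Group G] (C : Subgroup G) : Prop :=
  by
    classical
    exact ∀ (T : Finset C) (ε : ℝ), 0 < ε → ∃ F : Finset C, F.Nonempty ∧
      ∀ t ∈ T, (((F.image (fun c => t * c)) \ F).card : ℝ) ≤ ε * F.card

/-- `X/C` has at least two ends: there are a compact `K` and two disjoint open `C`-invariant sets
`A`, `B` with union `X \ C K`, and neither is contained in `C L` with `L` compact. -/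
def TwoEnds {G : Type*} [Group G] (C : Subgroup G) (X : Type*) [TopologicalSpace X]
    [MulAction G X] : Prop :=
  ∃ K A B : Set X, IsCompact K ∧ IsOpen A ∧ IsOpen B ∧ Disjoint A B ∧
    (∀ c ∈ C, ∀ x ∈ A, c • x ∈ A) ∧ (∀ c ∈ C, ∀ x ∈ B, c • x ∈ B) ∧
    A ∪ B = {x | ∃ c ∈ C, c • x ∈ K}ᶜ ∧
    (∀ L : Set X, IsCompact L → ¬ A ⊆ {x | ∃ c ∈ C, c • x ∈ L}) ∧
    (∀ L : Set X, IsCompact L → ¬ B ⊆ {x | ∃ c ∈ C, c • x ∈ L})

end Pool.Agent.ZSp
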