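import Pool.Agent.Work.MP_058ed1_gt.G.Stmt
import Pool.Agent.Work.MP_058ed1_gt.G.GroupDef

/-!
# Cell ZI: common definitions
-/

open scoped Manifold ContDiff Topology Bundle ENNReal NNReal
open Set MeasureTheory Bundle

noncomputable section

namespace Pool.Agent.ZSp

section basic

variable {E : Type*} [NormedAddCommGroup E] [InnerProductSpace ℝ E] {X : Type*}
  [TopologicalSpace X] [ChartedSpace E X] {p : ℕ}

theorem inChart_add (w w' : PForm E X p) (x₀ : X) :
    inChart (w + w') x₀ = inChart w x₀ + inChart w' x₀ := by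
  ext y v; rfl

theorem inChart_smul (r : ℝ) (w : PForm E X p) (x₀ : X) :
    inChart (r • w) x₀ = r • inChart w x₀ := by
  ext y v; rfl

theorem inChart_zero (x₀ : X) : inChart (0 : PForm E X p) x₀ = 0 := by
  ext y v; rfl

theorem SmoothForm.zero : SmoothForm (0 : PForm E X p) := by
  intro x₀
  rw [inChart_zero]
  exact contDiffOn_const

theorem SmoothForm.add {w w' : PForm E X p} (hw : SmoothForm w) (hw' : SmoothForm w') :
    SmoothForm (w + w') := by
  intro x₀
  rw [inChart_add]
  exact (hw x₀).add (hw' x₀)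

theorem SmoothForm.smul {w : PForm E X p} (hw : SmoothForm w) (r : ℝ) :
    SmoothForm (r • w) := by
  intro x₀
  rw [inChart_smul]
  exact (hw x₀).const_smul r

end basic

section omega

variable (E : Type*) [NormedAddCommGroup E] [InnerProductSpace ℝ E] (X : Type*)
  [TopologicalSpace X] [T2Space X] [ChartedSpace E X]

/-- smooth `p`-forms with compact support. -/
def OmegaC (p : ℕ) : Submodule ℝ (PForm E X p) where
  carrier := {w | SmoothForm w ∧ IsCompact (closure {x | w x ≠ 0})}
  add_mem' := by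
    rintro w w' ⟨hw, hc⟩ ⟨hw', hc'⟩
    refine ⟨hw.add hw', (hc.union hc').of_isClosed_subset isClosed_closure ?_⟩
    rw [← closure_union]
    apply closure_mono
    intro x hx
    by_contra hcon
    simp only [mem_union, mem_ofPred_eq, not_or, not_not] at hcon
    apply hx
    show w x + w' x = 0
    rw [hcon.1, hcon.2, add_zero]
  zero_mem' := ⟨SmoothForm.zero, by simp⟩
  smul_mem' := by
    rintro r w ⟨hw, hc⟩
    refine ⟨hw.smul r, hc.of_isClosed_subset isClosed_closure (closure_mono ?_)⟩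
    intro x hx hcon
    apply hx
    show r • w x = 0
    rw [hcon, smul_zero]

end omega

/-- pull-back by a group element. -/
abbrev gpull {E : Type*} [NormedAddCommGroup E] [InnerProductSpace ℝ E] {G X : Type*} [Group G] [TopologicalSpace X] [ChartedSpace E X]
    [MulAction G X] {p : ℕ} (g : G) (w : PForm E X p) : PForm E X p := pull (fun x : X => g • x) w

/-- the elements of `F` which are not interior with respect to `T`. -/
def bdry {G : Type*} [Group G] (C : Subgroup G) (T F : Finset G) : Finset G := by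
  classical exact F.filter (fun c => ∃ t ∈ T, t ∈ C ∧ t * c ∉ F)

/-- the function `u` separating the two ends, and the cut-off `φ`. -/
structure EndFun (E : Type*) [NormedAddCommGroup E] [InnerProductSpace ℝ E] {G X : Type*} [Group G] [EMetricSpace X] [ChartedSpace E X]
    [IsManifold 𝓘(ℝ, E) ∞ X] [MulAction G X] (C : Subgroup G) (u φ : X → ℝ) : Prop where
  u_smooth : ContMDiff 𝓘(ℝ, E) 𝓘(ℝ, ℝ) ∞ u
  u_inv : ∀ c ∈ C, ∀ x, u (c • x) = u x
  u_nonneg : ∀ x, 0 ≤ u x
  u_le_one : ∀ x, u x ≤ 1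
  φ_smooth : ContMDiff 𝓘(ℝ, E) 𝓘(ℝ, ℝ) ∞ φ
  φ_supp : HasCompactSupport φ
  part : ∀ x, extD (ofFun E u) x ≠ 0 → ∑ᶠ c : C, φ ((c : G) • x) = 1

/-- `θ = φ du`. -/
def theta (E : Type*) [NormedAddCommGroup E] [InnerProductSpace ℝ E] {X : Type*} [TopologicalSpace X] [ChartedSpace E X] (u φ : X → ℝ) :
    PForm E X 1 := fun x => φ x • extD (ofFun E u) x

/-- `α_F = ∑_{c ∈ F} c^* θ`. -/
def alpha (E : Type*) [NormedAddCommGroup E] [InnerProductSpace ℝ E] {G X : Type*} [Group G] [TopologicalSpace X] [ChartedSpace E X]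
    [MulAction G X] (u φ : X → ℝ) (F : Finset G) : PForm E X 1 :=
  ∑ c ∈ F, gpull c (theta E u φ)

/-- what a bounded inverse of the Laplacian on `(q+1)`-forms gives. -/
def HodgeProp (E : Type*) [NormedAddCommGroup E] [InnerProductSpace ℝ E] [FiniteDimensional ℝ E]
    (X : Type*) [EMetricSpace X] [ChartedSpace E X]
    [RiemannianBundle (fun x : X => TangentSpace 𝓘(ℝ, E) x)]
    [MeasurableSpace X] [BorelSpace X] (q : ℕ) : Prop :=
  ∃ C₀ : ℝ, 0 ≤ C₀ ∧ ∀ α ∈ OmegaC E X (q + 1), ∀ δ : ℝ, 0 < δ → ∃ h ∈ OmegaC E X q,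
    l2 h h ≤ C₀ * l2 α α + δ ∧
    l2 (α - extD h) (α - extD h) ≤ C₀ * Real.sqrt (l2 (extD α) (extD α) * l2 α α) + δ

end Pool.Agent.ZSp
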