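import Pool.Agent.Work.MP_058ed1_gt.G.Defs

/-!
# Cell ZI, auxiliary file of module T
-/

open scoped Manifold ContDiff Topology Bundle ENNReal NNReal
open Set MeasureTheory Bundle

set_option linter.unusedSectionVars false

noncomputable section

namespace Pool.Agent.ZSp

/-- In a connected, locally path connected, locally compact Hausdorff space every compact set is
contained in a compact preconnected set. -/
theorem exists_compact_preconnected_superset {X : Type*} [TopologicalSpace X] [T2Space X]
    [LocallyCompactSpace X] [LocallyPathConnectedSpace X] [ConnectedSpace X] {K : Set X}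
    (hK : IsCompact K) : ∃ K' : Set X, IsCompact K' ∧ IsPreconnected K' ∧ K ⊆ K' := by
  have : PathConnectedSpace X := pathConnectedSpace_iff_connectedSpace.2 inferInstance
  obtain ⟨x₀⟩ : Nonempty X := inferInstance
  have key : ∀ x : X, ∃ S : Set X, IsCompact S ∧ IsPreconnected S ∧ x₀ ∈ S ∧ S ∈ 𝓝 x := by
    intro x
    obtain ⟨N, hN, hNx⟩ := exists_compact_mem_nhds x
    have hxU : x ∈ interior N := mem_interior_iff_mem_nhds.2 hNx
    set V := connectedComponentIn (interior N) x with hV
    have hVo : IsOpen V := isOpen_interior.connectedComponentIn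
    have hxV : x ∈ V := mem_connectedComponentIn hxU
    have hVp : IsPreconnected V := isPreconnected_connectedComponentIn
    have hVN : closure V ⊆ N :=
      closure_minimal ((connectedComponentIn_subset _ _).trans interior_subset) hN.isClosed
    obtain ⟨γ⟩ : Nonempty (Path x₀ x) := ⟨(PathConnectedSpace.joined x₀ x).somePath⟩
    refine ⟨range γ ∪ closure V, ?_, ?_, Or.inl ⟨0, γ.source⟩, ?_⟩
    · exact (isCompact_range γ.continuous).union (hN.of_isClosed_subset isClosed_closure hVN)
    · refine IsPreconnected.union x ⟨1, γ.target⟩ (subset_closure hxV) ?_ hVp.closure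
      exact isPreconnected_range γ.continuous
    · exact Filter.mem_of_superset (hVo.mem_nhds hxV) (subset_closure.trans subset_union_right)
  choose S hS1 hS2 hS3 hS4 using key
  obtain ⟨t, -, ht⟩ := hK.elim_nhds_subcover S fun x _ => hS4 x
  refine ⟨⋃ x ∈ t, S x, t.isCompact_biUnion fun x _ => hS1 x, ?_, ht⟩
  refine isPreconnected_of_forall x₀ fun y hy => ?_
  obtain ⟨x, hx, hxy⟩ := mem_iUnion₂.1 hy
  exact ⟨S x, subset_biUnion_of_mem (u := S) hx, hS3 x, hxy, hS2 x⟩

/-- Infinitely many cosets. -/
theorem exists_cosets {G : Type*} [Group G] (C : Subgroup G) (S : Set G)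
    (h : ∀ F : Finset G, ∃ g ∈ S, ∀ f ∈ F, g * f⁻¹ ∉ C) (m : ℕ) :
    ∃ g : Fin m → G, (∀ i, g i ∈ S) ∧ ∀ i j, i ≠ j → g i * (g j)⁻¹ ∉ C := by
  classical
  induction m with
  | zero => exact ⟨fun i => i.elim0, fun i => i.elim0, fun i => i.elim0⟩
  | succ m ih =>
    obtain ⟨g, hg1, hg2⟩ := ih
    obtain ⟨a, haS, ha⟩ := h (Finset.univ.image g)
    have ha' : ∀ i, a * (g i)⁻¹ ∉ C := fun i => ha _ (by simp)
    have ha'' : ∀ i, g i * a⁻¹ ∉ C := by
      intro i hi
      apply ha' i
      have := C.inv_mem hi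
      simpa using this
    refine ⟨Fin.cons a g, ?_, ?_⟩
    · intro i
      refine Fin.cases ?_ (fun i => ?_) i
      · simpa using haS
      · simpa using hg1 i
    · intro i j hij
      induction i using Fin.cases with
      | zero =>
        induction j using Fin.cases with
        | zero => exact absurd rfl hij
        | succ j => simpa using ha' j
      | succ i =>
        induction j using Fin.cases with
        | zero => simpa using ha'' i
        | succ j =>
          have : i ≠ j := fun h => hij (by rw [h])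
          simpa using hg2 i j this

section manifold

variable {E : Type*} [NormedAddCommGroup E] [InnerProductSpace ℝ E] [FiniteDimensional ℝ E]
  {X : Type*} [TopologicalSpace X] [T2Space X] [ChartedSpace E X]
  [IsManifold 𝓘(ℝ, E) ∞ X]

/-- smooth compactly supported functions which are large on a compact set. -/
theorem exists_smooth_large {K : Set X} (hK : IsCompact K) :
    ∃ φ : X → ℝ, ContMDiff 𝓘(ℝ, E) 𝓘(ℝ, ℝ) ∞ φ ∧ HasCompactSupport φ ∧ (∀ x, 0 ≤ φ x) ∧
      ∀ x ∈ K, 3 ≤ φ x := by
  classical
  have key : ∀ x : X, ∃ φ : X → ℝ, ContMDiff 𝓘(ℝ, E) 𝓘(ℝ, ℝ) ∞ φ ∧ HasCompactSupport φ ∧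
      (∀ x, 0 ≤ φ x) ∧ {y | φ y = 1} ∈ 𝓝 x := by
    intro x
    obtain ⟨f⟩ : Nonempty (SmoothBumpFunction 𝓘(ℝ, E) x) := inferInstance
    exact ⟨f, f.contMDiff, f.hasCompactSupport, fun y => f.nonneg, f.eventuallyEq_one⟩
  choose f hf1 hf2 hf3 hf4 using key
  obtain ⟨t, -, ht⟩ := hK.elim_nhds_subcover _ fun x _ => hf4 x
  refine ⟨fun y => 3 * ∑ x ∈ t, f x y, ?_, ?_, ?_, ?_⟩
  · exact contMDiff_const.mul (contMDiff_finsetSum fun i _ => hf1 i)
  · refine HasCompactSupport.intro (K := ⋃ x ∈ t, tsupport (f x))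
      (t.isCompact_biUnion fun x _ => hf2 x) fun y hy => ?_
    simp only [mem_iUnion, not_exists] at hy
    have h0 : ∑ x ∈ t, f x y = 0 :=
      Finset.sum_eq_zero fun x hx => image_eq_zero_of_notMem_tsupport (hy x hx)
    rw [h0, mul_zero]
  · intro y
    exact mul_nonneg (by norm_num) (Finset.sum_nonneg fun i _ => hf3 i y)
  · intro y hy
    obtain ⟨x, hx, hxy⟩ := mem_iUnion₂.1 (ht hy)
    have h1 : f x y ≤ ∑ x ∈ t, f x y := Finset.single_le_sum (f := fun x => f x y)
      (fun i _ => hf3 i y) hx
    have h2 : f x y = 1 := hxy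
    linarith

end manifold

end Pool.Agent.ZSp
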