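import Pool.Agent.Work.MP_058ed1_gt.G.Defs
import Pool.Agent.Work.MP_058ed1_gt.G.TopAux

/-!
# Cell ZI, module T: topology of the action, ends, Foelner sets
-/

open scoped Manifold ContDiff Topology Bundle ENNReal NNReal
open Set MeasureTheory Bundle

set_option linter.unusedSectionVars false

noncomputable section

namespace Pool.Agent.ZSp

theorem folner_bdry {G : Type*} [Group G] {C : Subgroup G} (hC : Folner C) (T : Finset G)
    (ε : ℝ) (hε : 0 < ε) : ∃ F : Finset G, F.Nonempty ∧ (∀ c ∈ F, c ∈ C) ∧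
      ((bdry C T F).card : ℝ) ≤ ε * F.card := by
  classical
  set T' : Finset C := T.subtype (· ∈ C) with hT'
  have hpos : (0 : ℝ) < T'.card + 1 := by positivity
  obtain ⟨F, hF, hF'⟩ := hC T' (ε / (T'.card + 1)) (div_pos hε hpos)
  refine ⟨F.map ⟨Subtype.val, Subtype.val_injective⟩, by simpa using hF, ?_, ?_⟩
  · intro c hc
    simp only [Finset.mem_map, Function.Embedding.coeFn_mk] at hc
    obtain ⟨a, -, rfl⟩ := hc
    exact a.2
  · have h1 : bdry C T (F.map ⟨Subtype.val, Subtype.val_injective⟩) ⊆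
        (T'.biUnion fun t => (((F.image (fun c => t * c)) \ F).image (fun c => t⁻¹ * c))).map
          ⟨Subtype.val, Subtype.val_injective⟩ := by
      intro c hc
      simp only [bdry, Finset.mem_filter, Finset.mem_map, Function.Embedding.coeFn_mk] at hc
      obtain ⟨⟨a, ha, rfl⟩, t, ht, htC, htc⟩ := hc
      simp only [Finset.mem_map, Function.Embedding.coeFn_mk, Finset.mem_biUnion]
      refine ⟨a, ⟨⟨t, htC⟩, by simp [hT', ht], ?_⟩, rfl⟩
      simp only [Finset.mem_image, Finset.mem_sdiff]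
      refine ⟨⟨t, htC⟩ * a, ⟨⟨a, ha, rfl⟩, fun hcon => htc ⟨⟨t, htC⟩ * a, hcon, rfl⟩⟩, by group⟩
    have h2 := Finset.card_le_card h1
    rw [Finset.card_map] at h2
    have h3 : ((T'.biUnion fun t => (((F.image (fun c => t * c)) \ F).image
        (fun c => t⁻¹ * c))).card : ℝ) ≤ ∑ t ∈ T', ε / (T'.card + 1) * F.card := by
      refine le_trans (Nat.cast_le.2 Finset.card_biUnion_le) ?_
      push_cast
      apply Finset.sum_le_sum
      intro t ht
      refine le_trans ?_ (hF' t ht)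
      exact_mod_cast Finset.card_image_le
    rw [Finset.sum_const, nsmul_eq_mul] at h3
    rw [Finset.card_map]
    have h4 : (T'.card : ℝ) * (ε / (T'.card + 1) * F.card) ≤ ε * F.card := by
      have h5 : (T'.card : ℝ) * (ε / (T'.card + 1)) ≤ ε := by
        rw [mul_div_assoc', div_le_iff₀ hpos]
        nlinarith
      calc (T'.card : ℝ) * (ε / (T'.card + 1) * F.card)
          = ((T'.card : ℝ) * (ε / (T'.card + 1))) * F.card := by ring
        _ ≤ ε * F.card := by gcongr
    have h6 : ((bdry C T (F.map ⟨Subtype.val, Subtype.val_injective⟩)).card : ℝ) ≤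
      ((T'.biUnion fun t => (((F.image (fun c => t * c)) \ F).image
        (fun c => t⁻¹ * c))).card : ℝ) := by exact_mod_cast h2
    exact h6.trans (h3.trans h4)

/-- averaging over the subgroup `C`. -/
def sumC {G X : Type*} [Group G] [MulAction G X] (C : Subgroup G) (φ : X → ℝ) (x : X) : ℝ :=
  ∑ᶠ c : C, φ ((c : G) • x)

/-- the auxiliary function `ψ`: positive, `ψ(t) = t` for `t ≥ 1`. -/
def psiAux (t : ℝ) : ℝ := 1 + Real.smoothTransition t * (t - 1)

theorem psiAux_eq {t : ℝ} (h : 1 ≤ t) : psiAux t = t := by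
  rw [psiAux, Real.smoothTransition.one_of_one_le h]; ring

theorem psiAux_pos (t : ℝ) : 0 < psiAux t := by
  rcases le_or_gt 1 t with h | h
  · rw [psiAux_eq h]; linarith
  · rcases le_or_gt t 0 with h0 | h0
    · rw [psiAux, Real.smoothTransition.zero_of_nonpos h0]; norm_num
    · have h1 := Real.smoothTransition.lt_one_of_lt_one h
      have h2 := Real.smoothTransition.nonneg t
      rw [psiAux]
      nlinarith

theorem contDiff_psiAux : ContDiff ℝ ∞ psiAux := by
  unfold psiAux
  exact contDiff_const.add (Real.smoothTransition.contDiff.mul (contDiff_id.sub contDiff_const))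

section T

variable {E : Type*} [NormedAddCommGroup E] [InnerProductSpace ℝ E] [FiniteDimensional ℝ E]
  {G X : Type*} [Group G] [EMetricSpace X] [ChartedSpace E X]
  [IsManifold 𝓘(ℝ, E) ∞ X] [RiemannianBundle (fun x : X => TangentSpace 𝓘(ℝ, E) x)]
  [MulAction G X]

theorem IsomAction.finite (hA : IsomAction E G X) {A B : Set X} (hcA : IsCompact A)
    (hcB : IsCompact B) : {g : G | ∃ x ∈ A, g • x ∈ B}.Finite := by
  refine (hA.proper (A ∪ B) (hcA.union hcB)).subset ?_
  rintro g ⟨x, hx, hg⟩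
  exact ⟨g • x, ⟨x, Or.inl hx, rfl⟩, Or.inr hg⟩

theorem IsomAction.continuous (hA : IsomAction E G X) (g : G) :
    Continuous (fun x : X => g • x) := (hA.smooth g).continuous

theorem IsomAction.isCompact_image (hA : IsomAction E G X) (g : G) {K : Set X}
    (hK : IsCompact K) : IsCompact ((fun x => g • x) '' K) := hK.image (hA.continuous g)

theorem locallyFinite_sumC (hA : IsomAction E G X) (C : Subgroup G) {φ : X → ℝ}
    (hφ : HasCompactSupport φ) :
    LocallyFinite fun c : C => Function.support fun x : X => φ ((c : G) • x) := by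
  have : LocallyCompactSpace X := ChartedSpace.locallyCompactSpace E X
  intro x
  obtain ⟨N, hN, hNx⟩ := exists_compact_mem_nhds x
  refine ⟨N, hNx, ?_⟩
  refine ((hA.finite hN hφ).preimage (Subtype.val_injective.injOn (s := _))).subset ?_
  rintro c ⟨y, hy1, hy2⟩
  exact ⟨y, hy2, subset_tsupport _ hy1⟩

theorem contMDiff_sumC (hA : IsomAction E G X) (C : Subgroup G) {φ : X → ℝ}
    (hφ : HasCompactSupport φ) (hs : ContMDiff 𝓘(ℝ, E) 𝓘(ℝ, ℝ) ∞ φ) :
    ContMDiff 𝓘(ℝ, E) 𝓘(ℝ, ℝ) ∞ (sumC C φ) := by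
  unfold sumC
  apply contMDiff_finsum
  · intro c
    exact hs.comp (hA.smooth (c : G))
  · exact locallyFinite_sumC hA C hφ

theorem finite_support_sumC (hA : IsomAction E G X) (C : Subgroup G) {φ : X → ℝ}
    (hφ : HasCompactSupport φ) (x : X) :
    (Function.support fun c : C => φ ((c : G) • x)).Finite := by
  refine ((hA.finite (isCompact_singleton (x := x)) hφ).preimage
    (Subtype.val_injective.injOn (s := _))).subset ?_
  intro c hc
  exact ⟨x, rfl, subset_tsupport _ hc⟩

omit [EMetricSpace X] [ChartedSpace E X] [IsManifold 𝓘(ℝ, E) ∞ X]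
  [RiemannianBundle (fun x : X => TangentSpace 𝓘(ℝ, E) x)] in
theorem sumC_smul (C : Subgroup G) (φ : X → ℝ) (c : G) (hc : c ∈ C) (x : X) :
    sumC C φ (c • x) = sumC C φ x := by
  unfold sumC
  rw [← finsum_comp_equiv (Equiv.mulRight (⟨c, hc⟩ : C)) (f := fun a : C => φ ((a : G) • x))]
  apply finsum_congr
  intro a
  simp [mul_smul]

theorem le_sumC (hA : IsomAction E G X) (C : Subgroup G) {φ : X → ℝ}
    (hφ : HasCompactSupport φ) (hn : ∀ x, 0 ≤ φ x) (x : X) : φ x ≤ sumC C φ x := by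
  have := single_le_finsum (f := fun c : C => φ ((c : G) • x)) 1 (finite_support_sumC hA C hφ x)
    fun _ => hn _
  unfold sumC
  simpa using this

omit [IsManifold 𝓘(ℝ, E) ∞ X] [RiemannianBundle (fun x : X => TangentSpace 𝓘(ℝ, E) x)] in
/-- a form coming from a locally constant function has derivative zero. -/
theorem extD_ofFun_eq_zero {u : X → ℝ} {x : X} {a : ℝ} (h : ∀ᶠ y in 𝓝 x, u y = a) :
    extD (ofFun E u) x = 0 := by
  have h1 : ∀ᶠ z in 𝓝 (ch E x x), u ((ch E x).symm z) = a := by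
    have hc : ContinuousAt (ch E x).symm (ch E x x) := continuousAt_extChartAt_symm x
    have h2 : (ch E x).symm (ch E x x) = x := extChartAt_to_inv x
    exact hc.eventually (by rw [h2]; exact h)
  have h2 : inChart (ofFun E u) x =ᶠ[𝓝 (ch E x x)]
      fun z => ContinuousAlternatingMap.constOfIsEmpty ℝ E (Fin 0) ((fun _ => a) z) := by
    filter_upwards [h1] with z hz
    ext v
    simpa [inChart, ofFun] using hz
  rw [extD, h2.extDeriv_eq, extDeriv_constOfIsEmpty]
  simp
  rfl

theorem exists_endFun [ConnectedSpace X] (hA : IsomAction E G X) (C : Subgroup G)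
    (hE : TwoEnds C X) (K : Set X) (hK : IsCompact K) :
    ∃ u φ : X → ℝ, EndFun E C u φ ∧
      (∀ m : ℕ, ∃ g : Fin m → G, (∀ i j, i ≠ j → g i * (g j)⁻¹ ∉ C) ∧
        ∀ i, ∀ x ∈ K, u (g i • x) = 1) ∧
      (∀ m : ℕ, ∃ g : Fin m → G, (∀ i j, i ≠ j → g i * (g j)⁻¹ ∉ C) ∧
        ∀ i, ∀ x ∈ K, u (g i • x) = 0) := by
  classical
  have : LocallyCompactSpace X := ChartedSpace.locallyCompactSpace E X
  have : LocallyPathConnectedSpace X := ChartedSpace.locallyPathConnectedSpace E X
  obtain ⟨K0, A, B, hK0, hAo, hBo, hAB, hAC, hBC, hABK, hAL, hBL⟩ := hE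
  obtain ⟨φ1, hs1, hc1, hn1, hl1⟩ := exists_smooth_large (E := E) hK0
  set Φ : X → ℝ := sumC C φ1 with hΦ
  have hΦs : ContMDiff 𝓘(ℝ, E) 𝓘(ℝ, ℝ) ∞ Φ := contMDiff_sumC hA C hc1 hs1
  have hΦc : Continuous Φ := hΦs.continuous
  have hΦinv : ∀ c ∈ C, ∀ x, Φ (c • x) = Φ x := fun c hc x => sumC_smul C φ1 c hc x
  have hΦ3 : ∀ x, x ∉ A → x ∉ B → 3 ≤ Φ x := by
    intro x hxA hxB
    have h1 : x ∉ A ∪ B := by simp [hxA, hxB]
    rw [hABK] at h1
    simp only [mem_compl_iff, mem_ofPred_eq, not_not] at h1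
    obtain ⟨c, hc, hcx⟩ := h1
    rw [← hΦinv c hc x]
    exact (hl1 _ hcx).trans (le_sumC hA C hc1 hn1 _)
  set κ : X → ℝ := fun x => Real.smoothTransition (Φ x - 1) with hκ
  have hκs : ContMDiff 𝓘(ℝ, E) 𝓘(ℝ, ℝ) ∞ κ := by
    have h1 : ContDiff ℝ ∞ (fun t : ℝ => Real.smoothTransition (t - 1)) :=
      Real.smoothTransition.contDiff.comp (contDiff_id.sub contDiff_const)
    exact h1.contMDiff.comp hΦs
  set u : X → ℝ := fun x => if x ∈ A then 1 - κ x else 0 with hu
  -- local description of `u`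
  have huA : ∀ x ∈ A, u =ᶠ[𝓝 x] fun y => 1 - κ y := by
    intro x hx
    filter_upwards [hAo.mem_nhds hx] with y hy
    simp [hu, hy]
  have huB : ∀ x ∈ B, u =ᶠ[𝓝 x] fun y => 0 := by
    intro x hx
    filter_upwards [hBo.mem_nhds hx] with y hy
    have : y ∉ A := fun h => (disjoint_left.1 hAB) h hy
    simp [hu, this]
  have huN : ∀ x, 2 < Φ x → u =ᶠ[𝓝 x] fun y => 0 := by
    intro x hx
    filter_upwards [(isOpen_lt continuous_const hΦc).mem_nhds hx] with y hy
    have h1 : κ y = 1 := Real.smoothTransition.one_of_one_le (by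
      have : 2 < Φ y := hy
      linarith)
    simp [hu, h1]
  have hus : ContMDiff 𝓘(ℝ, E) 𝓘(ℝ, ℝ) ∞ u := by
    intro x
    by_cases hxA : x ∈ A
    · exact ((contMDiff_const.sub hκs) x).congr_of_eventuallyEq (huA x hxA)
    · by_cases hxB : x ∈ B
      · exact (contMDiff_const x).congr_of_eventuallyEq (huB x hxB)
      · have := hΦ3 x hxA hxB
        exact (contMDiff_const x).congr_of_eventuallyEq (huN x (by linarith))
  have hκ0 : ∀ x, 0 ≤ κ x := fun x => Real.smoothTransition.nonneg _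
  have hκ1 : ∀ x, κ x ≤ 1 := fun x => Real.smoothTransition.le_one _
  have hAiff : ∀ c ∈ C, ∀ x, (c • x ∈ A ↔ x ∈ A) := by
    intro c hc x
    refine ⟨fun h => ?_, hAC c hc x⟩
    have := hAC c⁻¹ (C.inv_mem hc) _ h
    simpa using this
  set φ : X → ℝ := fun x => φ1 x * (psiAux (Φ x))⁻¹ with hφ
  have hEF : EndFun E C u φ := by
    refine ⟨hus, ?_, ?_, ?_, ?_, ?_, ?_⟩
    · intro c hc x
      simp only [hu, hκ, hAiff c hc x, hΦinv c hc x]
    · intro x
      simp only [hu]
      split_ifs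
      · linarith [hκ1 x]
      · exact le_rfl
    · intro x
      simp only [hu]
      split_ifs
      · linarith [hκ0 x]
      · exact zero_le_one
    · have h1 : ContDiff ℝ ∞ (fun t : ℝ => (psiAux t)⁻¹) :=
        contDiff_psiAux.inv fun t => (psiAux_pos t).ne'
      exact hs1.mul (h1.contMDiff.comp hΦs)
    · exact hc1.mul_right
    · intro x hx
      have hΦ1 : 1 ≤ Φ x := by
        by_contra hlt
        push Not at hlt
        apply hx
        have hev : ∀ᶠ y in 𝓝 x, κ y = 0 := by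
          filter_upwards [(isOpen_lt hΦc continuous_const).mem_nhds hlt] with y hy
          exact Real.smoothTransition.zero_of_nonpos (by
            have : Φ y < 1 := hy
            linarith)
        by_cases hxA : x ∈ A
        · apply extD_ofFun_eq_zero (a := 1)
          filter_upwards [huA x hxA, hev] with y h1 h2
          rw [h1, h2, sub_zero]
        · by_cases hxB : x ∈ B
          · exact extD_ofFun_eq_zero (a := 0) (huB x hxB)
          · have := hΦ3 x hxA hxB
            linarith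
      have h1 : ∀ c : C, φ ((c : G) • x) = φ1 ((c : G) • x) * (psiAux (Φ x))⁻¹ := by
        intro c
        simp only [hφ]
        rw [hΦinv c c.2 x]
      simp only [h1]
      rw [← finsum_mul, psiAux_eq hΦ1]
      have h2 : ∑ᶠ c : C, φ1 ((c : G) • x) = Φ x := rfl
      rw [h2]
      exact mul_inv_cancel₀ (by linarith)
  -- the cosets
  obtain ⟨Kc, hKc, hcov⟩ := hA.cocompact
  obtain ⟨K1, hK1, hK1p, hK1s⟩ := exists_compact_preconnected_superset (hK.union hKc)
  have hH := hA.finite hK1 hc1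
  have hΦ0 : ∀ x, (∀ c ∈ C, c • x ∉ tsupport φ1) → Φ x = 0 := by
    intro x hx
    have : ∀ c : C, φ1 ((c : G) • x) = 0 := fun c =>
      image_eq_zero_of_notMem_tsupport (hx c c.2)
    rw [hΦ, sumC]
    simp only [this, finsum_zero]
  -- main counting statement
  have count : ∀ P Q : Set X, IsOpen P → IsOpen Q → Disjoint P Q → P ∪ Q = A ∪ B →
      (∀ L : Set X, IsCompact L → ¬ P ⊆ {x | ∃ c ∈ C, c • x ∈ L}) →
      ∀ m : ℕ, ∃ g : Fin m → G, (∀ i, g i ∈ {g : G | ∀ y ∈ K1, g • y ∈ P ∧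
        ∀ c ∈ C, c • g • y ∉ tsupport φ1}) ∧ ∀ i j, i ≠ j → g i * (g j)⁻¹ ∉ C := by
    intro P Q hPo hQo hPQ hPQA hPL m
    apply exists_cosets
    intro F
    by_contra hcon
    push Not at hcon
    refine hPL ((⋃ f ∈ F, (fun x => f • x) '' K1) ∪
      (⋃ f ∈ hH.toFinset, (fun x => f • x) '' K1)) ?_ ?_
    · exact (F.isCompact_biUnion fun f _ => hA.isCompact_image f hK1).union
        (hH.toFinset.isCompact_biUnion fun f _ => hA.isCompact_image f hK1)
    · intro x hx
      obtain ⟨g0, hg0⟩ := hcov x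
      set y := g0 • x with hy
      have hyK : y ∈ K1 := hK1s (Or.inr hg0)
      have hxy : x = g0⁻¹ • y := by rw [hy, inv_smul_smul]
      by_cases hbad : ∃ y' ∈ K1, ∃ c ∈ C, c • g0⁻¹ • y' ∈ tsupport φ1
      · obtain ⟨y', hy', c, hc, hcy'⟩ := hbad
        refine ⟨c, hc, Or.inr ?_⟩
        refine mem_iUnion₂.2 ⟨c * g0⁻¹, ?_, y, hyK, ?_⟩
        · rw [Finite.mem_toFinset]
          exact ⟨y', hy', by rw [mul_smul]; exact hcy'⟩
        · show (c * g0⁻¹) • y = c • x
          rw [mul_smul, hxy]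
      · push Not at hbad
        have hsub : (fun x => g0⁻¹ • x) '' K1 ⊆ P ∪ Q := by
          rintro _ ⟨y', hy', rfl⟩
          rw [hPQA, hABK]
          rintro ⟨c, hc, hcy⟩
          refine hbad y' hy' c hc ?_
          apply subset_tsupport
          have := hl1 _ hcy
          simp only [Function.mem_support]
          intro h0
          rw [h0] at this
          linarith
        have hpre : IsPreconnected ((fun x => g0⁻¹ • x) '' K1) :=
          hK1p.image _ (hA.continuous g0⁻¹).continuousOn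
        have hsubP : (fun x => g0⁻¹ • x) '' K1 ⊆ P := by
          refine hpre.subset_left_of_subset_union hPo hQo hPQ hsub ⟨x, ⟨y, hyK, hxy.symm⟩, hx⟩
        have hmem : g0⁻¹ ∈ {g : G | ∀ y ∈ K1, g • y ∈ P ∧
            ∀ c ∈ C, c • g • y ∉ tsupport φ1} := by
          intro y' hy'
          exact ⟨hsubP ⟨y', hy', rfl⟩, fun c hc => hbad y' hy' c hc⟩
        obtain ⟨f, hf, hfC⟩ := hcon _ hmem
        refine ⟨(g0⁻¹ * f⁻¹)⁻¹, C.inv_mem hfC, Or.inl ?_⟩
        refine mem_iUnion₂.2 ⟨f, hf, y, hyK, ?_⟩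
        show f • y = (g0⁻¹ * f⁻¹)⁻¹ • x
        rw [hxy, smul_smul]
        congr 1
        group
  refine ⟨u, φ, hEF, ?_, ?_⟩
  · intro m
    obtain ⟨g, hg1, hg2⟩ := count A B hAo hBo hAB rfl hAL m
    refine ⟨g, hg2, fun i x hx => ?_⟩
    obtain ⟨h1, h2⟩ := hg1 i x (hK1s (Or.inl hx))
    have h3 : Φ (g i • x) = 0 := hΦ0 _ h2
    have h4 : κ (g i • x) = 0 := Real.smoothTransition.zero_of_nonpos (by rw [h3]; norm_num)
    simp only [hu, h1, if_true, h4, sub_zero]
  · intro m
    obtain ⟨g, hg1, hg2⟩ := count B A hBo hAo hAB.symm (union_comm _ _) hBL m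
    refine ⟨g, hg2, fun i x hx => ?_⟩
    obtain ⟨h1, h2⟩ := hg1 i x (hK1s (Or.inl hx))
    have h3 : g i • x ∉ A := fun h => (disjoint_left.1 hAB) h h1
    simp only [hu, h3, if_false]

end T

end Pool.Agent.ZSp
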