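import Pool.Agent.Work.MP_058ed1_gt.G.Alpha
import Pool.Agent.Work.MP_058ed1_gt.G.Poin
import Pool.Agent.Work.MP_058ed1_gt.G.Top

/-!
# The endgame: amenable subgroup with two ends, no bounded inverse on `1`-forms
-/

open scoped Manifold ContDiff Topology Bundle ENNReal NNReal
open Set MeasureTheory Bundle

set_option linter.unusedSectionVars false

noncomputable section

namespace Pool.Agent.ZSp

variable {E : Type*} [NormedAddCommGroup E] [InnerProductSpace ℝ E] [FiniteDimensional ℝ E]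
  {G X : Type*} [Group G] [EMetricSpace X] [ChartedSpace E X]
  [IsManifold 𝓘(ℝ, E) ∞ X] [RiemannianBundle (fun x : X => TangentSpace 𝓘(ℝ, E) x)]
  [IsContMDiffRiemannianBundle 𝓘(ℝ, E) ∞ E (fun x : X => TangentSpace 𝓘(ℝ, E) x)]
  [IsRiemannianManifold 𝓘(ℝ, E) X] [MeasurableSpace X] [BorelSpace X]
  [MulAction G X]

/-- average of `f` over `g B`. -/
def av (E : Type*) [NormedAddCommGroup E] [InnerProductSpace ℝ E] {G X : Type*} [Group G] [EMetricSpace X] [MeasurableSpace X] [BorelSpace X]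
    [MulAction G X] (B : Set X) (f : X → ℝ) (g : G) : ℝ :=
  ⨍ x in B, f (g • x) ∂(vol E X)

theorem av_eq (B : Set X) (f : X → ℝ) (g : G) :
    av E B f g = ((vol E X).real B)⁻¹ * ∫ x in B, f (g • x) ∂(vol E X) := by
  unfold av
  rw [setAverage_eq, smul_eq_mul]

theorem integrableOn_smul (hA : IsomAction E G X) {B : Set X} (hB : IsCompact B) {f : X → ℝ}
    (hf : Continuous f) (g : G) : IntegrableOn (fun x => f (g • x)) B (vol E X) :=
  (hf.comp (hA.continuous_act g)).continuousOn.integrableOn_compact hB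

theorem av_sub (hA : IsomAction E G X) {B : Set X} (hB : IsCompact B) {f f' : X → ℝ}
    (hf : Continuous f) (hf' : Continuous f') (g : G) :
    av E B (fun x => f x - f' x) g = av E B f g - av E B f' g := by
  rw [av_eq, av_eq, av_eq, integral_sub (integrableOn_smul hA hB hf g)
    (integrableOn_smul hA hB hf' g)]
  ring

theorem av_sq_le (hA : IsomAction E G X) {B : Set X} (hB : IsCompact B)
    (hp : 0 < (vol E X).real B) {f : X → ℝ} (hf : Continuous f) (g : G) :
    (av E B f g) ^ 2 ≤ ((vol E X).real B)⁻¹ * ∫ x in B, (f (g • x)) ^ 2 ∂(vol E X) := by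
  have hi := integrableOn_smul hA hB hf g
  have hi2 : IntegrableOn (fun x => (f (g • x)) ^ 2) B (vol E X) :=
    integrableOn_smul hA hB (f := fun x => f x ^ 2) (hf.pow 2) g
  have hm0 := av_eq (E := E) B f g
  generalize hv : (vol E X).real B = v at *
  generalize av E B f g = m at *
  have hm' : ∫ x in B, f (g • x) ∂(vol E X) = v * m := by
    rw [hm0]; field_simp
  have h0 : 0 ≤ ∫ x in B, (f (g • x) - m) ^ 2 ∂(vol E X) :=
    integral_nonneg fun x => sq_nonneg _
  have h1 : ∫ x in B, (f (g • x) - m) ^ 2 ∂(vol E X) =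
      ∫ x in B, (f (g • x)) ^ 2 ∂(vol E X) - v * m ^ 2 := by
    have e1 : ∀ x, (f (g • x) - m) ^ 2 = (f (g • x)) ^ 2 - (2 * m) * f (g • x) + m ^ 2 := by
      intro x; ring
    have hfin : IsFiniteMeasure ((vol E X).restrict B) := ⟨by
      rw [Measure.restrict_apply_univ]; exact hB.measure_lt_top⟩
    have i1 : Integrable (fun x => (2 * m) * f (g • x)) ((vol E X).restrict B) := hi.const_mul _
    have i2 : Integrable (fun x => (f (g • x)) ^ 2 - (2 * m) * f (g • x))
      ((vol E X).restrict B) := hi2.sub i1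
    simp_rw [e1]
    rw [integral_add i2 (integrable_const _), integral_sub hi2 i1, integral_const_mul, hm',
      integral_const]
    simp only [measureReal_restrict_apply_univ, smul_eq_mul, hv]
    ring
  rw [h1] at h0
  rw [inv_mul_eq_div, le_div_iff₀ hp]
  linarith

theorem pin_ofFun (f : X → ℝ) (x : X) : pin (ofFun E f) (ofFun E f) x = f x ^ 2 := by
  rw [sq]; exact ainner_zero_form _ _

/-- sum of the squares of the averages over different translates. -/
theorem sum_av_sq_le (hA : IsomAction E G X) {B : Set X} (hB : IsCompact B)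
    (hp : 0 < (vol E X).real B) : ∃ N : ℝ, 0 ≤ N ∧ ∀ (Z : Finset G) (f : X → ℝ),
      Continuous f → Integrable (fun x => f x ^ 2) (vol E X) →
      ∑ g ∈ Z, (av E B f g) ^ 2 ≤ N * ∫ x, f x ^ 2 ∂(vol E X) := by
  obtain ⟨N, hN, H⟩ := sum_setIntegral_smul_le hA B hB
  refine ⟨((vol E X).real B)⁻¹ * N, by positivity, ?_⟩
  intro Z f hf hfi
  calc ∑ g ∈ Z, (av E B f g) ^ 2
      ≤ ∑ g ∈ Z, ((vol E X).real B)⁻¹ * ∫ x in B, (f (g • x)) ^ 2 ∂(vol E X) :=
        Finset.sum_le_sum fun g _ => av_sq_le hA hB hp hf g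
    _ = ((vol E X).real B)⁻¹ * ∑ g ∈ Z, ∫ x in B, (f (g • x)) ^ 2 ∂(vol E X) := by
        rw [Finset.mul_sum]
    _ ≤ ((vol E X).real B)⁻¹ * (N * ∫ x, f x ^ 2 ∂(vol E X)) := by
        gcongr
        exact H Z (fun x => f x ^ 2) (fun x => sq_nonneg _) hfi
    _ = _ := by ring

theorem average_image (hA : IsomAction E G X) (B : Set X) (f : X → ℝ) (g : G) :
    ⨍ x in (fun x : X => g • x) '' B, f x ∂(vol E X) = av E B f g := by
  have hmp := measurePreserving_smul' hA g
  have hemb : MeasurableEmbedding (fun x : X => g • x) := (hA.homeo g).measurableEmbedding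
  have h1 : (vol E X).real ((fun x : X => g • x) '' B) = (vol E X).real B := by
    unfold Measure.real
    rw [← hmp.measure_preimage_emb hemb]
    congr 2
    exact preimage_image_eq _ (hA.homeo g).injective
  rw [setAverage_eq, smul_eq_mul, av_eq, h1, hmp.setIntegral_image_emb hemb]

theorem extD_comp_smul (hA : IsomAction E G X) {f : X → ℝ}
    (hf : ContMDiff 𝓘(ℝ, E) 𝓘(ℝ, ℝ) ∞ f) (g : G) (x : X) :
    pin (extD (ofFun E (fun x : X => f (g • x)))) (extD (ofFun E (fun x : X => f (g • x)))) x =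
      pin (extD (ofFun E f)) (extD (ofFun E f)) (g • x) := by
  have h : ofFun E (fun x : X => f (g • x)) = gpull g (ofFun E f) := rfl
  rw [h]
  show pin (extD (pull _ _)) (extD (pull _ _)) x = _
  rw [extD_pull (smoothForm_ofFun hf) (hA.smooth g)]
  exact pin_gpull hA g _ _ x

/-- the chain inequality, transported by the group. -/
theorem chain_smul [ConnectedSpace X] (hA : IsomAction E G X) {B : Set X} (hB : IsCompact B)
    (hp : 0 < (vol E X).real B) (g₀ : G) : ∃ K : Set X, IsCompact K ∧ ∃ C : ℝ, 0 ≤ C ∧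
      ∀ f : X → ℝ, ContMDiff 𝓘(ℝ, E) 𝓘(ℝ, ℝ) ∞ f → ∀ c : G,
        (av E B f (c⁻¹ * g₀) - av E B f c⁻¹) ^ 2 ≤
          C * ∫ x in K, pin (extD (ofFun E f)) (extD (ofFun E f)) (c⁻¹ • x) ∂(vol E X) := by
  have hmp := measurePreserving_smul' hA g₀
  have hemb : MeasurableEmbedding (fun x : X => g₀ • x) := (hA.homeo g₀).measurableEmbedding
  have hB' : IsCompact ((fun x : X => g₀ • x) '' B) := hB.image (hA.continuous_act g₀)
  have hpos : 0 < vol E X B := by
    rw [pos_iff_ne_zero]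
    intro h
    unfold Measure.real at hp
    rw [h] at hp; simp at hp
  have hpos' : 0 < vol E X ((fun x : X => g₀ • x) '' B) := by
    rw [← hmp.measure_preimage_emb hemb, preimage_image_eq _ (MulAction.injective g₀)]
    exact hpos
  obtain ⟨K, hK, C, hC, H⟩ := poincare_chain (E := E) ((fun x : X => g₀ • x) '' B) B
    hB'.isClosed.measurableSet hB.isClosed.measurableSet (by rwa [hB'.isClosed.closure_eq])
    (by rwa [hB.isClosed.closure_eq]) hpos' hpos
  refine ⟨K, hK, C, hC, ?_⟩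
  intro f hf c
  have hfc : ContMDiff 𝓘(ℝ, E) 𝓘(ℝ, ℝ) ∞ (fun x : X => f (c⁻¹ • x)) := hf.comp (hA.smooth c⁻¹)
  have := H (fun x : X => f (c⁻¹ • x)) hfc
  rw [average_image hA] at this
  have e1 : av E B (fun x : X => f (c⁻¹ • x)) g₀ = av E B f (c⁻¹ * g₀) := by
    unfold av; simp_rw [mul_smul]
  rw [e1] at this
  refine this.trans (le_of_eq ?_)
  congr 1
  apply integral_congr_ae
  exact Filter.Eventually.of_forall fun x => extD_comp_smul hA hf c⁻¹ x

theorem bdry_mono {C : Subgroup G} {T T' F : Finset G} (h : T ⊆ T') : bdry C T F ⊆ bdry C T' F := by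
  classical
  intro c hc
  unfold bdry at hc ⊢
  rw [Finset.mem_filter] at hc ⊢
  obtain ⟨hcF, t, ht, htC, htF⟩ := hc
  exact ⟨hcF, t, h ht, htC, htF⟩

theorem bdry_subset (C : Subgroup G) (T F : Finset G) : bdry C T F ⊆ F := by
  classical
  unfold bdry; exact Finset.filter_subset _ _

theorem ainner_neg_self {V : Type*} [NormedAddCommGroup V] [InnerProductSpace ℝ V]
    [FiniteDimensional ℝ V] {p : ℕ} (a : V [⋀^Fin p]→L[ℝ] ℝ) :
    ainner (-a) (-a) = ainner a a := by
  unfold ainner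
  congr 1
  exact Finset.sum_congr rfl fun i _ => by
    rw [ContinuousAlternatingMap.neg_apply]; ring

/-- one translate: `V_i - V_0` is close to `U_i - U_0`. -/
theorem one_translate [ConnectedSpace X] (hA : IsomAction E G X) (C : Subgroup G) {u φ : X → ℝ}
    (h : EndFun E C u φ) {B : Set X} (hB : IsCompact B) (hp : 0 < (vol E X).real B) (g₀ : G) :
    ∃ M : ℝ, 0 ≤ M ∧ ∃ T : Finset G, ∀ F : Finset G, (∀ c ∈ F, c ∈ C) → F.Nonempty →
      ∀ f : X → ℝ, ContMDiff 𝓘(ℝ, E) 𝓘(ℝ, ℝ) ∞ f → ofFun E f ∈ OmegaC E X 0 →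
      ((∑ c ∈ F, av E B f (c⁻¹ * g₀)) - (∑ c ∈ F, av E B f c⁻¹) -
        F.card * (av E B u g₀ - av E B u (1 : G))) ^ 2 ≤
        M * F.card * l2 (alpha E u φ F - extD (ofFun E f)) (alpha E u φ F - extD (ofFun E f)) +
        M * (bdry C T F).card * (l2 (ofFun E f) (ofFun E f) + F.card) := by
  classical
  obtain ⟨K, hK, D, hD, H⟩ := chain_smul hA hB hp g₀
  obtain ⟨T, hT⟩ := alpha_eq hA C h K hK
  obtain ⟨N₁, hN₁, H₁⟩ := sum_setIntegral_smul_le hA K hK
  obtain ⟨N₂, hN₂, H₂⟩ := sum_av_sq_le hA hB hp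
  refine ⟨2 * D * N₁ + 12 * N₂ + 6, by positivity, T, ?_⟩
  intro F hF hFne f hf hfc
  set w : X → ℝ := fun x => f x - u x with hw
  have hws : ContMDiff 𝓘(ℝ, E) 𝓘(ℝ, ℝ) ∞ w := hf.sub h.u_smooth
  set a : G → ℝ := fun c => av E B w (c⁻¹ * g₀) - av E B w c⁻¹ with ha
  set U : ℝ := av E B u g₀ - av E B u (1 : G) with hU
  have huc : ∀ c ∈ C, ∀ g : G, av E B u (c⁻¹ * g) = av E B u g := by
    intro c hc g
    unfold av
    congr 1
    funext x
    rw [mul_smul]
    exact h.u_inv c⁻¹ (C.inv_mem hc) _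
  have ha' : ∀ c ∈ F, a c = av E B f (c⁻¹ * g₀) - av E B f c⁻¹ - U := by
    intro c hc
    have h1 := av_sub hA hB hf.continuous h.u_smooth.continuous (c⁻¹ * g₀)
    have h2 := av_sub hA hB hf.continuous h.u_smooth.continuous c⁻¹
    have h3 := huc c (hF c hc) g₀
    have h4 := huc c (hF c hc) 1
    rw [mul_one] at h4
    simp only [ha, hw]
    rw [h1, h2, h3, h4, hU]
    ring
  have hsum : (∑ c ∈ F, av E B f (c⁻¹ * g₀)) - (∑ c ∈ F, av E B f c⁻¹) - F.card * U =
      ∑ c ∈ F, a c := by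
    rw [Finset.sum_congr rfl ha', Finset.sum_sub_distrib, Finset.sum_sub_distrib,
      Finset.sum_const, nsmul_eq_mul]
  rw [hsum]
  set bad := bdry C T F with hbad
  set good := F \ bad with hgood
  have hsplit : ∑ c ∈ F, a c = ∑ c ∈ good, a c + ∑ c ∈ bad, a c := by
    rw [hgood, Finset.sum_sdiff (bdry_subset C T F)]
  rw [hsplit]
  -- good part
  have hdw : ∀ x, extD (ofFun E w) x = extD (ofFun E f) x - extD (ofFun E u) x := by
    intro x
    have e : ofFun E w = ofFun E f + (-1 : ℝ) • ofFun E u := by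
      funext x
      ext v
      show f x - u x = f x + (-1 : ℝ) • u x
      simp [sub_eq_add_neg]
    rw [e, extD_add (smoothForm_ofFun hf) ((smoothForm_ofFun h.u_smooth).smul _),
      extD_smul (smoothForm_ofFun h.u_smooth)]
    show extD (ofFun E f) x + (-1 : ℝ) • extD (ofFun E u) x = _
    rw [neg_one_smul ℝ (extD (ofFun E u) x), sub_eq_add_neg]
  set β := alpha E u φ F - extD (ofFun E f) with hβ
  have hβm : β ∈ OmegaC E X 1 := Submodule.sub_mem _ (alpha_mem hA h F) (extD_mem hfc)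
  have hpinβ : ∀ c ∈ good, ∀ x ∈ K, pin (extD (ofFun E w)) (extD (ofFun E w)) (c⁻¹ • x) =
      pin β β (c⁻¹ • x) := by
    intro c hc x hx
    rw [hgood, Finset.mem_sdiff] at hc
    have e1 := hT F hF c hc.1 hc.2 x hx
    have e2 : β (c⁻¹ • x) = - extD (ofFun E w) (c⁻¹ • x) := by
      rw [hdw]
      show alpha E u φ F (c⁻¹ • x) - extD (ofFun E f) (c⁻¹ • x) = _
      rw [e1]; abel
    show ainner _ _ = ainner _ _
    rw [e2]
    rw [ainner_neg_self]
  have hg1 : ∑ c ∈ good, a c ^ 2 ≤ D * N₁ * l2 β β := by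
    calc ∑ c ∈ good, a c ^ 2
        ≤ ∑ c ∈ good, D * ∫ x in K, pin β β (c⁻¹ • x) ∂(vol E X) := by
          apply Finset.sum_le_sum
          intro c hc
          refine (H w hws c).trans (le_of_eq ?_)
          congr 1
          exact setIntegral_congr_fun hK.isClosed.measurableSet fun x hx => hpinβ c hc x hx
      _ = D * ∑ c ∈ good.image (fun c => c⁻¹), ∫ x in K, pin β β (c • x) ∂(vol E X) := by
          rw [Finset.sum_image (fun _ _ _ _ hab => inv_injective hab), Finset.mul_sum]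
      _ ≤ D * (N₁ * ∫ x, pin β β x ∂(vol E X)) := by
          gcongr
          exact H₁ _ _ (pin_self_nonneg β) (integrable_pin hβm hβm)
      _ = D * N₁ * l2 β β := by unfold l2; ring
  have hg2 : (∑ c ∈ good, a c) ^ 2 ≤ F.card * (D * N₁ * l2 β β) := by
    have hc : (good.card : ℝ) ≤ F.card := by
      exact_mod_cast Finset.card_le_card (Finset.sdiff_subset)
    calc (∑ c ∈ good, a c) ^ 2 ≤ good.card * ∑ c ∈ good, a c ^ 2 :=
          sq_sum_le_card_mul_sum_sq
      _ ≤ F.card * (D * N₁ * l2 β β) := by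
          apply mul_le_mul hc hg1 (Finset.sum_nonneg fun _ _ => sq_nonneg _) (by positivity)
  -- bad part
  have hfint : Integrable (fun x => f x ^ 2) (vol E X) := by
    have := integrable_pin hfc hfc
    have e : pin (ofFun E f) (ofFun E f) = fun x => f x ^ 2 := by funext x; exact pin_ofFun f x
    rwa [e] at this
  have hl2 : ∫ x, f x ^ 2 ∂(vol E X) = l2 (ofFun E f) (ofFun E f) := by
    unfold l2
    exact integral_congr_ae (Filter.Eventually.of_forall fun x => (pin_ofFun f x).symm)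
  have hU1 : |U| ≤ 1 := by
    have hav : ∀ g : G, 0 ≤ av E B u g ∧ av E B u g ≤ 1 := by
      intro g
      rw [av_eq]
      have hi := integrableOn_smul hA hB h.u_smooth.continuous g
      have hfin : IsFiniteMeasure ((vol E X).restrict B) := ⟨by
        rw [Measure.restrict_apply_univ]; exact hB.measure_lt_top⟩
      refine ⟨mul_nonneg (by positivity) (integral_nonneg fun x => h.u_nonneg _), ?_⟩
      rw [inv_mul_eq_div, div_le_one hp]
      calc ∫ x in B, u (g • x) ∂(vol E X) ≤ ∫ x in B, (1 : ℝ) ∂(vol E X) :=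
            integral_mono hi (integrable_const _) fun x => h.u_le_one _
        _ = (vol E X).real B := by simp
    have h1 := hav g₀
    have h2 := hav 1
    rw [abs_le]
    constructor <;> linarith [h1.1, h1.2, h2.1, h2.2]
  have hb0 : ∀ g₁ : G, ∑ c ∈ bad, (av E B f (c⁻¹ * g₁)) ^ 2 ≤ N₂ * l2 (ofFun E f) (ofFun E f) := by
    intro g₁
    have := H₂ (bad.image (fun c => c⁻¹ * g₁)) f hf.continuous hfint
    rw [hl2, Finset.sum_image (fun _ _ _ _ hab => inv_injective (mul_right_cancel hab))] at this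
    exact this
  have hb1 : ∑ c ∈ bad, a c ^ 2 ≤ 6 * N₂ * l2 (ofFun E f) (ofFun E f) + 3 * F.card := by
    have hbF : (bad.card : ℝ) ≤ F.card := by exact_mod_cast Finset.card_le_card (bdry_subset C T F)
    have h1 := hb0 g₀
    have h2 := hb0 1
    simp only [mul_one] at h2
    calc ∑ c ∈ bad, a c ^ 2
        ≤ ∑ c ∈ bad, (3 * (av E B f (c⁻¹ * g₀)) ^ 2 + 3 * (av E B f c⁻¹) ^ 2 + 3) := by
          apply Finset.sum_le_sum
          intro c hc
          rw [ha' c (bdry_subset C T F hc)]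
          have hU2 : U ^ 2 ≤ 1 := by
            rw [← sq_abs]; nlinarith [abs_nonneg U]
          nlinarith [sq_nonneg (av E B f (c⁻¹ * g₀) + av E B f c⁻¹),
            sq_nonneg (av E B f (c⁻¹ * g₀) + U), sq_nonneg (av E B f c⁻¹ - U)]
      _ = 3 * ∑ c ∈ bad, (av E B f (c⁻¹ * g₀)) ^ 2 + 3 * ∑ c ∈ bad, (av E B f c⁻¹) ^ 2 +
          3 * bad.card := by
          rw [Finset.sum_add_distrib, Finset.sum_add_distrib, Finset.mul_sum, Finset.mul_sum,
            Finset.sum_const, nsmul_eq_mul]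
          ring
      _ ≤ _ := by nlinarith
  have hb2 : (∑ c ∈ bad, a c) ^ 2 ≤ bad.card *
      (6 * N₂ * l2 (ofFun E f) (ofFun E f) + 3 * F.card) := by
    calc (∑ c ∈ bad, a c) ^ 2 ≤ bad.card * ∑ c ∈ bad, a c ^ 2 :=
          sq_sum_le_card_mul_sum_sq
      _ ≤ _ := by gcongr
  have hlf : 0 ≤ l2 (ofFun E f) (ofFun E f) := l2_self_nonneg _
  have hlβ : 0 ≤ l2 β β := l2_self_nonneg _
  have hc0 : (0 : ℝ) ≤ F.card := by positivity
  have hbc : (0 : ℝ) ≤ bad.card := by positivity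
  have hfin1 : (∑ c ∈ good, a c + ∑ c ∈ bad, a c) ^ 2 ≤
      2 * (∑ c ∈ good, a c) ^ 2 + 2 * (∑ c ∈ bad, a c) ^ 2 := by
    nlinarith [sq_nonneg (∑ c ∈ good, a c - ∑ c ∈ bad, a c)]
  have p1 : 0 ≤ F.card * l2 β β := by positivity
  have p2 : 0 ≤ bad.card * l2 (ofFun E f) (ofFun E f) := by positivity
  have p3 : 0 ≤ (bad.card : ℝ) * F.card := by positivity
  have q1 : 0 ≤ (12 * N₂ + 6) * (F.card * l2 β β) := by positivity
  have q2 : 0 ≤ (2 * D * N₁ + 6) * (bad.card * l2 (ofFun E f) (ofFun E f)) := by positivity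
  have q3 : 0 ≤ (2 * D * N₁ + 12 * N₂) * ((bad.card : ℝ) * F.card) := by positivity
  calc (∑ c ∈ good, a c + ∑ c ∈ bad, a c) ^ 2
      ≤ 2 * (F.card * (D * N₁ * l2 β β)) + 2 * (bad.card *
      (6 * N₂ * l2 (ofFun E f) (ofFun E f) + 3 * F.card)) := by linarith
    _ ≤ _ := by nlinarith

end Pool.Agent.ZSp
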