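import Pool.Agent.Work.MP_058ed1_gt.G.Endgame

/-!
# The endgame, second part
-/

open scoped Manifold ContDiff Topology Bundle ENNReal NNReal
open Set MeasureTheory Bundle

set_option linter.unusedSectionVars false

noncomputable section

namespace Pool.Agent.ZSp

variable {E : Type*} [NormedAddCommGroup E] [InnerProductSpace ℝ E] [FiniteDimensional ℝ E]
  {G X : Type*} [Group G] [EMetricSpace X] [ChartedSpace E X]
  [IsManifold 𝓘(ℝ, E) ∞ X] [RiemannianBundle (fun x : X => TangentSpace 𝓘(ℝ, E) x)]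
  [IsContMDiffRiemannianBundle 𝓘(ℝ, E) ∞ E (fun x : X => TangentSpace 𝓘(ℝ, E) x)]
  [IsRiemannianManifold 𝓘(ℝ, E) X] [MeasurableSpace X] [BorelSpace X]
  [MulAction G X]

theorem av_const_on (B : Set X) (hBm : MeasurableSet B) (hp : 0 < (vol E X).real B) (f : X → ℝ)
    (g : G) (a : ℝ) (hf : ∀ x ∈ B, f (g • x) = a) : av E B f g = a := by
  rw [av_eq, setIntegral_congr_fun (g := fun _ => a) hBm fun x hx => hf x hx]
  rw [setIntegral_const, smul_eq_mul]
  field_simp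

theorem sum_translates_le {B : Set X} {N₂ : ℝ} {f : X → ℝ} {m : ℕ} (C : Subgroup G)
    (F : Finset G) (hF : ∀ c ∈ F, c ∈ C) (g : Fin m → G)
    (hg : ∀ i j, i ≠ j → g i * (g j)⁻¹ ∉ C)
    (H : ∀ Z : Finset G, ∑ z ∈ Z, (av E B f z) ^ 2 ≤ N₂) :
    ∑ i : Fin m, ∑ c ∈ F, (av E B f (c⁻¹ * g i)) ^ 2 ≤ N₂ := by
  classical
  have hinj : Set.InjOn (fun q : Fin m × G => q.2⁻¹ * g q.1)
      ((Finset.univ ×ˢ F : Finset (Fin m × G)) : Set (Fin m × G)) := by
    rintro ⟨i, c⟩ hi ⟨j, d⟩ hj hij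
    simp only [Finset.coe_product, Finset.coe_univ, mem_prod, mem_univ, Finset.mem_coe,
      true_and] at hi hj
    simp only at hij
    have h1 : g i * (g j)⁻¹ = c * d⁻¹ := by
      have : g i = c * (d⁻¹ * g j) := by rw [← hij]; group
      rw [this]; group
    have h2 : i = j := by
      by_contra hne
      exact hg i j hne (h1 ▸ C.mul_mem (hF c hi) (C.inv_mem (hF d hj)))
    subst h2
    have h3 : c = d := by
      rw [mul_inv_cancel] at h1
      have := mul_inv_eq_one.1 h1.symm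
      exact this
    rw [h3]
  rw [← Finset.sum_product', ← Finset.sum_image (f := fun z => (av E B f z) ^ 2) hinj]
  exact H _

theorem endgame [ConnectedSpace X] (hA : IsomAction E G X) (C : Subgroup G) (hF : Folner C)
    (hE : TwoEnds C X) : ¬ HodgeProp E X 0 := by
  classical
  rintro ⟨C₀, hC₀, H⟩
  have : LocallyCompactSpace X := Manifold.locallyCompact_of_finiteDimensional 𝓘(ℝ, E)
  obtain ⟨x₀⟩ : Nonempty X := inferInstance
  obtain ⟨B, hB, hBx⟩ := exists_compact_mem_nhds x₀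
  have hpos : (vol E X).IsOpenPosMeasure := isOpenPosMeasure_vol
  have hp : 0 < (vol E X).real B :=
    ENNReal.toReal_pos (Measure.measure_pos_of_mem_nhds _ hBx).ne' hB.measure_lt_top.ne
  have hBm : MeasurableSet B := hB.isClosed.measurableSet
  obtain ⟨u, φ, h, h1, h0⟩ := exists_endFun hA C hE B hB
  obtain ⟨N₂, hN₂, hsum⟩ := sum_av_sq_le hA hB hp
  obtain ⟨N, hN, T₀, hα⟩ := alpha_bounds hA C h
  set M₀ : ℝ := N₂ * (C₀ * N + 1) with hM₀
  obtain ⟨m, hm⟩ := exists_nat_gt (16 * M₀)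
  obtain ⟨g, hgC, hg⟩ := h1 m
  obtain ⟨g', hgC', hg'⟩ := h0 m
  choose M hM T hT using fun i : Fin m => one_translate hA C h hB hp (g i)
  choose M' hM' T' hT' using fun i : Fin m => one_translate hA C h hB hp (g' i)
  set Mt : ℝ := ∑ i, M i + ∑ i, M' i with hMt
  have hMi : ∀ i, M i ≤ Mt := by
    intro i
    have a1 := Finset.single_le_sum (f := M) (fun j _ => hM j) (Finset.mem_univ i)
    have a2 : 0 ≤ ∑ i, M' i := Finset.sum_nonneg fun j _ => hM' j
    linarith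
  have hMi' : ∀ i, M' i ≤ Mt := by
    intro i
    have a1 := Finset.single_le_sum (f := M') (fun j _ => hM' j) (Finset.mem_univ i)
    have a2 : 0 ≤ ∑ i, M i := Finset.sum_nonneg fun j _ => hM j
    linarith
  have hMt0 : 0 ≤ Mt := by
    have a1 : 0 ≤ ∑ i, M i := Finset.sum_nonneg fun j _ => hM j
    have a2 : 0 ≤ ∑ i, M' i := Finset.sum_nonneg fun j _ => hM' j
    linarith
  set TT : Finset G := T₀ ∪ (Finset.univ.biUnion T ∪ Finset.univ.biUnion T') with hTT
  have hT0s : T₀ ⊆ TT := Finset.subset_union_left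
  have hTis : ∀ i, T i ⊆ TT := fun i =>
    ((Finset.subset_biUnion_of_mem T (Finset.mem_univ i)).trans
      Finset.subset_union_left).trans Finset.subset_union_right
  have hTis' : ∀ i, T' i ⊆ TT := fun i =>
    ((Finset.subset_biUnion_of_mem T' (Finset.mem_univ i)).trans
      Finset.subset_union_right).trans Finset.subset_union_right
  set L : ℝ := 16 * (Mt + 1) * (2 * C₀ * N + 3) with hL
  have hL1 : 1 ≤ L := by
    have b1 : 0 ≤ Mt * (2 * C₀ * N + 3) := by positivity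
    have b2 : 0 ≤ C₀ * N := by positivity
    nlinarith
  set s : ℝ := 1 / L with hs
  have hs0 : 0 < s := by positivity
  have hs1 : s ≤ 1 := by
    rw [hs, div_le_one (by linarith)]; exact hL1
  obtain ⟨F, hFne, hFC, hFb⟩ := folner_bdry hF TT (s ^ 2) (by positivity)
  set k : ℝ := (F.card : ℝ) with hk
  have hk1 : 1 ≤ k := by
    rw [hk]; exact_mod_cast hFne.card_pos
  obtain ⟨hαm, hα1, hα2⟩ := hα F hFC
  have hb0 : ((bdry C T₀ F).card : ℝ) ≤ s ^ 2 * k :=
    le_trans (by exact_mod_cast Finset.card_le_card (bdry_mono hT0s)) hFb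
  obtain ⟨w, hw, hw1, hw2⟩ := H _ hαm s hs0
  obtain ⟨f, hf, rfl⟩ := hw.1.exists_fun
  have hlf : l2 (ofFun E f) (ofFun E f) ≤ (C₀ * N + 1) * k := by
    have : C₀ * l2 (alpha E u φ F) (alpha E u φ F) ≤ C₀ * (N * k) := by gcongr
    nlinarith
  have hlf0 : 0 ≤ l2 (ofFun E f) (ofFun E f) := l2_self_nonneg _
  set β := alpha E u φ F - extD (ofFun E f) with hβ
  have hlβ : l2 β β ≤ (C₀ * N + 1) * s * k := by
    have e1 : l2 (extD (alpha E u φ F)) (extD (alpha E u φ F)) *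
        l2 (alpha E u φ F) (alpha E u φ F) ≤ (N * s * k) ^ 2 := by
      have e2 : l2 (extD (alpha E u φ F)) (extD (alpha E u φ F)) ≤ N * (s ^ 2 * k) :=
        hα2.trans (by gcongr)
      calc _ ≤ (N * (s ^ 2 * k)) * (N * k) :=
            mul_le_mul e2 hα1 (l2_self_nonneg _) (by positivity)
        _ = (N * s * k) ^ 2 := by ring
    have e3 : Real.sqrt (l2 (extD (alpha E u φ F)) (extD (alpha E u φ F)) *
        l2 (alpha E u φ F) (alpha E u φ F)) ≤ N * s * k := by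
      rw [← Real.sqrt_sq (show 0 ≤ N * s * k by positivity)]
      exact Real.sqrt_le_sqrt e1
    have e4 : C₀ * Real.sqrt (l2 (extD (alpha E u φ F)) (extD (alpha E u φ F)) *
        l2 (alpha E u φ F) (alpha E u φ F)) ≤ C₀ * (N * s * k) := by gcongr
    have e5 : s ≤ s * k := le_mul_of_one_le_right hs0.le hk1
    nlinarith
  have hlβ0 : 0 ≤ l2 β β := l2_self_nonneg _
  have hfint : Integrable (fun x => f x ^ 2) (vol E X) := by
    have := integrable_pin hw hw
    have e : pin (ofFun E f) (ofFun E f) = fun x => f x ^ 2 := by funext x; exact pin_ofFun f x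
    rwa [e] at this
  have hl2 : ∫ x, f x ^ 2 ∂(vol E X) = l2 (ofFun E f) (ofFun E f) := by
    unfold l2
    exact integral_congr_ae (Filter.Eventually.of_forall fun x => (pin_ofFun f x).symm)
  have hZ : ∀ Z : Finset G, ∑ z ∈ Z, (av E B f z) ^ 2 ≤ M₀ * k := by
    intro Z
    refine (hsum Z f hf.continuous hfint).trans ?_
    rw [hl2]
    calc N₂ * l2 (ofFun E f) (ofFun E f) ≤ N₂ * ((C₀ * N + 1) * k) := by gcongr
      _ = M₀ * k := by rw [hM₀]; ring
  -- the sum of squares of the `V i`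
  have hVsum : ∀ γ : Fin m → G, (∀ i j, i ≠ j → γ i * (γ j)⁻¹ ∉ C) →
      ∑ i, ((∑ c ∈ F, av E B f (c⁻¹ * γ i)) / k) ^ 2 ≤ M₀ := by
    intro γ hγ
    have a1 := sum_translates_le (E := E) (B := B) (f := f) C F hFC γ hγ hZ
    have a2 : ∀ i : Fin m, ((∑ c ∈ F, av E B f (c⁻¹ * γ i)) / k) ^ 2 ≤
        (1 / k) * ∑ c ∈ F, (av E B f (c⁻¹ * γ i)) ^ 2 := by
      intro i
      have a3 : (∑ c ∈ F, av E B f (c⁻¹ * γ i)) ^ 2 ≤
          k * ∑ c ∈ F, (av E B f (c⁻¹ * γ i)) ^ 2 := sq_sum_le_card_mul_sum_sq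
      rw [div_pow, div_le_iff₀ (by positivity)]
      calc _ ≤ k * ∑ c ∈ F, (av E B f (c⁻¹ * γ i)) ^ 2 := a3
        _ = _ := by field_simp
    calc ∑ i, ((∑ c ∈ F, av E B f (c⁻¹ * γ i)) / k) ^ 2
        ≤ ∑ i, (1 / k) * ∑ c ∈ F, (av E B f (c⁻¹ * γ i)) ^ 2 :=
          Finset.sum_le_sum fun i _ => a2 i
      _ = (1 / k) * ∑ i, ∑ c ∈ F, (av E B f (c⁻¹ * γ i)) ^ 2 := by rw [Finset.mul_sum]
      _ ≤ (1 / k) * (M₀ * k) := by gcongr
      _ = M₀ := by field_simp
  -- the deviations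
  set V₀ : ℝ := (∑ c ∈ F, av E B f c⁻¹) / k with hV₀
  set U₀ : ℝ := av E B u (1 : G) with hU₀
  have hdev : ∀ (γ : G) (Q : ℝ) (S : Finset G), 0 ≤ Q → Q ≤ Mt → S ⊆ TT →
      ((∑ c ∈ F, av E B f (c⁻¹ * γ)) - (∑ c ∈ F, av E B f c⁻¹) -
        F.card * (av E B u γ - av E B u (1 : G))) ^ 2 ≤
        Q * F.card * l2 β β + Q * (bdry C S F).card * (l2 (ofFun E f) (ofFun E f) + F.card) →
      |(∑ c ∈ F, av E B f (c⁻¹ * γ)) / k - V₀ - (av E B u γ - U₀)| ≤ 1 / 4 := by
    intro γ Q S hQ hQM hS hineq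
    have hbS : ((bdry C S F).card : ℝ) ≤ s ^ 2 * k :=
      le_trans (by exact_mod_cast Finset.card_le_card (bdry_mono hS)) hFb
    have hbS0 : (0 : ℝ) ≤ ((bdry C S F).card : ℝ) := by positivity
    rw [← hk] at hineq
    have e1 : Q * k * l2 β β ≤ Q * k * ((C₀ * N + 1) * s * k) := by gcongr
    have e2 : Q * (bdry C S F).card * (l2 (ofFun E f) (ofFun E f) + k) ≤
        Q * (s ^ 2 * k) * ((C₀ * N + 1) * k + k) := by gcongr
    have e3 : Q * k * ((C₀ * N + 1) * s * k) + Q * (s ^ 2 * k) * ((C₀ * N + 1) * k + k) ≤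
        (1 / 16) * k ^ 2 := by
      have e4 : Q * ((C₀ * N + 1) * s + s ^ 2 * (C₀ * N + 2)) ≤ 1 / 16 := by
        have e5 : s ^ 2 ≤ s := by nlinarith
        have e6 : Q * ((C₀ * N + 1) * s + s ^ 2 * (C₀ * N + 2)) ≤
            (Mt + 1) * ((C₀ * N + 1) * s + s * (C₀ * N + 2)) := by
          gcongr
          linarith
        have e7 : (Mt + 1) * ((C₀ * N + 1) * s + s * (C₀ * N + 2)) = 1 / 16 := by
          have : (Mt + 1) * ((C₀ * N + 1) * s + s * (C₀ * N + 2)) =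
              ((Mt + 1) * (2 * C₀ * N + 3)) * s := by ring
          rw [this, hs, hL]
          have hne : (Mt + 1) * (2 * C₀ * N + 3) ≠ 0 := by positivity
          field_simp
        linarith
      calc _ = (Q * ((C₀ * N + 1) * s + s ^ 2 * (C₀ * N + 2))) * k ^ 2 := by ring
        _ ≤ _ := by gcongr
    have hk0 : 0 < k := by linarith
    have e8 : (((∑ c ∈ F, av E B f (c⁻¹ * γ)) / k - V₀ - (av E B u γ - U₀)) * k) ^ 2 ≤
        (1 / 4 * k) ^ 2 := by
      have e9 : ((∑ c ∈ F, av E B f (c⁻¹ * γ)) / k - V₀ - (av E B u γ - U₀)) * k =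
          (∑ c ∈ F, av E B f (c⁻¹ * γ)) - (∑ c ∈ F, av E B f c⁻¹) -
          k * (av E B u γ - av E B u (1 : G)) := by
        rw [hV₀, hU₀]; field_simp
      rw [e9]
      calc _ ≤ (1 / 16) * k ^ 2 := hineq.trans (by linarith)
        _ = _ := by ring
    have e10 := abs_le_of_sq_le_sq e8 (by positivity)
    rw [abs_mul, abs_of_pos hk0] at e10
    exact le_of_mul_le_mul_right e10 hk0
  have hD : ∀ i, |(∑ c ∈ F, av E B f (c⁻¹ * g i)) / k - V₀ - (1 - U₀)| ≤ 1 / 4 := by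
    intro i
    have e1 : av E B u (g i) = 1 := av_const_on B hBm hp u (g i) 1 (hg i)
    have := hdev (g i) (M i) (T i) (hM i) (hMi i) (hTis i) (hT i F hFC hFne f hf hw)
    rwa [e1] at this
  have hD' : ∀ i, |(∑ c ∈ F, av E B f (c⁻¹ * g' i)) / k - V₀ - (0 - U₀)| ≤ 1 / 4 := by
    intro i
    have e1 : av E B u (g' i) = 0 := av_const_on B hBm hp u (g' i) 0 (hg' i)
    have := hdev (g' i) (M' i) (T' i) (hM' i) (hMi' i) (hTis' i) (hT' i F hFC hFne f hf hw)
    rwa [e1] at this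
  have hfin : (m : ℝ) * (1 / 8) ≤ 2 * M₀ := by
    have e1 := hVsum g hgC
    have e2 := hVsum g' hgC'
    have e3 : ∑ i : Fin m, (1 / 8 : ℝ) ≤ ∑ i : Fin m,
        (((∑ c ∈ F, av E B f (c⁻¹ * g i)) / k) ^ 2 +
          ((∑ c ∈ F, av E B f (c⁻¹ * g' i)) / k) ^ 2) := by
      apply Finset.sum_le_sum
      intro i _
      have d1 := abs_le.1 (hD i)
      have d2 := abs_le.1 (hD' i)
      have d3 : 1 / 2 ≤ (∑ c ∈ F, av E B f (c⁻¹ * g i)) / k -
          (∑ c ∈ F, av E B f (c⁻¹ * g' i)) / k := by linarith [d1.1, d2.2]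
      nlinarith [sq_nonneg ((∑ c ∈ F, av E B f (c⁻¹ * g i)) / k +
          (∑ c ∈ F, av E B f (c⁻¹ * g' i)) / k)]
    rw [Finset.sum_add_distrib] at e3
    have e4 : ∑ i : Fin m, (1 / 8 : ℝ) = m * (1 / 8) := by simp
    linarith
  linarith

end Pool.Agent.ZSp
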