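import Mathlib

/-!
# Differential forms on a manifold (fibrewise alternating maps, exterior derivative in charts)
-/

open scoped Manifold ContDiff Topology Bundle
open Set

noncomputable section

namespace Pool.Agent.ZSp

variable {E : Type*} [NormedAddCommGroup E] [InnerProductSpace ℝ E] {X : Type*} [TopologicalSpace X]
  [ChartedSpace E X]

/-- `p`-forms (no regularity): at each point an alternating `p`-form on the tangent space. -/
abbrev PForm (E : Type*) [NormedAddCommGroup E] [InnerProductSpace ℝ E] (X : Type*)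
    [TopologicalSpace X] [ChartedSpace E X] (p : ℕ) :=
  (x : X) → (TangentSpace 𝓘(ℝ, E) x) [⋀^Fin p]→L[ℝ] ℝ

/-- the chart around `x₀`, as a partial equivalence with the model space `E`. -/
abbrev ch (E : Type*) [NormedAddCommGroup E] [InnerProductSpace ℝ E] {X : Type*}
    [TopologicalSpace X] [ChartedSpace E X] (x₀ : X) :
    PartialEquiv X E := extChartAt 𝓘(ℝ, E) x₀

/-- the expression of the form `w` in the chart around `x₀`: the pull-back of `w` by the inverse
of the chart. -/
def inChart {p : ℕ} (w : PForm E X p) (x₀ : X) (y : E) : E [⋀^Fin p]→L[ℝ] ℝ :=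
  (w ((ch E x₀).symm y)).compContinuousLinearMap
    (mfderiv 𝓘(ℝ, E) 𝓘(ℝ, E) (ch E x₀).symm y)

/-- `w` is a smooth form: its expression in every chart is smooth. -/
def SmoothForm {p : ℕ} (w : PForm E X p) : Prop :=
  ∀ x₀ : X, ContDiffOn ℝ ∞ (inChart w x₀) (ch E x₀).target

/-- the exterior derivative: at `x`, computed in the chart around `x` and pulled back. -/
def extD {p : ℕ} (w : PForm E X p) : PForm E X (p + 1) := fun x =>
  (extDeriv (inChart w x) (ch E x x)).compContinuousLinearMap
    (mfderiv 𝓘(ℝ, E) 𝓘(ℝ, E) (ch E x) x)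

/-- the pull-back of a form by a map. -/
def pull {p : ℕ} (g : X → X) (w : PForm E X p) : PForm E X p := fun x =>
  (w (g x)).compContinuousLinearMap (mfderiv 𝓘(ℝ, E) 𝓘(ℝ, E) g x)

/-- a function, seen as a `0`-form. -/
def ofFun (E : Type*) [NormedAddCommGroup E] [InnerProductSpace ℝ E] {X : Type*}
    [TopologicalSpace X] [ChartedSpace E X] (f : X → ℝ) :
    PForm E X 0 := fun x =>
  ContinuousAlternatingMap.constOfIsEmpty ℝ (TangentSpace 𝓘(ℝ, E) x) (Fin 0) (f x)

end Pool.Agent.ZSp
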