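import Pool.Agent.Work.MP_058ed1_gt.G.Defs

/-!
# Cell ZI, module A1: forms, exterior derivative, pull-back
-/

open scoped Manifold ContDiff Topology Bundle ENNReal NNReal
open Set MeasureTheory Bundle

set_option linter.unusedSectionVars false

noncomputable section

namespace Pool.Agent.ZSp

/-! ## Smoothness of maps with values in alternating forms -/

section alt

variable {E : Type*} [NormedAddCommGroup E] [InnerProductSpace ℝ E] [FiniteDimensional ℝ E] {p : ℕ}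

/-- a map with values in alternating forms is smooth if all its evaluations are. -/
theorem contDiffAt_alt {F : E → E [⋀^Fin p]→L[ℝ] ℝ} {y : E} {m : WithTop ℕ∞}
    (h : ∀ v, ContDiffAt ℝ m (fun z => F z v) y) : ContDiffAt ℝ m F y := by
  classical
  let b := (stdOrthonormalBasis ℝ E).toBasis
  let L : (E [⋀^Fin p]→L[ℝ] ℝ) →ₗ[ℝ] ((Fin p → Fin (Module.finrank ℝ E)) → ℝ) :=
    { toFun := fun f i => f (fun k => b (i k))
      map_add' := fun f g => rfl
      map_smul' := fun r f => rfl }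
  have hL : Function.Injective L := by
    intro f g hfg
    apply ContinuousAlternatingMap.toAlternatingMap_injective
    refine Module.Basis.ext_alternating b fun i _ => ?_
    exact congrFun hfg i
  obtain ⟨M, hM⟩ := LinearMap.exists_leftInverse_of_injective L (LinearMap.ker_eq_bot.2 hL)
  have h1 : F = fun z => LinearMap.toContinuousLinearMap M (L (F z)) := by
    funext z
    exact (LinearMap.congr_fun hM (F z)).symm
  rw [h1]
  refine (LinearMap.toContinuousLinearMap M).contDiff.contDiffAt.comp y ?_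
  exact contDiffAt_pi.2 fun i => h _

theorem contDiffAt_altComp {F : E → E [⋀^Fin p]→L[ℝ] ℝ}
    {A : E → E →L[ℝ] E} {y : E} {m : WithTop ℕ∞}
    (hF : ContDiffAt ℝ m F y) (hA : ContDiffAt ℝ m A y) :
    ContDiffAt ℝ m (fun z => (F z).compContinuousLinearMap (A z)) y := by
  apply contDiffAt_alt
  intro v
  have h1 : ContDiffAt ℝ m (fun z => (F z).toContinuousMultilinearMap) y :=
    (ContinuousAlternatingMap.toContinuousMultilinearMapCLM ℝ (E := E) (F := ℝ)
      (ι := Fin p) (𝕜 := ℝ)).contDiff.contDiffAt.comp y hF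
  have h2 : ContDiffAt ℝ m (fun z =>
      ContinuousMultilinearMap.compContinuousLinearMapContinuousMultilinear ℝ
        (fun _ : Fin p => E) (fun _ : Fin p => E) ℝ (fun _ : Fin p => A z)) y :=
    (ContinuousMultilinearMap.contDiff _).contDiffAt.comp y (contDiffAt_pi.2 fun _ => hA)
  have h3 := h2.clm_apply h1
  have h4 := (ContinuousMultilinearMap.apply ℝ (fun _ : Fin p => E) ℝ v).contDiff.contDiffAt
    (n := m) |>.comp y h3
  exact h4

theorem contDiffAt_alt_apply {F : E → E [⋀^Fin p]→L[ℝ] ℝ} {y : E}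
    {m : WithTop ℕ∞} (hF : ContDiffAt ℝ m F y) (v : Fin p → E) :
    ContDiffAt ℝ m (fun z => F z v) y :=
  (ContinuousAlternatingMap.apply ℝ E ℝ v).contDiff.contDiffAt.comp y hF

theorem two_le_infty : minSmoothness ℝ 2 ≤ (∞ : WithTop ℕ∞) := by
  rw [minSmoothness_of_isRCLikeNormedField]
  exact WithTop.coe_le_coe.2 (le_top : (2 : ℕ∞) ≤ ⊤)

end alt

section A1

variable {E : Type*} [NormedAddCommGroup E] [InnerProductSpace ℝ E] [FiniteDimensional ℝ E]
  {X : Type*} [TopologicalSpace X] [ChartedSpace E X] {p : ℕ}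

theorem form_congr (w : PForm E X p) {x x' : X} (h : x = x') (u : Fin p → E) :
    (w x) u = (w x') u := by
  subst h; rfl

theorem ch_target_open (x₀ : X) : IsOpen (ch E x₀).target := isOpen_extChartAt_target x₀

theorem ch_self_mem_target (x : X) : ch E x x ∈ (ch E x).target :=
  mem_extChartAt_target x

theorem ch_target_nhds {x₀ : X} {y : E} (hy : y ∈ (ch E x₀).target) :
    (ch E x₀).target ∈ 𝓝 y := (ch_target_open x₀).mem_nhds hy

theorem continuousAt_ch_symm {x₀ : X} {y : E} (hy : y ∈ (ch E x₀).target) :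
    ContinuousAt (ch E x₀).symm y :=
  (continuousOn_extChartAt_symm x₀).continuousAt (ch_target_nhds hy)

variable [IsManifold 𝓘(ℝ, E) ∞ X]

theorem mdiff_ch {x₀ z : X} (hz : z ∈ (ch E x₀).source) :
    MDifferentiableAt 𝓘(ℝ, E) 𝓘(ℝ, E) (ch E x₀) z := by
  have : IsManifold 𝓘(ℝ, E) 1 X := IsManifold.of_le (n := ∞) (by exact_mod_cast le_top)
  refine mdifferentiableAt_extChartAt ?_
  rwa [← extChartAt_source (I := 𝓘(ℝ, E))]

theorem mdiff_ch_symm {x₀ : X} {y : E} (hy : y ∈ (ch E x₀).target) :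
    MDifferentiableAt 𝓘(ℝ, E) 𝓘(ℝ, E) (ch E x₀).symm y := by
  have : IsManifold 𝓘(ℝ, E) 1 X := IsManifold.of_le (n := ∞) (by exact_mod_cast le_top)
  have h := mdifferentiableWithinAt_extChartAt_symm (I := 𝓘(ℝ, E)) hy
  rwa [ModelWithCorners.range_eq_univ, mdifferentiableWithinAt_univ] at h

/-- the derivative of the chart is a left inverse of the derivative of its inverse. -/
theorem mfderiv_ch_comp {x₀ : X} {y : E} (hy : y ∈ (ch E x₀).target) (v : E) :
    mfderiv 𝓘(ℝ, E) 𝓘(ℝ, E) (ch E x₀) ((ch E x₀).symm y)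
      (mfderiv 𝓘(ℝ, E) 𝓘(ℝ, E) (ch E x₀).symm y v) = v := by
  have : IsManifold 𝓘(ℝ, E) 1 X := IsManifold.of_le (n := ∞) (by exact_mod_cast le_top)
  have h := mfderiv_extChartAt_comp_mfderivWithin_extChartAt_symm (I := 𝓘(ℝ, E)) hy
  rw [ModelWithCorners.range_eq_univ, mfderivWithin_univ] at h
  exact DFunLike.congr_fun h v

/-- the derivative of the chart is a right inverse of the derivative of its inverse. -/
theorem mfderiv_ch_symm_comp {x₀ z : X} (hz : z ∈ (ch E x₀).source)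
    (v : TangentSpace 𝓘(ℝ, E) z) :
    (mfderiv 𝓘(ℝ, E) 𝓘(ℝ, E) (ch E x₀).symm (ch E x₀ z)
      (mfderiv 𝓘(ℝ, E) 𝓘(ℝ, E) (ch E x₀) z v) : E) = v := by
  have : IsManifold 𝓘(ℝ, E) 1 X := IsManifold.of_le (n := ∞) (by exact_mod_cast le_top)
  have h := mfderivWithin_extChartAt_symm_comp_mfderiv_extChartAt' (I := 𝓘(ℝ, E)) hz
  rw [ModelWithCorners.range_eq_univ, mfderivWithin_univ] at h
  exact DFunLike.congr_fun h v

/-- the transition map between the chart at `x₀` and the chart at `x₁`, through `g`. -/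
def chTrans (g : X → X) (x₀ x₁ : X) (y : E) : E := ch E x₁ (g ((ch E x₀).symm y))

theorem fderiv_chTrans {g : X → X} {x₀ x₁ : X} {y : E} (hy : y ∈ (ch E x₀).target)
    (hg : MDifferentiableAt 𝓘(ℝ, E) 𝓘(ℝ, E) g ((ch E x₀).symm y))
    (hgy : g ((ch E x₀).symm y) ∈ (ch E x₁).source) (v : E) :
    fderiv ℝ (chTrans g x₀ x₁) y v =
      mfderiv 𝓘(ℝ, E) 𝓘(ℝ, E) (ch E x₁) (g ((ch E x₀).symm y))
        (mfderiv 𝓘(ℝ, E) 𝓘(ℝ, E) g ((ch E x₀).symm y)
          (mfderiv 𝓘(ℝ, E) 𝓘(ℝ, E) (ch E x₀).symm y v)) := by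
  have h1 : HasMFDerivAt 𝓘(ℝ, E) 𝓘(ℝ, E) (chTrans g x₀ x₁) y
      ((mfderiv 𝓘(ℝ, E) 𝓘(ℝ, E) (ch E x₁) (g ((ch E x₀).symm y))).comp
        ((mfderiv 𝓘(ℝ, E) 𝓘(ℝ, E) g ((ch E x₀).symm y)).comp
          (mfderiv 𝓘(ℝ, E) 𝓘(ℝ, E) (ch E x₀).symm y))) :=
    HasMFDerivAt.comp y (mdiff_ch hgy).hasMFDerivAt
      (HasMFDerivAt.comp y hg.hasMFDerivAt (mdiff_ch_symm hy).hasMFDerivAt)
  rw [← mfderiv_eq_fderiv, h1.mfderiv]
  rfl

theorem contDiffAt_chTrans {g : X → X} (hg : ContMDiff 𝓘(ℝ, E) 𝓘(ℝ, E) ∞ g) {x₀ x₁ : X} {y : E}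
    (hy : y ∈ (ch E x₀).target) (hgy : g ((ch E x₀).symm y) ∈ (ch E x₁).source) :
    ContDiffAt ℝ ∞ (chTrans g x₀ x₁) y := by
  have h1 : ContMDiffAt 𝓘(ℝ, E) 𝓘(ℝ, E) ∞ (ch E x₀).symm y :=
    (contMDiffOn_extChartAt_symm x₀).contMDiffAt (ch_target_nhds hy)
  have h2 : ContMDiffAt 𝓘(ℝ, E) 𝓘(ℝ, E) ∞ (ch E x₁) (g ((ch E x₀).symm y)) := by
    refine contMDiffAt_extChartAt' ?_
    rwa [← extChartAt_source (I := 𝓘(ℝ, E))]
  have h3 : ContMDiffAt 𝓘(ℝ, E) 𝓘(ℝ, E) ∞ (chTrans g x₀ x₁) y :=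
    h2.comp y ((hg _).comp y h1)
  exact h3.contDiffAt

/-- pulling back and charts. -/
theorem inChart_pull (w : PForm E X p) {g : X → X} {x₀ x₁ : X} {y : E}
    (hy : y ∈ (ch E x₀).target) (hg : MDifferentiableAt 𝓘(ℝ, E) 𝓘(ℝ, E) g ((ch E x₀).symm y))
    (hgy : g ((ch E x₀).symm y) ∈ (ch E x₁).source) :
    inChart (pull g w) x₀ y = (inChart w x₁ (chTrans g x₀ x₁ y)).compContinuousLinearMap
      (fderiv ℝ (chTrans g x₀ x₁) y) := by
  ext v
  have h1 : (ch E x₁).symm (chTrans g x₀ x₁ y) = g ((ch E x₀).symm y) :=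
    (ch E x₁).left_inv hgy
  have h2 : ∀ i, mfderiv 𝓘(ℝ, E) 𝓘(ℝ, E) (ch E x₁).symm (chTrans g x₀ x₁ y)
      (fderiv ℝ (chTrans g x₀ x₁) y (v i)) =
      mfderiv 𝓘(ℝ, E) 𝓘(ℝ, E) g ((ch E x₀).symm y)
          (mfderiv 𝓘(ℝ, E) 𝓘(ℝ, E) (ch E x₀).symm y (v i)) := by
    intro i
    rw [fderiv_chTrans hy hg hgy]
    exact mfderiv_ch_symm_comp hgy _
  change w _ _ = w _ _
  refine (form_congr w h1.symm _).trans ?_
  congr 1
  funext i
  exact (h2 i).symm

omit [IsManifold 𝓘(ℝ, E) ∞ X] in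
theorem pull_id (w : PForm E X p) : pull id w = w := by
  funext x
  ext v
  have h : ∀ u : TangentSpace 𝓘(ℝ, E) x, mfderiv 𝓘(ℝ, E) 𝓘(ℝ, E) (id : X → X) x u = u := by
    intro u
    rw [mfderiv_id]
    rfl
  change w x _ = w x v
  congr 1
  funext i
  exact h (v i)

/-- change of charts. -/
theorem inChart_chTrans (w : PForm E X p) {x₀ x₁ : X} {y : E}
    (hy : y ∈ (ch E x₀).target) (hy' : (ch E x₀).symm y ∈ (ch E x₁).source) :
    inChart w x₀ y = (inChart w x₁ (chTrans id x₀ x₁ y)).compContinuousLinearMap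
      (fderiv ℝ (chTrans id x₀ x₁) y) := by
  have h := inChart_pull w (g := id) hy mdifferentiableAt_id hy'
  rwa [pull_id] at h

omit [IsManifold 𝓘(ℝ, E) ∞ X] in
/-- the set where a transition is defined is a neighbourhood of its points. -/
theorem eventually_chTrans {g : X → X} {x₀ x₁ : X} {y : E} (hy : y ∈ (ch E x₀).target)
    (hg : ContinuousAt g ((ch E x₀).symm y)) (hgy : g ((ch E x₀).symm y) ∈ (ch E x₁).source) :
    ∀ᶠ z in 𝓝 y, z ∈ (ch E x₀).target ∧ g ((ch E x₀).symm z) ∈ (ch E x₁).source := by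
  have h1 : ContinuousAt (fun z => g ((ch E x₀).symm z)) y :=
    ContinuousAt.comp (f := (ch E x₀).symm) (g := g) hg (continuousAt_ch_symm hy)
  have h0 : ∀ᶠ z in 𝓝 y, z ∈ (ch E x₀).target := ch_target_nhds hy
  exact h0.and (h1.eventually ((isOpen_extChartAt_source x₁).mem_nhds hgy))

omit [IsManifold 𝓘(ℝ, E) ∞ X] in
theorem SmoothForm.contDiffAt {w : PForm E X p} (hw : SmoothForm w) {x₀ : X} {y : E}
    (hy : y ∈ (ch E x₀).target) : ContDiffAt ℝ ∞ (inChart w x₀) y :=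
  (hw x₀).contDiffAt (ch_target_nhds hy)

omit [IsManifold 𝓘(ℝ, E) ∞ X] in
theorem SmoothForm.differentiableAt {w : PForm E X p} (hw : SmoothForm w) {x₀ : X} {y : E}
    (hy : y ∈ (ch E x₀).target) : DifferentiableAt ℝ (inChart w x₀) y :=
  (hw.contDiffAt hy).differentiableAt (by simp)

/-- exterior derivative in a chart of a pull-back. -/
theorem extDeriv_inChart_pull {w : PForm E X p} (hw : SmoothForm w) {g : X → X}
    (hg : ContMDiff 𝓘(ℝ, E) 𝓘(ℝ, E) ∞ g) {x₀ x₁ : X} {y : E} (hy : y ∈ (ch E x₀).target)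
    (hgy : g ((ch E x₀).symm y) ∈ (ch E x₁).source) :
    extDeriv (inChart (pull g w) x₀) y =
      (extDeriv (inChart w x₁) (chTrans g x₀ x₁ y)).compContinuousLinearMap
        (fderiv ℝ (chTrans g x₀ x₁) y) := by
  have h1 : inChart (pull g w) x₀ =ᶠ[𝓝 y] fun z =>
      (inChart w x₁ (chTrans g x₀ x₁ z)).compContinuousLinearMap
        (fderiv ℝ (chTrans g x₀ x₁) z) := by
    filter_upwards [eventually_chTrans hy (hg.continuous.continuousAt) hgy] with z hz
    exact inChart_pull w hz.1 ((hg _).mdifferentiableAt (by simp)) hz.2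
  rw [h1.extDeriv_eq]
  refine extDeriv_pullback (r := ∞) ?_ (contDiffAt_chTrans hg hy hgy) two_le_infty
  exact hw.differentiableAt ((ch E x₁).map_source hgy)

theorem extDeriv_inChart_chTrans {w : PForm E X p} (hw : SmoothForm w) {x₀ x₁ : X} {y : E}
    (hy : y ∈ (ch E x₀).target) (hy' : (ch E x₀).symm y ∈ (ch E x₁).source) :
    extDeriv (inChart w x₀) y =
      (extDeriv (inChart w x₁) (chTrans id x₀ x₁ y)).compContinuousLinearMap
        (fderiv ℝ (chTrans id x₀ x₁) y) := by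
  have h := extDeriv_inChart_pull hw (g := id) contMDiff_id hy hy'
  rwa [pull_id] at h

theorem inChart_extD {w : PForm E X p} (hw : SmoothForm w) (x₀ : X) {y : E}
    (hy : y ∈ (ch E x₀).target) :
    inChart (extD w) x₀ y = extDeriv (inChart w x₀) y := by
  have hx : (ch E x₀).symm y ∈ (ch E ((ch E x₀).symm y)).source := mem_extChartAt_source _
  rw [extDeriv_inChart_chTrans hw (x₁ := (ch E x₀).symm y) hy hx]
  ext v
  change (extDeriv (inChart w ((ch E x₀).symm y)) _) _ =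
    (extDeriv (inChart w ((ch E x₀).symm y)) _) _
  congr 1
  funext i
  have h3 : ∀ u : TangentSpace 𝓘(ℝ, E) ((ch E x₀).symm y),
      mfderiv 𝓘(ℝ, E) 𝓘(ℝ, E) (id : X → X) ((ch E x₀).symm y) u = u := by
    intro u
    rw [mfderiv_id]
    rfl
  exact (congrArg (mfderiv 𝓘(ℝ, E) 𝓘(ℝ, E) (ch E ((ch E x₀).symm y)) ((ch E x₀).symm y))
    (h3 _).symm).trans (fderiv_chTrans hy (g := id) mdifferentiableAt_id hx (v i)).symm

theorem SmoothForm.extD {w : PForm E X p} (hw : SmoothForm w) : SmoothForm (extD w) := by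
  intro x₀
  have h1 : ContDiffOn ℝ ∞ (extDeriv (inChart w x₀)) (ch E x₀).target := by
    have h2 : ContDiffOn ℝ ∞ (fderiv ℝ (inChart w x₀)) (ch E x₀).target :=
      (hw x₀).fderiv_of_isOpen (ch_target_open x₀) (by simp)
    exact (ContinuousAlternatingMap.alternatizeUncurryFinCLM ℝ E ℝ).contDiff.comp_contDiffOn
      h2
  exact h1.congr fun y hy => inChart_extD hw x₀ hy

theorem extD_extD {w : PForm E X p} (hw : SmoothForm w) : extD (extD w) = 0 := by
  funext x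
  have h1 : inChart (extD w) x =ᶠ[𝓝 (ch E x x)] extDeriv (inChart w x) := by
    filter_upwards [ch_target_nhds (ch_self_mem_target x)] with y hy
    exact inChart_extD hw x hy
  rw [extD, h1.extDeriv_eq, extDeriv_extDeriv_apply
    (hw.contDiffAt (ch_self_mem_target x)) two_le_infty]
  ext v
  rfl

omit [IsManifold 𝓘(ℝ, E) ∞ X] in
theorem SmoothForm.sum {ι : Type*} {w : ι → PForm E X p} (s : Finset ι)
    (hw : ∀ i ∈ s, SmoothForm (w i)) : SmoothForm (∑ i ∈ s, w i) := by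
  classical
  induction s using Finset.induction_on with
  | empty =>
    rw [Finset.sum_empty]
    exact SmoothForm.zero
  | insert a s ha ih =>
    rw [Finset.sum_insert ha]
    exact (hw a (Finset.mem_insert_self a s)).add
      (ih fun i hi => hw i (Finset.mem_insert_of_mem hi))

/-- a smooth function in a chart. -/
theorem contDiffOn_fun {f : X → ℝ} (hf : ContMDiff 𝓘(ℝ, E) 𝓘(ℝ, ℝ) ∞ f) (x₀ : X) :
    ContDiffOn ℝ ∞ (fun y => f ((ch E x₀).symm y)) (ch E x₀).target := by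
  have h1 : ContMDiffOn 𝓘(ℝ, E) 𝓘(ℝ, ℝ) ∞ (fun y => f ((ch E x₀).symm y))
      (ch E x₀).target := hf.comp_contMDiffOn (contMDiffOn_extChartAt_symm x₀)
  exact h1.contDiffOn

/-- multiplication with a smooth function. -/
theorem SmoothForm.fmul {w : PForm E X p} (hw : SmoothForm w) {f : X → ℝ}
    (hf : ContMDiff 𝓘(ℝ, E) 𝓘(ℝ, ℝ) ∞ f) : SmoothForm (fun x => f x • w x) := by
  intro x₀
  exact (contDiffOn_fun hf x₀).smul (hw x₀)

omit [IsManifold 𝓘(ℝ, E) ∞ X] in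
/-- locality (no smoothness). -/
theorem extD_congr {w w' : PForm E X p} {x : X} (h : ∀ᶠ y in 𝓝 x, w y = w' y) :
    extD w x = extD w' x := by
  have h1 : inChart w x =ᶠ[𝓝 (ch E x x)] inChart w' x := by
    have h2 : (ch E x).symm (ch E x x) = x := extChartAt_to_inv x
    have h3 : ContinuousAt (ch E x).symm (ch E x x) :=
      continuousAt_ch_symm (ch_self_mem_target x)
    have h4 := h3.eventually (by rw [h2]; exact h)
    filter_upwards [h4] with y hy
    ext v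
    change w _ _ = w' _ _
    rw [hy]
  rw [Pool.Agent.ZSp.extD, Pool.Agent.ZSp.extD, h1.extDeriv_eq]

omit [IsManifold 𝓘(ℝ, E) ∞ X] in
theorem extD_zero : Pool.Agent.ZSp.extD (0 : PForm E X p) = 0 := by
  funext x
  have h1 : inChart (0 : PForm E X p) x = (0 : ℝ) • inChart (0 : PForm E X p) x := by
    rw [inChart_zero, smul_zero]
  rw [Pool.Agent.ZSp.extD, h1, extDeriv_smul, zero_smul]
  ext v
  rfl

omit [IsManifold 𝓘(ℝ, E) ∞ X] in
theorem extD_add {w w' : PForm E X p} (hw : SmoothForm w) (hw' : SmoothForm w') :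
    Pool.Agent.ZSp.extD (w + w') =
      Pool.Agent.ZSp.extD w + Pool.Agent.ZSp.extD w' := by
  funext x
  have hx := ch_self_mem_target (E := E) x
  rw [Pool.Agent.ZSp.extD, inChart_add,
    extDeriv_add (hw.differentiableAt hx) (hw'.differentiableAt hx)]
  ext v
  rfl

omit [IsManifold 𝓘(ℝ, E) ∞ X] in
theorem extD_smul {w : PForm E X p} (_hw : SmoothForm w) (r : ℝ) :
    Pool.Agent.ZSp.extD (r • w) = r • Pool.Agent.ZSp.extD w := by
  funext x
  rw [Pool.Agent.ZSp.extD, inChart_smul, extDeriv_smul]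
  ext v
  rfl

omit [IsManifold 𝓘(ℝ, E) ∞ X] in
theorem extD_sum {ι : Type*} {w : ι → PForm E X p} (s : Finset ι)
    (hw : ∀ i ∈ s, SmoothForm (w i)) : Pool.Agent.ZSp.extD (∑ i ∈ s, w i) =
      ∑ i ∈ s, Pool.Agent.ZSp.extD (w i) := by
  classical
  induction s using Finset.induction_on with
  | empty =>
    rw [Finset.sum_empty, Finset.sum_empty]
    exact extD_zero
  | insert a s ha ih =>
    have h1 : ∀ i ∈ s, SmoothForm (w i) := fun i hi => hw i (Finset.mem_insert_of_mem hi)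
    rw [Finset.sum_insert ha, Finset.sum_insert ha,
      extD_add (hw a (Finset.mem_insert_self a s)) (SmoothForm.sum s h1), ih h1]

theorem SmoothForm.pull {w : PForm E X p} (hw : SmoothForm w) {g : X → X}
    (hg : ContMDiff 𝓘(ℝ, E) 𝓘(ℝ, E) ∞ g) : SmoothForm (pull g w) := by
  intro x₀ y hy
  have hgy : g ((ch E x₀).symm y) ∈ (ch E (g ((ch E x₀).symm y))).source :=
    mem_extChartAt_source _
  set x₁ := g ((ch E x₀).symm y) with hx₁
  have h1 : inChart (Pool.Agent.ZSp.pull g w) x₀ =ᶠ[𝓝 y] fun z =>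
      (inChart w x₁ (chTrans g x₀ x₁ z)).compContinuousLinearMap
        (fderiv ℝ (chTrans g x₀ x₁) z) := by
    filter_upwards [eventually_chTrans hy (hg.continuous.continuousAt) hgy] with z hz
    exact inChart_pull w hz.1 ((hg _).mdifferentiableAt (by simp)) hz.2
  have hT : ContDiffAt ℝ ∞ (chTrans g x₀ x₁) y := contDiffAt_chTrans hg hy hgy
  have h2 : ContDiffAt ℝ ∞ (fun z => inChart w x₁ (chTrans g x₀ x₁ z)) y :=
    ContDiffAt.comp y (hw.contDiffAt ((ch E x₁).map_source hgy)) hT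
  have h3 : ContDiffAt ℝ ∞ (fderiv ℝ (chTrans g x₀ x₁)) y := hT.fderiv_right (by simp)
  exact ((contDiffAt_altComp h2 h3).congr_of_eventuallyEq h1).contDiffWithinAt

theorem extD_pull {w : PForm E X p} (hw : SmoothForm w) {g : X → X}
    (hg : ContMDiff 𝓘(ℝ, E) 𝓘(ℝ, E) ∞ g) : Pool.Agent.ZSp.extD (pull g w) =
      pull g (Pool.Agent.ZSp.extD w) := by
  funext x
  have hx := ch_self_mem_target (E := E) x
  have h0 : (ch E x).symm (ch E x x) = x := extChartAt_to_inv x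
  have hgs : g ((ch E x).symm (ch E x x)) ∈ (ch E (g x)).source := by
    rw [h0]; exact mem_extChartAt_source _
  have hgd : MDifferentiableAt 𝓘(ℝ, E) 𝓘(ℝ, E) g ((ch E x).symm (ch E x x)) :=
    (hg _).mdifferentiableAt (by simp)
  have hT : chTrans g x (g x) (ch E x x) = ch E (g x) (g x) := by
    rw [chTrans, h0]
  rw [Pool.Agent.ZSp.extD, extDeriv_inChart_pull hw hg hx hgs, hT]
  ext v
  change (extDeriv (inChart w (g x)) (ch E (g x) (g x))) _ =
    (extDeriv (inChart w (g x)) (ch E (g x) (g x))) _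
  congr 1
  funext i
  have h1 := fderiv_chTrans hx hgd hgs (mfderiv 𝓘(ℝ, E) 𝓘(ℝ, E) (ch E x) x (v i))
  have h2 := mfderiv_ch_symm_comp (mem_extChartAt_source (I := 𝓘(ℝ, E)) x) (v i)
  refine h1.trans ?_
  have h3 : ∀ (z : X) (hz : z = x) (u : E), u = v i →
      (mfderiv 𝓘(ℝ, E) 𝓘(ℝ, E) (ch E (g x)) (g z)
        (mfderiv 𝓘(ℝ, E) 𝓘(ℝ, E) g z u) : E) =
      mfderiv 𝓘(ℝ, E) 𝓘(ℝ, E) (ch E (g x)) (g x)
        (mfderiv 𝓘(ℝ, E) 𝓘(ℝ, E) g x (v i)) := by
    intro z hz u hu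
    subst hz
    rw [hu]
  exact h3 _ h0 _ h2

omit [IsManifold 𝓘(ℝ, E) ∞ X] in
theorem pull_pull {w : PForm E X p} {g h : X → X}
    (hg : ContMDiff 𝓘(ℝ, E) 𝓘(ℝ, E) ∞ g) (hh : ContMDiff 𝓘(ℝ, E) 𝓘(ℝ, E) ∞ h) :
    pull g (pull h w) = pull (h ∘ g) w := by
  funext x
  ext v
  change w (h (g x)) _ = w (h (g x)) _
  congr 1
  funext i
  have h1 := mfderiv_comp x ((hh (g x)).mdifferentiableAt (by simp))
    ((hg x).mdifferentiableAt (by simp))
  exact (DFunLike.congr_fun h1 (v i)).symm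

theorem smoothForm_ofFun {f : X → ℝ} (hf : ContMDiff 𝓘(ℝ, E) 𝓘(ℝ, ℝ) ∞ f) :
    SmoothForm (ofFun E f) := by
  intro x₀ y hy
  have h1 : ContDiffAt ℝ ∞ (fun y => f ((ch E x₀).symm y)) y :=
    (contDiffOn_fun hf x₀).contDiffAt (ch_target_nhds hy)
  exact (contDiffAt_alt fun v => h1).contDiffWithinAt

omit [IsManifold 𝓘(ℝ, E) ∞ X] in
/-- every smooth `0`-form comes from a smooth function. -/
theorem SmoothForm.exists_fun {w : PForm E X 0} (hw : SmoothForm w) :
    ∃ f : X → ℝ, ContMDiff 𝓘(ℝ, E) 𝓘(ℝ, ℝ) ∞ f ∧ w = ofFun E f := by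
  refine ⟨fun x => w x (fun i => i.elim0), ?_, ?_⟩
  · intro x
    have hx := ch_self_mem_target (E := E) x
    have h1 : ContDiffAt ℝ ∞ (fun y => w ((ch E x).symm y) (fun i => i.elim0)) (ch E x x) := by
      refine (contDiffAt_alt_apply (hw.contDiffAt hx) (fun i => i.elim0)).congr_of_eventuallyEq ?_
      refine Filter.Eventually.of_forall fun y => ?_
      change w _ _ = w _ _
      congr 1
      funext i
      exact i.elim0
    have h2 : ContMDiffAt 𝓘(ℝ, E) 𝓘(ℝ, ℝ) ∞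
        (fun y => w ((ch E x).symm y) (fun i => i.elim0)) (ch E x x) := h1.contMDiffAt
    have h3 : ContMDiffAt 𝓘(ℝ, E) 𝓘(ℝ, E) ∞ (ch E x) x := contMDiffAt_extChartAt
    have h4 := h2.comp x h3
    refine h4.congr_of_eventuallyEq ?_
    filter_upwards [extChartAt_source_mem_nhds (I := 𝓘(ℝ, E)) x] with z hz
    have h5 : (ch E x).symm (ch E x z) = z := (ch E x).left_inv hz
    have h6 : ∀ z' : X, z' = z → w z (fun i => i.elim0) = w z' (fun i => i.elim0) := by
      intro z' hz'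
      subst hz'
      rfl
    exact h6 _ h5
  · funext x
    ext v
    change w x v = w x _
    congr 1
    funext i
    exact i.elim0

theorem extD_ofFun_apply {f : X → ℝ} (hf : ContMDiff 𝓘(ℝ, E) 𝓘(ℝ, ℝ) ∞ f) (x : X)
    (v : Fin 1 → TangentSpace 𝓘(ℝ, E) x) :
    Pool.Agent.ZSp.extD (ofFun E f) x v = mfderiv 𝓘(ℝ, E) 𝓘(ℝ, ℝ) f x (v 0) := by
  have hx := ch_self_mem_target (E := E) x
  have h0 : (ch E x).symm (ch E x x) = x := extChartAt_to_inv x
  have h1 : inChart (ofFun E f) x = fun y =>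
      ContinuousAlternatingMap.constOfIsEmpty ℝ E (Fin 0) (f ((ch E x).symm y)) := by
    funext y
    ext v
    rfl
  have h2 : extDeriv (inChart (ofFun E f) x) (ch E x x) =
      .ofSubsingleton _ _ _ (0 : Fin 1)
        (fderiv ℝ (fun y => f ((ch E x).symm y)) (ch E x x)) := by
    rw [h1]
    exact extDeriv_constOfIsEmpty (fun y => f ((ch E x).symm y)) (ch E x x)
  have h3 : HasMFDerivAt 𝓘(ℝ, E) 𝓘(ℝ, ℝ) (fun y => f ((ch E x).symm y)) (ch E x x)
      ((mfderiv 𝓘(ℝ, E) 𝓘(ℝ, ℝ) f ((ch E x).symm (ch E x x))).comp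
        (mfderiv 𝓘(ℝ, E) 𝓘(ℝ, E) (ch E x).symm (ch E x x))) :=
    HasMFDerivAt.comp _ ((hf _).mdifferentiableAt (by simp)).hasMFDerivAt
      (mdiff_ch_symm hx).hasMFDerivAt
  have h4 : fderiv ℝ (fun y => f ((ch E x).symm y)) (ch E x x) =
      (mfderiv 𝓘(ℝ, E) 𝓘(ℝ, ℝ) f ((ch E x).symm (ch E x x))).comp
        (mfderiv 𝓘(ℝ, E) 𝓘(ℝ, E) (ch E x).symm (ch E x x)) := by
    rw [← mfderiv_eq_fderiv, h3.mfderiv]
  have h5 := mfderiv_ch_symm_comp (mem_extChartAt_source (I := 𝓘(ℝ, E)) x) (v 0)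
  have h6 : ∀ (z : X) (hz : z = x) (u : E), u = v 0 →
      (mfderiv 𝓘(ℝ, E) 𝓘(ℝ, ℝ) f z u : ℝ) = mfderiv 𝓘(ℝ, E) 𝓘(ℝ, ℝ) f x (v 0) := by
    intro z hz u hu
    subst hz
    rw [hu]
  rw [Pool.Agent.ZSp.extD, h2, h4]
  exact h6 _ h0 _ h5

end A1

end Pool.Agent.ZSp
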