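import Pool.Agent.Work.MP_058ed1_gt.G.Forms

/-!
# The pointwise inner product of forms, the Riemannian measure, the `L²` product
-/

open scoped Manifold ContDiff Topology Bundle
open Set MeasureTheory Bundle

noncomputable section

namespace Pool.Agent.ZSp

/-- inner product of alternating `p`-forms on a finite dimensional Euclidean space `V`:
`∑_{i₁<...<i_p} α(e_{i₁},...,e_{i_p}) β(e_{i₁},...,e_{i_p})` for an orthonormal basis `e`, written
as `1/p!` times the sum over all index tuples. -/
def ainner {V : Type*} [NormedAddCommGroup V] [InnerProductSpace ℝ V] [FiniteDimensional ℝ V]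
    {p : ℕ} (α β : V [⋀^Fin p]→L[ℝ] ℝ) : ℝ :=
  ((p.factorial : ℝ))⁻¹ * ∑ i : Fin p → Fin (Module.finrank ℝ V),
    α (fun k => stdOrthonormalBasis ℝ V (i k)) * β (fun k => stdOrthonormalBasis ℝ V (i k))

variable {E : Type*} [NormedAddCommGroup E] [InnerProductSpace ℝ E] [FiniteDimensional ℝ E]
  {X : Type*} [EMetricSpace X] [ChartedSpace E X]

instance finiteDimensional_TX (x : X) : FiniteDimensional ℝ (TangentSpace 𝓘(ℝ, E) x) :=
  inferInstanceAs (FiniteDimensional ℝ E)

/-- the Riemannian volume measure up to a constant factor: the `dim E`-dimensional Hausdorff measure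
of the (Riemannian) distance of `X`. -/
def vol (E : Type*) [NormedAddCommGroup E] [InnerProductSpace ℝ E] (X : Type*)
    [EMetricSpace X] [MeasurableSpace X] [BorelSpace X] : Measure X :=
  Measure.hausdorffMeasure (Module.finrank ℝ E : ℝ)

variable [RiemannianBundle (fun x : X => TangentSpace 𝓘(ℝ, E) x)]

/-- pointwise inner product of two forms. -/
def pin {p : ℕ} (α β : PForm E X p) (x : X) : ℝ := ainner (α x) (β x)

variable [MeasurableSpace X] [BorelSpace X]

/-- the `L²` product of two forms. -/
def l2 {p : ℕ} (α β : PForm E X p) : ℝ := ∫ x, pin α β x ∂(vol E X)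

end Pool.Agent.ZSp
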