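import Pool.Agent.Work.MP_058ed1_gt.G.Inner

/-!
# The Hodge Laplacian, its minimal closure, zero in the spectrum
-/

open scoped Manifold ContDiff Topology Bundle
open Set MeasureTheory Bundle

noncomputable section

namespace Pool.Agent.ZSp

universe u v

section forms

variable {E : Type u} [NormedAddCommGroup E] [InnerProductSpace ℝ E] {X : Type v}
  [TopologicalSpace X] [ChartedSpace E X] {p : ℕ}

/-- `w ∈ Ω_c^p(X)`: `w` is smooth and has compact support. -/
def Test (w : PForm E X p) : Prop := SmoothForm w ∧ IsCompact (closure {x | w x ≠ 0})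

end forms

variable {E : Type u} [NormedAddCommGroup E] [InnerProductSpace ℝ E] [FiniteDimensional ℝ E]
  {X : Type v} [EMetricSpace X] [ChartedSpace E X]
  [RiemannianBundle (fun x : X => TangentSpace 𝓘(ℝ, E) x)]
  [MeasurableSpace X] [BorelSpace X] {p : ℕ}

/-- `c = δ b`: `δ` is the formal adjoint of the exterior derivative. -/
def DeltaEq (b : PForm E X (p + 1)) (c : PForm E X p) : Prop :=
  ∀ a : PForm E X p, Test a → l2 (extD a) b = l2 a c

/-- `η = Δ w` with `Δ = d δ + δ d`, for `w`, `η` in `Ω_c^p(X)`. -/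
def LapEq : (p : ℕ) → PForm E X p → PForm E X p → Prop
  | 0, w, η => Test w ∧ Test η ∧ DeltaEq (extD w) η
  | (p + 1), w, η => Test w ∧ Test η ∧ ∃ (c : PForm E X p) (d : PForm E X (p + 1)),
      Test c ∧ Test d ∧ DeltaEq w c ∧ DeltaEq (extD w) d ∧ ∀ x, η x = extD c x + d x

/-- `j` identifies the Hilbert space `H` with `L²Ω^p(X)`, the completion of `Ω_c^p(X)` for the
`L²` product. -/
def IsL2 {H : Type*} [NormedAddCommGroup H] [InnerProductSpace ℝ H] (j : PForm E X p → H) : Prop :=
  (∀ a b, Test a → Test b → inner ℝ (j a) (j b) = l2 a b) ∧ Dense (j '' {a | Test a})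

/-- the graph of the minimal closure `(Δ_p)_min` in `L²Ω^p(X) = H`. -/
def lapMin {H : Type*} [NormedAddCommGroup H] (j : PForm E X p → H) : Set (H × H) :=
  closure {z | ∃ w η : PForm E X p, LapEq p w η ∧ z = (j w, j η)}

/-- `(Δ_p)_min` has a bounded inverse `B` on `L²Ω^p(X) = H`: the graph of `(Δ_p)_min` is
`{(B y, y)}`. -/
def HasInv {H : Type*} [NormedAddCommGroup H] [InnerProductSpace ℝ H] (j : PForm E X p → H) :
    Prop := ∃ B : H →L[ℝ] H, lapMin j = {z | z.1 = B z.2}

/-- `0` is in the spectrum of `(Δ_p)_min`: the Laplacian is defined on all of `Ω_c^p(X)`, and the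
closure of its graph in `L²Ω^p(X)` is not the graph of an operator with a bounded inverse. -/
def ZeroSpec (E : Type u) [NormedAddCommGroup E] [InnerProductSpace ℝ E] [FiniteDimensional ℝ E]
    (X : Type v) [EMetricSpace X] [ChartedSpace E X]
    [RiemannianBundle (fun x : X => TangentSpace 𝓘(ℝ, E) x)]
    [MeasurableSpace X] [BorelSpace X] (p : ℕ) : Prop :=
  (∀ w : PForm E X p, Test w → ∃ η : PForm E X p, LapEq p w η) ∧
  ∃ (H : Type (max u v)) (_ : NormedAddCommGroup H) (_ : InnerProductSpace ℝ H)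
    (_ : CompleteSpace H) (j : PForm E X p → H), IsL2 j ∧ ¬ HasInv j

end Pool.Agent.ZSp
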